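import Mathlib
import Pool.Agent.Lib.MP_938ce2_ag_u4.Defs4

/-!
Definitions for the two-sided count of the degenerate CM types.
-/

set_option autoImplicit false
set_option linter.unusedSectionVars false

namespace Pool.Agent.Lib.MP_938ce2_ag_u5

open Pool.Agent.Lib.MP_938ce2_ag_h67 (Orb)

/-- `K` is a normal subgroup, equal to the group of all elements which preserve its orbits, with `n`
orbits on `X`, and the involution `c` preserves none of them -/
def Blk (G X : Type) [Group G] [MulAction G X] (c : G) (n : ℕ) (K : Subgroup G) : Prop :=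
  K.Normal ∧ (∀ x : X, ∀ k ∈ K, k • x ≠ c • x) ∧
    (∀ σ : G, (∀ x : X, ∃ k ∈ K, σ • x = k • x) → σ ∈ K) ∧ Nat.card (Orb K X) = n

/-- `K` has four orbits, or six orbits and lies in a subgroup of the same kind with two orbits -/
def Blk46 (G X : Type) [Group G] [MulAction G X] (c : G) (K : Subgroup G) : Prop :=
  Blk G X c 4 K ∨ (Blk G X c 6 K ∧ ∃ K' : Subgroup G, K ≤ K' ∧ Blk G X c 2 K')

/-- the quotients of `G` by the normal subgroups which contain all stabilizers are abelian -/
def AbQ (G X : Type) [Group G] [MulAction G X] : Prop :=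
  ∀ K : Subgroup G, K.Normal → (∀ (τ : G) (x : X), τ • x = x → τ ∈ K) →
    ∀ σ τ : G, σ * τ * σ⁻¹ * τ⁻¹ ∈ K

end Pool.Agent.Lib.MP_938ce2_ag_u5
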