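import Mathlib
import Pool.Agent.Lib.MP_938ce2_ag_u2.NF
import Pool.Agent.Lib.MP_938ce2_ag_u5.Defs5
import Pool.Agent.Lib.MP_938ce2_ag_L3.FD

/-!
Row Field5: the normal subgroups with two, four or six orbits and the small CM subfields.
-/

set_option autoImplicit false
set_option linter.unusedSectionVars false

namespace Pool.Agent.Lib.MP_938ce2_ag_u5

open Finset Module NumberField
open Pool.Agent.Lib.MP_938ce2_ag_h67 (Orb)
open Pool.Agent.Lib.MP_938ce2_ag_h60 (CMType conj exists_smul_emb)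
open Pool.Agent.Lib.MP_938ce2_ag_u2.H7
open Pool.Agent.Lib.MP_938ce2_ag_L3 (ImagQuad SmallCM AbelianSubfields)

section

variable {L E : Type} [Field L] [NumberField L] [IsGalois ℚ L] [Field E] [NumberField E]

theorem finrank_pullF (x0 : E →ₐ[ℚ] L) (K : Subgroup (L ≃ₐ[ℚ] L)) [K.Normal] :
    finrank ℚ (pullF x0 K) = Nat.card (Orb K (E →ₐ[ℚ] L)) := by
  have h1 : Nat.card (Orb K (E →ₐ[ℚ] L)) = (K ⊔ x0.fieldRange.fixingSubgroup).index :=
    card_orbits x0 K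
  have h4 : Module.finrank ℚ ((pullF x0 K).map x0) = Module.finrank ℚ (pullF x0 K) :=
    ((pullF x0 K).equivMap x0).toLinearEquiv.finrank_eq.symm
  rw [h1, ← h4, finrank_eq_index, fixing_pullF]

theorem le_of_pullF_eq (x0 : E →ₐ[ℚ] L) (K K' : Subgroup (L ≃ₐ[ℚ] L)) [K.Normal]
    [K'.Normal]
    (h : pullF x0 K = pullF x0 K')
    (hK' : ∀ σ : L ≃ₐ[ℚ] L, (∀ x : E →ₐ[ℚ] L, ∃ k ∈ K', σ • x = k • x) → σ ∈ K') : K ≤ K' := by
  have h1 : K ⊔ x0.fieldRange.fixingSubgroup = K' ⊔ x0.fieldRange.fixingSubgroup := by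
    rw [← fixing_pullF, ← fixing_pullF, h]
  intro σ hσ
  apply hK'
  intro x
  obtain ⟨τ, rfl⟩ := exists_smul_emb x0 x
  have h2 : τ⁻¹ * σ * τ ∈ K' ⊔ x0.fieldRange.fixingSubgroup := by
    rw [← h1]
    apply Subgroup.mem_sup_left
    have := ‹K.Normal›.conj_mem σ hσ τ⁻¹
    simpa using this
  rw [← SetLike.mem_coe, Subgroup.normal_mul, Set.mem_mul] at h2
  obtain ⟨k, hk, u, hu, hku⟩ := h2
  refine ⟨τ * k * τ⁻¹, ‹K'.Normal›.conj_mem k hk τ, ?_⟩
  have h3 : (τ⁻¹ * σ * τ) • x0 = k • x0 := by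
    rw [← hku, mul_smul, mem_fixing_range.1 hu]
  rw [mul_smul, mul_smul, inv_smul_smul, ← h3, mul_smul, mul_smul, smul_inv_smul]

theorem pullF_mono (x0 : E →ₐ[ℚ] L) {K K' : Subgroup (L ≃ₐ[ℚ] L)} (h : K ≤ K') :
    pullF x0 K' ≤ pullF x0 K := by
  intro y hy
  rw [mem_pullF] at hy ⊢
  exact fun k hk => hy k (h hk)

variable [IsCMField L] [IsCMField E]

theorem imag_of_blk (x0 : E →ₐ[ℚ] L) (K : Subgroup (L ≃ₐ[ℚ] L))
    (h : Blk (L ≃ₐ[ℚ] L) (E →ₐ[ℚ] L) (conj L) 2 K) : pullF x0 K ∈ ImagQuad E := by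
  obtain ⟨hn, h1, -, h2⟩ := h
  exact ⟨isCMField_pullF x0 K (h1 x0), by rw [finrank_pullF x0 K, h2]⟩

theorem small_of_blk (x0 : E →ₐ[ℚ] L) (K : Subgroup (L ≃ₐ[ℚ] L))
    (h : Blk46 (L ≃ₐ[ℚ] L) (E →ₐ[ℚ] L) (conj L) K) : pullF x0 K ∈ SmallCM E := by
  rcases h with ⟨hn, h1, -, h2⟩ | ⟨⟨hn, h1, -, h2⟩, K', hle, hK'⟩
  · exact ⟨isCMField_pullF x0 K (h1 x0), Or.inl (by rw [finrank_pullF x0 K, h2])⟩
  · exact ⟨isCMField_pullF x0 K (h1 x0), Or.inr ⟨by rw [finrank_pullF x0 K, h2],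
      pullF x0 K', imag_of_blk x0 K' hK', pullF_mono x0 hle⟩⟩

/-- a finite set of subgroups which is not larger than a set of subfields -/
theorem card_le_of_inj (x0 : E →ₐ[ℚ] L) (p : Subgroup (L ≃ₐ[ℚ] L) → Prop)
    (S : Set (IntermediateField ℚ E)) (h1 : ∀ K, p K → pullF x0 K ∈ S)
    (h2 : ∀ K, p K → K.Normal ∧ ∀ σ : L ≃ₐ[ℚ] L,
      (∀ x : E →ₐ[ℚ] L, ∃ k ∈ K, σ • x = k • x) → σ ∈ K) :
    ∃ s : Finset (Subgroup (L ≃ₐ[ℚ] L)), (∀ K, p K → K ∈ s) ∧ s.card ≤ S.ncard := by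
  classical
  have hfinE : Finite (IntermediateField ℚ E) :=
    (Field.exists_primitive_element_iff_finite_intermediateField ℚ E).mp
      ⟨inferInstance, Field.exists_primitive_element ℚ E⟩
  have hfin : {K : Subgroup (L ≃ₐ[ℚ] L) | p K}.Finite := Set.toFinite _
  refine ⟨hfin.toFinset, fun K hK => hfin.mem_toFinset.2 hK, ?_⟩
  rw [← Set.ncard_coe_finset]
  refine Set.ncard_le_ncard_of_injOn (fun K => pullF x0 K) ?_ ?_ (Set.toFinite _)
  · intro K hK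
    exact h1 K (hfin.mem_toFinset.1 (Finset.mem_coe.1 hK))
  · intro K hK K' hK' h
    obtain ⟨n1, a1⟩ := h2 K (hfin.mem_toFinset.1 (Finset.mem_coe.1 hK))
    obtain ⟨n2, a2⟩ := h2 K' (hfin.mem_toFinset.1 (Finset.mem_coe.1 hK'))
    exact le_antisymm (le_of_pullF_eq x0 K K' h a2) (le_of_pullF_eq x0 K' K h.symm a1)

end

/-- quotients by normal subgroups which contain the stabilizers -/
theorem abQ_of_abelian (L E : Type) [Field L] [NumberField L] [IsGalois ℚ L] [Field E]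
    [NumberField E] [Nonempty (E →ₐ[ℚ] L)] (h : AbelianSubfields E) :
    AbQ (L ≃ₐ[ℚ] L) (E →ₐ[ℚ] L) := by
  intro K hK hst σ τ
  obtain ⟨x0⟩ := (inferInstance : Nonempty (E →ₐ[ℚ] L))
  set N : IntermediateField ℚ L := IntermediateField.fixedField K with hN
  have hG : IsGalois ℚ N := IsGalois.of_fixedField_normal_subgroup K
  have hmap : (pullF x0 K).map x0 = N := by
    rw [map_pullF]
    apply inf_eq_left.mpr
    have h1 : x0.fieldRange.fixingSubgroup ≤ K := fun ρ hρ => hst ρ x0 (mem_fixing_range.1 hρ)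
    have h2 : IntermediateField.fixedField K
        ≤ IntermediateField.fixedField x0.fieldRange.fixingSubgroup :=
      IntermediateField.fixedField_antitone h1
    rwa [IsGalois.fixedField_fixingSubgroup] at h2
  let e : pullF x0 K ≃ₐ[ℚ] N :=
    ((pullF x0 K).equivMap x0).trans (IntermediateField.equivOfEq hmap)
  have hGF : IsGalois ℚ (pullF x0 K) := IsGalois.of_algEquiv e.symm
  have hcom : ∀ a b : N ≃ₐ[ℚ] N, a * b = b * a := by
    intro a b
    have h1 := h (pullF x0 K) hGF ((e.trans a).trans e.symm) ((e.trans b).trans e.symm)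
    ext z
    have h2 := congrArg (fun f : pullF x0 K ≃ₐ[ℚ] pullF x0 K => e (f (e.symm z))) h1
    simp only [AlgEquiv.mul_apply, AlgEquiv.trans_apply, AlgEquiv.apply_symm_apply] at h2
    rw [AlgEquiv.mul_apply, AlgEquiv.mul_apply, h2]
  have hfix : IntermediateField.fixingSubgroup N = K := by
    rw [hN, IntermediateField.fixingSubgroup_fixedField]
  rw [← hfix, IntermediateField.mem_fixingSubgroup_iff]
  intro z hz
  have hres : ∀ (ρ : L ≃ₐ[ℚ] L) (w : N), ρ (w : L) = ((ρ.restrictNormal N w : N) : L) :=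
    fun ρ w => (AlgEquiv.restrictNormal_commutes ρ N w).symm
  set w : N := (σ⁻¹).restrictNormal N ((τ⁻¹).restrictNormal N ⟨z, hz⟩) with hw
  have h3 : (w : L) = σ⁻¹ (τ⁻¹ z) := by
    rw [hw, ← hres, ← hres]
  show σ (τ (σ⁻¹ (τ⁻¹ z))) = z
  rw [← h3, hres τ w, hres σ]
  have h4 := congrArg (fun f : N ≃ₐ[ℚ] N => f w) (hcom (σ.restrictNormal N) (τ.restrictNormal N))
  have h5 : σ.restrictNormal N (τ.restrictNormal N w) = τ.restrictNormal N (σ.restrictNormal N w) :=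
    h4
  rw [h5, ← hres, ← hres, h3]
  show τ (σ (σ⁻¹ (τ⁻¹ z))) = z
  have h6 : σ (σ⁻¹ (τ⁻¹ z)) = τ⁻¹ z := AlgEquiv.apply_symm_apply σ _
  rw [h6]
  exact AlgEquiv.apply_symm_apply τ z

end Pool.Agent.Lib.MP_938ce2_ag_u5
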