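import Mathlib
import Pool.Agent.Lib.MP_938ce2_ag_u3.RegMod
import Pool.Agent.Lib.MP_938ce2_ag_u5.Defs5

/-!
Row Abel: simple modules on which the stabilizers act trivially.
-/

set_option autoImplicit false
set_option linter.unusedSectionVars false

namespace Pool.Agent.Lib.MP_938ce2_ag_u5

open Finset Module MonoidAlgebra
open Pool.Agent.Lib.MP_938ce2_ag_h67 (sg VV ev mkV Orb red kerM actL actL_mul actL_apply actL_one)
open Pool.Agent.Lib.MP_938ce2_ag_h60 (CMType)
open Pool.Agent.Lib.MP_938ce2_ag_u2 (Act OddM badC mem_badC dM dE dH)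

variable {G X : Type} [Group G] [Fintype G] [MulAction G X] [Fintype X] [DecidableEq X] {c : G}
  {g : ℕ} [MulAction.IsPretransitive G X]

/-- the group acts on `M` by commuting operators -/
theorem actL_comm (hA : Act G X c g) (hab : AbQ G X)
    (M : Submodule (MonoidAlgebra ℚ G) (VV ℚ G X)) (h : dH M = dM M) (σ τ : G) :
    actL M σ * actL M τ = actL M τ * actL M σ := by
  have h1 := hab (kerM M) inferInstance (fun τ x hx => Pool.Agent.Lib.MP_938ce2_ag_u3.stab_ker hA M h τ x hx)
    σ τ
  rw [MP_938ce2_ag_u2.ThreeAAux.mem_kerM_iff] at h1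
  rw [← actL_mul, ← actL_mul]
  have h2 : σ * τ = (σ * τ * σ⁻¹ * τ⁻¹) * (τ * σ) := by group
  rw [h2, actL_mul, h1, one_mul]

theorem dE_eq (hA : Act G X c g) (hab : AbQ G X)
    (M : Submodule (MonoidAlgebra ℚ G) (VV ℚ G X)) (hs : IsSimpleModule (MonoidAlgebra ℚ G) M)
    (h : dH M = dM M) : dE M = dM M := by
  have hnt : Nontrivial M := IsSimpleModule.nontrivial (MonoidAlgebra ℚ G) M
  obtain ⟨v, hv⟩ := exists_ne (0 : M)
  let en : G → (M →ₗ[MonoidAlgebra ℚ G] M) := fun σ =>
    MonoidAlgebra.equivariantOfLinearOfComm (actL M σ) (by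
      intro τ s
      have h1 := congrArg (fun t : M →ₗ[ℚ] M => t s) (actL_comm hA hab M h σ τ)
      exact h1)
  have hen : ∀ σ s, en σ s = MonoidAlgebra.single σ (1 : ℚ) • s := fun σ s => rfl
  let ψ : (M →ₗ[MonoidAlgebra ℚ G] M) →ₗ[ℚ] M :=
    { toFun := fun φ => φ v
      map_add' := fun φ φ' => rfl
      map_smul' := fun a φ => rfl }
  have hψ : ∀ φ, ψ φ = φ v := fun φ => rfl
  have hinj : Function.Injective ψ := by
    rw [injective_iff_map_eq_zero]
    intro φ hφ
    rw [hψ] at hφ
    rcases LinearMap.injective_or_eq_zero φ with h1 | h1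
    · exact absurd (h1 (hφ.trans (map_zero φ).symm)) hv
    · exact h1
  let S : Submodule (MonoidAlgebra ℚ G) M :=
    { carrier := {w | ∃ φ : M →ₗ[MonoidAlgebra ℚ G] M, φ v = w}
      zero_mem' := ⟨0, rfl⟩
      add_mem' := by
        rintro _ _ ⟨φ, rfl⟩ ⟨φ', rfl⟩
        exact ⟨φ + φ', rfl⟩
      smul_mem' := by
        intro r
        induction r using MonoidAlgebra.induction_linear with
        | zero =>
          rintro _ ⟨φ, rfl⟩
          exact ⟨0, by rw [zero_smul]; rfl⟩
        | add a b ha hb =>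
          intro w hw
          obtain ⟨φ, h1⟩ := ha hw
          obtain ⟨φ', h2⟩ := hb hw
          exact ⟨φ + φ', by rw [add_smul, LinearMap.add_apply, h1, h2]⟩
        | single σ a =>
          rintro _ ⟨φ, rfl⟩
          refine ⟨a • (en σ).comp φ, ?_⟩
          rw [LinearMap.smul_apply, LinearMap.comp_apply, hen]
          have h1 : (MonoidAlgebra.single σ a : MonoidAlgebra ℚ G)
              = a • MonoidAlgebra.single σ (1 : ℚ) := by
            rw [MonoidAlgebra.smul_single, smul_eq_mul, mul_one]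
          rw [h1, smul_assoc] }
  have hS : S = ⊤ := by
    rcases eq_bot_or_eq_top S with h1 | h1
    · exfalso
      have h2 : v ∈ S := ⟨LinearMap.id, rfl⟩
      rw [h1] at h2
      exact hv h2
    · exact h1
  have hsur : Function.Surjective ψ := by
    intro w
    have h1 : w ∈ S := by rw [hS]; exact Submodule.mem_top
    exact h1
  exact (LinearEquiv.ofBijective ψ ⟨hinj, hsur⟩).finrank_eq

end Pool.Agent.Lib.MP_938ce2_ag_u5
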