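import Mathlib

/-!
Row Plane, linear algebra in dimension two.
-/

set_option autoImplicit false
set_option linter.unusedSectionVars false

namespace Pool.Agent.Lib.MP_938ce2_ag_u5

open Module

section

variable {V : Type} [AddCommGroup V] [Module ℚ V]

theorem mat_two (A : Matrix (Fin 2) (Fin 2) ℚ) : A * A = A.trace • A - A.det • 1 := by
  ext i j
  fin_cases i <;> fin_cases j <;>
    simp [Matrix.mul_apply, Fin.sum_univ_two, Matrix.trace_fin_two, Matrix.det_fin_two] <;> ring

/-- the theorem of Cayley and Hamilton -/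
theorem ch_two (hV : finrank ℚ V = 2) (T : V →ₗ[ℚ] V) :
    T * T = (LinearMap.trace ℚ V T) • T - (LinearMap.det T) • (1 : V →ₗ[ℚ] V) := by
  have hfin : Module.Finite ℚ V := Module.finite_of_finrank_pos (by omega)
  let b : Basis (Fin 2) ℚ V := Module.finBasisOfFinrankEq ℚ V hV
  apply (LinearMap.toMatrix b b).injective
  rw [LinearMap.toMatrix_mul, map_sub, map_smul, map_smul, LinearMap.toMatrix_one, mat_two,
    LinearMap.trace_eq_matrix_trace ℚ b, LinearMap.det_toMatrix]

variable (B : V →ₗ[ℚ] V →ₗ[ℚ] ℚ)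

/-- the skew operators form a space of dimension one -/
theorem skew_prop (hV : finrank ℚ V = 2) (hpos : ∀ v, B v v = 0 → v = 0)
    (K₁ K₂ : V →ₗ[ℚ] V) (h₁ : ∀ v, B (K₁ v) v = 0) (h₂ : ∀ v, B (K₂ v) v = 0) (h0 : K₁ ≠ 0) :
    ∃ l : ℚ, K₂ = l • K₁ := by
  have hfin : Module.Finite ℚ V := Module.finite_of_finrank_pos (by omega)
  let b : Basis (Fin 2) ℚ V := Module.finBasisOfFinrankEq ℚ V hV
  have key : ∀ K : V →ₗ[ℚ] V, (∀ v, B (K v) v = 0) → B (K (b 0)) (b 1) = 0 → K = 0 := by
    intro K hK h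
    have h1 : B (K (b 1)) (b 0) = 0 := by
      have h2 := hK (b 0 + b 1)
      simp only [map_add, LinearMap.add_apply, hK, h, zero_add, add_zero] at h2
      exact h2
    have h3 : B (K (b 0)) = 0 := by
      apply b.ext
      intro i
      fin_cases i
      · exact hK (b 0)
      · exact h
    have h4 : B (K (b 1)) = 0 := by
      apply b.ext
      intro i
      fin_cases i
      · exact h1
      · exact hK (b 1)
    have h5 : K (b 0) = 0 := hpos _ (by rw [h3]; rfl)
    have h6 : K (b 1) = 0 := hpos _ (by rw [h4]; rfl)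
    apply b.ext
    intro i
    fin_cases i
    · exact h5
    · exact h6
  set a₁ := B (K₁ (b 0)) (b 1) with ha₁
  set a₂ := B (K₂ (b 0)) (b 1) with ha₂
  have ha : a₁ ≠ 0 := fun h => h0 (key K₁ h₁ h)
  have h3 : a₁ • K₂ - a₂ • K₁ = 0 := by
    apply key
    · intro v
      simp only [LinearMap.sub_apply, LinearMap.smul_apply, map_sub, map_smul, h₁, h₂, smul_zero,
        sub_zero]
    · simp only [LinearMap.sub_apply, LinearMap.smul_apply, map_sub, map_smul, smul_eq_mul]
      rw [← ha₁, ← ha₂]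
      ring
  refine ⟨a₂ / a₁, ?_⟩
  have h4 : a₁ • K₂ = a₂ • K₁ := sub_eq_zero.mp h3
  rw [div_eq_inv_mul, mul_smul, ← h4, smul_smul, inv_mul_cancel₀ ha, one_smul]

/-- the trace of an isometry of determinant one -/
theorem iso_trace (hV : finrank ℚ V = 2) (hpos : ∀ v, v ≠ 0 → 0 < B v v)
    (T T' : V →ₗ[ℚ] V) (hT : T * T' = 1) (hT' : T' * T = 1) (hiso : ∀ v w, B (T v) (T w) = B v w)
    (hsym : ∀ v w, B v w = B w v) (hdet : LinearMap.det T = 1) :
    T + T' = (LinearMap.trace ℚ V T) • (1 : V →ₗ[ℚ] V) ∧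
    (∀ v, B ((T - T') v) v = 0) ∧ |LinearMap.trace ℚ V T| ≤ 2 ∧
    (LinearMap.trace ℚ V T = 2 → T = 1) ∧ (LinearMap.trace ℚ V T = -2 → T = -1) ∧
    (T - T') * (T - T') = ((LinearMap.trace ℚ V T) ^ 2 - 4) • (1 : V →ₗ[ℚ] V) := by
  set t := LinearMap.trace ℚ V T with ht
  have hch := ch_two hV T
  rw [hdet, one_smul, ← ht] at hch
  have h1 : T + T' = t • (1 : V →ₗ[ℚ] V) := by
    have h2 := congrArg (fun S => S * T') hch
    simp only [sub_mul, smul_mul_assoc, one_mul] at h2
    rw [mul_assoc, hT, mul_one] at h2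
    rw [h2]
    abel
  have hadj : ∀ v w, B (T' v) w = B v (T w) := by
    intro v w
    rw [← hiso (T' v) w]
    have h2 : T (T' v) = v := congrArg (fun S : V →ₗ[ℚ] V => S v) hT
    rw [h2]
  have h2 : ∀ v, B ((T - T') v) v = 0 := by
    intro v
    rw [LinearMap.sub_apply, map_sub, LinearMap.sub_apply, hadj, hsym v (T v), sub_self]
  have h3 : ∀ v, 2 * B (T v) v = t * B v v := by
    intro v
    have h4 : B ((T + T') v) v = t * B v v := by
      rw [h1, LinearMap.smul_apply, Module.End.one_apply, map_smul, LinearMap.smul_apply,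
        smul_eq_mul]
    rw [LinearMap.add_apply, map_add, LinearMap.add_apply, hadj, hsym v (T v)] at h4
    linarith
  have h4 : ∀ v, B (T v - v) (T v - v) = (2 - t) * B v v := by
    intro v
    simp only [map_sub, LinearMap.sub_apply, hiso]
    rw [hsym v (T v)]
    linarith [h3 v]
  have h5 : ∀ v, B (T v + v) (T v + v) = (2 + t) * B v v := by
    intro v
    simp only [map_add, LinearMap.add_apply, hiso]
    rw [hsym v (T v)]
    linarith [h3 v]
  have hpos' : ∀ v, 0 ≤ B v v := by
    intro v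
    rcases eq_or_ne v 0 with h | h
    · rw [h, map_zero]
    · exact (hpos v h).le
  have hz : ∀ v, B v v = 0 → v = 0 := by
    intro v hv
    by_contra h
    exact absurd hv (hpos v h).ne'
  refine ⟨h1, h2, ?_, ?_, ?_, ?_⟩
  · have hnt : Nontrivial V := Module.nontrivial_of_finrank_pos (R := ℚ) (by omega)
    obtain ⟨v, hv⟩ := exists_ne (0 : V)
    have h6 := hpos v hv
    have h7 := hpos' (T v - v)
    have h8 := hpos' (T v + v)
    rw [h4] at h7
    rw [h5] at h8
    rw [abs_le]
    constructor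
    · by_contra hcon
      push Not at hcon
      nlinarith
    · by_contra hcon
      push Not at hcon
      nlinarith
  · intro h
    apply LinearMap.ext
    intro v
    have h6 := h4 v
    rw [h, sub_self, zero_mul] at h6
    exact sub_eq_zero.mp (hz _ h6)
  · intro h
    apply LinearMap.ext
    intro v
    have h6 := h5 v
    rw [h] at h6
    have h7 : B (T v + v) (T v + v) = 0 := by rw [h6]; ring
    exact eq_neg_of_add_eq_zero_left (hz _ h7)
  · have h6 : T' = t • (1 : V →ₗ[ℚ] V) - T := by rw [← h1]; abel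
    have h7 : T - T' = (2 : ℚ) • T - t • (1 : V →ₗ[ℚ] V) := by
      rw [h6, two_smul]
      abel
    rw [h7]
    have h8 : ((2 : ℚ) • T - t • (1 : V →ₗ[ℚ] V)) * ((2 : ℚ) • T - t • (1 : V →ₗ[ℚ] V))
        = (4 : ℚ) • (T * T) - (4 * t) • T + (t ^ 2) • (1 : V →ₗ[ℚ] V) := by
      simp only [sub_mul, mul_sub, smul_mul_assoc, mul_smul_comm, one_mul, mul_one, smul_sub,
        smul_smul]
      module
    rw [h8, hch]
    module

/-- an isometry of determinant minus one is an involution -/
theorem iso_neg (hV : finrank ℚ V = 2) (hpos : ∀ v, v ≠ 0 → 0 < B v v)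
    (T T' : V →ₗ[ℚ] V) (hT : T * T' = 1) (hiso : ∀ v w, B (T v) (T w) = B v w)
    (hsym : ∀ v w, B v w = B w v) (hdet : LinearMap.det T = -1) : T * T = 1 := by
  set t := LinearMap.trace ℚ V T with ht
  have hch := ch_two hV T
  rw [hdet, neg_smul, one_smul, ← ht, sub_neg_eq_add] at hch
  have h1 : T - T' = t • (1 : V →ₗ[ℚ] V) := by
    have h2 := congrArg (fun S => S * T') hch
    simp only [add_mul, smul_mul_assoc, one_mul] at h2
    rw [mul_assoc, hT, mul_one] at h2
    rw [h2]
    abel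
  have hadj : ∀ v w, B (T' v) w = B v (T w) := by
    intro v w
    rw [← hiso (T' v) w]
    have h2 : T (T' v) = v := congrArg (fun S : V →ₗ[ℚ] V => S v) hT
    rw [h2]
  have hnt : Nontrivial V := Module.nontrivial_of_finrank_pos (R := ℚ) (by omega)
  obtain ⟨v, hv⟩ := exists_ne (0 : V)
  have h2 : B ((T - T') v) v = 0 := by
    rw [LinearMap.sub_apply, map_sub, LinearMap.sub_apply, hadj, hsym v (T v), sub_self]
  rw [h1, LinearMap.smul_apply, Module.End.one_apply, map_smul, LinearMap.smul_apply,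
    smul_eq_mul] at h2
  have h3 : t = 0 := (mul_eq_zero.mp h2).resolve_right (hpos v hv).ne'
  rw [hch, h3, zero_smul, zero_add]

end

end Pool.Agent.Lib.MP_938ce2_ag_u5
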