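import Mathlib
import Pool.Agent.Lib.MP_938ce2_ag_h88.M2
import Pool.Agent.Lib.MP_938ce2_ag_u5.PlaneLin

/-!
Row Plane: finite groups of isometries of a rational plane.
-/

set_option autoImplicit false
set_option linter.unusedSectionVars false

namespace Pool.Agent.Lib.MP_938ce2_ag_u5

open Module

lemma not_sq_three (r : ℚ) : r ^ 2 ≠ 3 := by
  intro h
  have h1 : Irrational (√((3 : ℕ) : ℝ)) := Nat.prime_three.irrational_sqrt
  apply h1
  refine ⟨|r|, ?_⟩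
  have h2 : ((3 : ℕ) : ℝ) = ((|r| : ℚ) : ℝ) ^ 2 := by
    have h3 : |r| ^ 2 = 3 := by rw [sq_abs, h]
    exact_mod_cast h3.symm
  rw [h2, Real.sqrt_sq (by exact_mod_cast abs_nonneg r)]

lemma sq_one_cases {l : ℚ} (h : l ^ 2 = 1) : l = 1 ∨ l = -1 := by
  have h2 : (l - 1) * (l + 1) = 0 := by linarith
  rcases mul_eq_zero.mp h2 with h3 | h3
  · exact Or.inl (by linarith)
  · exact Or.inr (by linarith)

lemma neg_one_cube {V : Type} [AddCommGroup V] [Module ℚ V] : (-1 : V →ₗ[ℚ] V) ^ 3 = -1 := by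
  norm_num

lemma neg_one_sq' {V : Type} [AddCommGroup V] [Module ℚ V] : (-1 : V →ₗ[ℚ] V) ^ 2 = 1 := by
  norm_num

lemma neg_cube {V : Type} [AddCommGroup V] [Module ℚ V] (T : V →ₗ[ℚ] V) (h : T ^ 3 = -1) :
    (-1 * T) ^ 3 = 1 := by
  rw [neg_one_mul, Odd.neg_pow (by decide), h, neg_neg]

lemma cube_pm {V : Type} [AddCommGroup V] [Module ℚ V] (T : V →ₗ[ℚ] V) (h : T ^ 3 = -1) (n : ℕ) :
    (T ^ n) ^ 3 = 1 ∨ (T ^ n) ^ 3 = -1 := by
  rw [← pow_mul, mul_comm, pow_mul, h]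
  exact neg_one_pow_eq_or _ n

section

variable {Γ V : Type} [Group Γ] [Finite Γ] [AddCommGroup V] [Module ℚ V] (ρ : Γ →* (V →ₗ[ℚ] V))

lemma rho_mul_inv (σ : Γ) : ρ σ * ρ σ⁻¹ = 1 := by
  rw [← map_mul, mul_inv_cancel, map_one]

lemma rho_inv_mul (σ : Γ) : ρ σ⁻¹ * ρ σ = 1 := by
  rw [← map_mul, inv_mul_cancel, map_one]

lemma det_pm (σ : Γ) : LinearMap.det (ρ σ) = 1 ∨ LinearMap.det (ρ σ) = -1 := by
  have h1 : LinearMap.det (ρ σ) ^ (orderOf σ) = 1 := by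
    rw [← map_pow, ← map_pow, pow_orderOf_eq_one, map_one, map_one]
  have h2 : |LinearMap.det (ρ σ)| ^ (orderOf σ) = 1 := by rw [← abs_pow, h1, abs_one]
  have h3 := (pow_eq_one_iff_of_nonneg (abs_nonneg _) (orderOf_pos σ).ne').mp h2
  exact eq_or_eq_neg_of_abs_eq h3

/-- the elements of determinant one -/
def AA : Subgroup Γ where
  carrier := {σ | LinearMap.det (ρ σ) = 1}
  mul_mem' := by
    intro a b ha hb
    show LinearMap.det (ρ (a * b)) = 1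
    rw [map_mul, map_mul, ha, hb, one_mul]
  one_mem' := by
    show LinearMap.det (ρ 1) = 1
    rw [map_one, map_one]
  inv_mem' := by
    intro a ha
    show LinearMap.det (ρ a⁻¹) = 1
    have h1 : LinearMap.det (ρ a * ρ a⁻¹) = 1 := by rw [rho_mul_inv, map_one]
    rw [map_mul] at h1
    have h2 : LinearMap.det (ρ a) = 1 := ha
    rwa [h2, one_mul] at h1

lemma mem_AA (σ : Γ) : σ ∈ AA ρ ↔ LinearMap.det (ρ σ) = 1 := Iff.rfl

variable (B : V →ₗ[ℚ] V →ₗ[ℚ] ℚ) (hV : finrank ℚ V = 2) (hpos : ∀ v, v ≠ 0 → 0 < B v v)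
  (hsym : ∀ v w, B v w = B w v) (hinv : ∀ σ v w, B (ρ σ v) (ρ σ w) = B v w)

include hV in
lemma smul_one_inj {a b : ℚ} (h : a • (1 : V →ₗ[ℚ] V) = b • 1) : a = b := by
  have hnt : Nontrivial V := Module.nontrivial_of_finrank_pos (R := ℚ) (by omega)
  obtain ⟨v, hv⟩ := exists_ne (0 : V)
  have h1 : a • v = b • v := congrArg (fun t : V →ₗ[ℚ] V => t v) h
  exact smul_left_injective ℚ hv h1

include hV in
lemma neg_one_ne : (-1 : V →ₗ[ℚ] V) ≠ 1 := by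
  intro h
  have h3 : (-1 : ℚ) • (1 : V →ₗ[ℚ] V) = (1 : ℚ) • 1 := by
    rw [neg_smul, one_smul, h]
  have h5 := smul_one_inj hV h3
  norm_num at h5

include hV in
lemma det_neg_one : LinearMap.det (-1 : V →ₗ[ℚ] V) = 1 := by
  have h1 : (-1 : V →ₗ[ℚ] V) = (-1 : ℚ) • 1 := by rw [neg_smul, one_smul]
  rw [h1, LinearMap.det_smul, hV, map_one]
  norm_num

include hpos hinv hsym hV in
lemma trace_cases (σ : Γ) (hσ : σ ∈ AA ρ) :
    LinearMap.trace ℚ V (ρ σ) = 2 ∨ LinearMap.trace ℚ V (ρ σ) = 1 ∨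
    LinearMap.trace ℚ V (ρ σ) = 0 ∨ LinearMap.trace ℚ V (ρ σ) = -1 ∨
    LinearMap.trace ℚ V (ρ σ) = -2 := by
  have hfin : Module.Finite ℚ V := Module.finite_of_finrank_pos (by omega)
  obtain ⟨z, hz⟩ := Pool.Agent.Lib.MP_938ce2_ag_h88.trace_int (ρ σ) (orderOf σ) (orderOf_pos σ)
    (by rw [← map_pow, pow_orderOf_eq_one, map_one])
  have h3 := (iso_trace B hV hpos (ρ σ) (ρ σ⁻¹) (rho_mul_inv ρ σ)
    (rho_inv_mul ρ σ) (hinv σ) hsym hσ).2.2.1
  rw [hz] at h3 ⊢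
  have h4 : |z| ≤ 2 := by exact_mod_cast h3
  rw [abs_le] at h4
  obtain ⟨h5, h6⟩ := h4
  interval_cases z
  · right; right; right; right; norm_num
  · right; right; right; left; norm_num
  · right; right; left; norm_num
  · right; left; norm_num
  · left; norm_num

include hsym hinv in
lemma KK_skew (σ : Γ) (v : V) : B ((ρ σ - ρ σ⁻¹) v) v = 0 := by
  have hadj : ∀ v w, B (ρ σ⁻¹ v) w = B v (ρ σ w) := by
    intro v w
    rw [← hinv σ (ρ σ⁻¹ v) w]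
    have h2 : ρ σ (ρ σ⁻¹ v) = v :=
      congrArg (fun S : V →ₗ[ℚ] V => S v) (rho_mul_inv ρ σ)
    rw [h2]
  rw [LinearMap.sub_apply, map_sub, LinearMap.sub_apply, hadj, hsym v (ρ σ v), sub_self]

include hpos hinv hsym hV in
/-- `a` is a combination of `b` and the identity -/
lemma comb {a b : Γ} (ha : a ∈ AA ρ) (hb : b ∈ AA ρ)
    (hK : ρ b - ρ b⁻¹ ≠ 0) : ∃ l : ℚ,
    (2 : ℚ) • ρ a = LinearMap.trace ℚ V (ρ a) • (1 : V →ₗ[ℚ] V)
      + l • ((2 : ℚ) • ρ b - LinearMap.trace ℚ V (ρ b) • 1) ∧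
    LinearMap.trace ℚ V (ρ a) ^ 2 - 4
      = l ^ 2 * (LinearMap.trace ℚ V (ρ b) ^ 2 - 4) := by
  obtain ⟨l, hl⟩ := skew_prop B hV (fun v hv => by
      by_contra h
      exact absurd hv (hpos v h).ne') _ _ (KK_skew ρ B hsym hinv b) (KK_skew ρ B hsym hinv a) hK
  obtain ⟨a1, -, -, -, -, a6⟩ := iso_trace B hV hpos (ρ a) (ρ a⁻¹)
    (rho_mul_inv ρ a) (rho_inv_mul ρ a) (hinv a) hsym ha
  obtain ⟨b1, -, -, -, -, b6⟩ := iso_trace B hV hpos (ρ b) (ρ b⁻¹)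
    (rho_mul_inv ρ b) (rho_inv_mul ρ b) (hinv b) hsym hb
  refine ⟨l, ?_, ?_⟩
  · have e1 : ρ a⁻¹ = LinearMap.trace ℚ V (ρ a) • (1 : V →ₗ[ℚ] V) - ρ a := by
      rw [← a1]; abel
    have e2 : ρ b⁻¹ = LinearMap.trace ℚ V (ρ b) • (1 : V →ₗ[ℚ] V) - ρ b := by
      rw [← b1]; abel
    rw [e1, e2] at hl
    have h3 : (2 : ℚ) • ρ b - LinearMap.trace ℚ V (ρ b) • (1 : V →ₗ[ℚ] V)
        = ρ b - (LinearMap.trace ℚ V (ρ b) • (1 : V →ₗ[ℚ] V) - ρ b) := by
      rw [two_smul]; abel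
    rw [h3, ← hl, two_smul]
    abel
  · apply smul_one_inj hV
    rw [← a6, hl, mul_smul, ← b6]
    simp only [smul_mul_assoc, mul_smul_comm, smul_smul, sq]

include hpos hinv hsym hV in
lemma comm_AA {a b : Γ} (ha : a ∈ AA ρ) (hb : b ∈ AA ρ) :
    ρ a * ρ b = ρ b * ρ a := by
  by_cases hK : ρ b - ρ b⁻¹ = 0
  · obtain ⟨b1, -, -, -, -, -⟩ := iso_trace B hV hpos (ρ b) (ρ b⁻¹)
      (rho_mul_inv ρ b) (rho_inv_mul ρ b) (hinv b) hsym hb
    rw [← sub_eq_zero.mp hK, ← two_smul ℚ] at b1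
    have h3 : ρ b = ((1 / 2 : ℚ) * LinearMap.trace ℚ V (ρ b)) • (1 : V →ₗ[ℚ] V) := by
      rw [mul_smul, ← b1, smul_smul]
      norm_num
    rw [h3, mul_smul_comm, smul_mul_assoc, mul_one, one_mul]
  · obtain ⟨l, hl, -⟩ := comb ρ B hV hpos hsym hinv ha hb hK
    have h3 : ρ a = (1 / 2 : ℚ) • (LinearMap.trace ℚ V (ρ a) • (1 : V →ₗ[ℚ] V)
      + l • ((2 : ℚ) • ρ b - LinearMap.trace ℚ V (ρ b) • 1)) := by
      rw [← hl, smul_smul]
      norm_num
    rw [h3]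
    simp only [smul_mul_assoc, mul_smul_comm, add_mul, mul_add, sub_mul, mul_sub, one_mul, mul_one]

include hpos hinv hsym hV in
lemma scalar_of {a : Γ} (ha : a ∈ AA ρ) (hK : ρ a - ρ a⁻¹ = 0) : ρ a = 1 ∨ ρ a = -1 := by
  obtain ⟨-, -, -, a4, a5, a6⟩ := iso_trace B hV hpos (ρ a) (ρ a⁻¹)
    (rho_mul_inv ρ a) (rho_inv_mul ρ a) (hinv a) hsym ha
  rw [hK, zero_mul] at a6
  have h1 : LinearMap.trace ℚ V (ρ a) ^ 2 - 4 = 0 := by
    apply smul_one_inj hV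
    rw [← a6, zero_smul]
  have h2 : (LinearMap.trace ℚ V (ρ a) - 2) * (LinearMap.trace ℚ V (ρ a) + 2) = 0 := by
    linarith
  rcases mul_eq_zero.mp h2 with h | h
  · exact Or.inl (a4 (by linarith))
  · exact Or.inr (a5 (by linarith))

include hpos hinv hsym hV in
/-- trace zero -/
lemma gen_four {b : Γ} (hb : b ∈ AA ρ) (hK : ρ b - ρ b⁻¹ ≠ 0)
    (ht : LinearMap.trace ℚ V (ρ b) = 0) :
    ρ b ^ 2 = -1 ∧ ∀ a ∈ AA ρ, ∃ n : ℕ, ρ a = ρ b ^ n := by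
  have hsq : ρ b ^ 2 = -1 := by
    have h3 := ch_two hV (ρ b)
    rw [ht, zero_smul, zero_sub, (mem_AA ρ b).mp hb, one_smul] at h3
    rw [sq]
    exact h3
  refine ⟨hsq, ?_⟩
  intro a ha
  obtain ⟨l, hl, hl2⟩ := comb ρ B hV hpos hsym hinv ha hb hK
  obtain ⟨-, -, -, a4, a5, -⟩ := iso_trace B hV hpos (ρ a) (ρ a⁻¹)
    (rho_mul_inv ρ a) (rho_inv_mul ρ a) (hinv a) hsym ha
  rw [ht] at hl hl2
  have half : ∀ S : V →ₗ[ℚ] V, (2 : ℚ) • ρ a = (2 : ℚ) • S → ρ a = S := by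
    intro S hS
    have h1 := congrArg (fun t => (1 / 2 : ℚ) • t) hS
    simp only [smul_smul] at h1
    norm_num at h1
    exact h1
  rcases trace_cases ρ B hV hpos hsym hinv a ha with h | h | h | h | h
  · exact ⟨0, by rw [pow_zero]; exact a4 h⟩
  · exfalso
    rw [h] at hl2
    exact not_sq_three (2 * l) (by linarith)
  · rw [h] at hl hl2
    have h5 : l ^ 2 = 1 := by linarith
    rw [zero_smul, zero_add, sub_zero] at hl
    rcases sq_one_cases h5 with h6 | h6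
    · refine ⟨1, half _ ?_⟩
      rw [hl, h6, one_smul, pow_one]
    · refine ⟨3, half _ ?_⟩
      have h7 : ρ b ^ 3 = -ρ b := by
        have : ρ b ^ 3 = ρ b ^ 2 * ρ b := pow_succ _ _
        rw [this, hsq, neg_one_mul]
      rw [hl, h6, h7]
      module
  · exfalso
    rw [h] at hl2
    exact not_sq_three (2 * l) (by linarith)
  · exact ⟨2, by rw [hsq]; exact a5 h⟩

include hpos hinv hsym hV in
/-- trace one -/
lemma gen_six {b : Γ} (hb : b ∈ AA ρ) (hK : ρ b - ρ b⁻¹ ≠ 0)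
    (ht : LinearMap.trace ℚ V (ρ b) = 1) :
    ρ b ^ 3 = -1 ∧ ρ b ^ 2 ≠ 1 ∧ ∀ a ∈ AA ρ, ∃ n : ℕ, ρ a = ρ b ^ n := by
  have hsq : ρ b ^ 2 = ρ b - 1 := by
    have h3 := ch_two hV (ρ b)
    rw [ht, one_smul, (mem_AA ρ b).mp hb, one_smul] at h3
    rw [sq]
    exact h3
  have hcub : ρ b ^ 3 = -1 := by
    have : ρ b ^ 3 = ρ b ^ 2 * ρ b := pow_succ _ _
    rw [this, hsq, sub_mul, one_mul, ← sq, hsq]
    abel
  have hsq1 : ρ b ^ 2 ≠ 1 := by
    intro h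
    have h3 : ρ b ^ 3 = ρ b := by
      have : ρ b ^ 3 = ρ b ^ 2 * ρ b := pow_succ _ _
      rw [this, h, one_mul]
    have h4 : ρ b = -1 := by rw [← h3, hcub]
    rw [h4] at hsq
    have h5 : (1 : ℚ) • (1 : V →ₗ[ℚ] V) = (-2 : ℚ) • 1 := by
      have h6 : ((-1 : V →ₗ[ℚ] V)) ^ 2 = 1 := by norm_num
      rw [h6] at hsq
      rw [one_smul]
      refine hsq.trans ?_
      module
    have h6 := smul_one_inj hV h5
    norm_num at h6
  refine ⟨hcub, hsq1, ?_⟩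
  intro a ha
  obtain ⟨l, hl, hl2⟩ := comb ρ B hV hpos hsym hinv ha hb hK
  obtain ⟨-, -, -, a4, a5, -⟩ := iso_trace B hV hpos (ρ a) (ρ a⁻¹)
    (rho_mul_inv ρ a) (rho_inv_mul ρ a) (hinv a) hsym ha
  rw [ht] at hl hl2
  have half : ∀ S : V →ₗ[ℚ] V, (2 : ℚ) • ρ a = (2 : ℚ) • S → ρ a = S := by
    intro S hS
    have h1 := congrArg (fun t => (1 / 2 : ℚ) • t) hS
    simp only [smul_smul] at h1
    norm_num at h1
    exact h1
  have h4 : ρ b ^ 4 = -ρ b := by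
    have : ρ b ^ 4 = ρ b ^ 3 * ρ b := pow_succ _ _
    rw [this, hcub, neg_one_mul]
  have h5' : ρ b ^ 5 = 1 - ρ b := by
    have : ρ b ^ 5 = ρ b ^ 3 * ρ b ^ 2 := by rw [← pow_add]
    rw [this, hcub, hsq, neg_one_mul, neg_sub]
  rcases trace_cases ρ B hV hpos hsym hinv a ha with h | h | h | h | h
  · exact ⟨0, by rw [pow_zero]; exact a4 h⟩
  · rw [h] at hl hl2
    have h5 : l ^ 2 = 1 := by linarith
    rcases sq_one_cases h5 with h6 | h6
    · refine ⟨1, half _ ?_⟩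
      rw [hl, h6, pow_one]
      module
    · refine ⟨5, half _ ?_⟩
      rw [hl, h6, h5']
      module
  · exfalso
    rw [h] at hl2
    exact not_sq_three (3 / 2 * l) (by linarith)
  · rw [h] at hl hl2
    have h5 : l ^ 2 = 1 := by linarith
    rcases sq_one_cases h5 with h6 | h6
    · refine ⟨2, half _ ?_⟩
      rw [hl, h6, hsq]
      module
    · refine ⟨4, half _ ?_⟩
      rw [hl, h6, h4]
      module
  · exact ⟨3, by rw [hcub]; exact a5 h⟩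

include hpos hinv hsym hV in
/-- the group of the elements of determinant one is cyclic of order four or six -/
theorem gen_AA (c : Γ) (hc : ρ c = -1) (hex : ∃ b ∈ AA ρ, ρ b - ρ b⁻¹ ≠ 0) :
    ∃ b ∈ AA ρ, (ρ b ^ 2 = -1 ∨ (ρ b ^ 3 = -1 ∧ ρ b ^ 2 ≠ 1)) ∧
      ∀ a ∈ AA ρ, ∃ n : ℕ, ρ a = ρ b ^ n := by
  obtain ⟨b, hb, hK⟩ := hex
  have hcA : c ∈ AA ρ := by
    rw [mem_AA, hc]
    exact det_neg_one hV
  obtain ⟨-, -, -, b4, b5, -⟩ := iso_trace B hV hpos (ρ b) (ρ b⁻¹)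
    (rho_mul_inv ρ b) (rho_inv_mul ρ b) (hinv b) hsym hb
  have hinv1 : ρ b * ρ b⁻¹ = 1 := rho_mul_inv ρ b
  rcases trace_cases ρ B hV hpos hsym hinv b hb with h | h | h | h | h
  · exfalso
    apply hK
    have h1 := b4 h
    rw [h1, one_mul] at hinv1
    rw [h1, hinv1, sub_self]
  · obtain ⟨h1, h2, h3⟩ := gen_six ρ B hV hpos hsym hinv hb hK h
    exact ⟨b, hb, Or.inr ⟨h1, h2⟩, h3⟩
  · obtain ⟨h1, h3⟩ := gen_four ρ B hV hpos hsym hinv hb hK h
    exact ⟨b, hb, Or.inl h1, h3⟩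
  · have hcb : ρ (c * b) = - ρ b := by rw [map_mul, hc, neg_one_mul]
    have hcb' : ρ (c * b)⁻¹ = - ρ b⁻¹ := by
      have h1 : ρ (c * b) * ρ (c * b)⁻¹ = 1 := rho_mul_inv ρ _
      rw [hcb] at h1
      calc ρ (c * b)⁻¹ = (ρ b⁻¹ * ρ b) * ρ (c * b)⁻¹ := by rw [rho_inv_mul, one_mul]
        _ = - (ρ b⁻¹ * (-ρ b * ρ (c * b)⁻¹)) := by rw [neg_mul, mul_neg, neg_neg, mul_assoc]
        _ = - ρ b⁻¹ := by rw [h1, mul_one]
    have hcbA : c * b ∈ AA ρ := (AA ρ).mul_mem hcA hb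
    have hKcb : ρ (c * b) - ρ (c * b)⁻¹ ≠ 0 := by
      rw [hcb, hcb']
      intro h0
      apply hK
      have h1 : -ρ b - -ρ b⁻¹ = -(ρ b - ρ b⁻¹) := by abel
      rw [h1, neg_eq_zero] at h0
      exact h0
    have htr : LinearMap.trace ℚ V (ρ (c * b)) = 1 := by
      rw [hcb, map_neg, h, neg_neg]
    obtain ⟨h1, h2, h3⟩ := gen_six ρ B hV hpos hsym hinv hcbA hKcb htr
    exact ⟨c * b, hcbA, Or.inr ⟨h1, h2⟩, h3⟩
  · exfalso
    apply hK
    have h1 := b5 h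
    rw [h1, neg_one_mul] at hinv1
    have h2 : ρ b⁻¹ = -1 := by rw [← hinv1, neg_neg]
    rw [h1, h2, sub_self]

include hpos hinv hsym hV in
/-- if the operators commute and there is no stable line, then all determinants are one -/
theorem AA_eq_top (hcomm : ∀ σ τ : Γ, ρ σ * ρ τ = ρ τ * ρ σ)
    (hirr : ∀ W : Submodule ℚ V, (∀ σ, ∀ w ∈ W, ρ σ w ∈ W) → W = ⊥ ∨ W = ⊤) : AA ρ = ⊤ := by
  rw [eq_top_iff]
  intro σ _
  rw [mem_AA]
  rcases det_pm ρ σ with h | h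
  · exact h
  exfalso
  have hT2 := iso_neg B hV hpos (ρ σ) (ρ σ⁻¹) (rho_mul_inv ρ σ) (hinv σ) hsym h
  let W : Submodule ℚ V := LinearMap.ker (ρ σ - 1)
  have hW : ∀ w, w ∈ W ↔ ρ σ w = w := by
    intro w
    show w ∈ LinearMap.ker (ρ σ - 1) ↔ _
    rw [LinearMap.mem_ker, LinearMap.sub_apply, Module.End.one_apply, sub_eq_zero]
  rcases hirr W (fun τ w hw => by
    rw [hW] at hw ⊢
    have h1 : ρ σ (ρ τ w) = ρ τ (ρ σ w) := congrArg (fun t : V →ₗ[ℚ] V => t w) (hcomm σ τ)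
    rw [h1, hw]) with h1 | h1
  · have h2 : ρ σ = -1 := by
      apply LinearMap.ext
      intro w
      have h3 : ρ σ w + w ∈ W := by
        rw [hW, map_add]
        have h4 : ρ σ (ρ σ w) = w := congrArg (fun t : V →ₗ[ℚ] V => t w) hT2
        rw [h4, add_comm]
      rw [h1, Submodule.mem_bot] at h3
      exact eq_neg_of_add_eq_zero_left h3
    rw [h2, det_neg_one hV] at h
    norm_num at h
  · have h2 : ρ σ = 1 := by
      apply LinearMap.ext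
      intro w
      exact (hW w).mp (by rw [h1]; exact Submodule.mem_top)
    rw [h2, map_one] at h
    norm_num at h

include hpos hinv hsym hV in
/-- some element of determinant one is not a scalar -/
theorem exists_nonscalar
    (hirr : ∀ W : Submodule ℚ V, (∀ σ, ∀ w ∈ W, ρ σ w ∈ W) → W = ⊥ ∨ W = ⊤) :
    ∃ b ∈ AA ρ, ρ b - ρ b⁻¹ ≠ 0 := by
  by_contra hcon
  push Not at hcon
  have hsc : ∀ a ∈ AA ρ, ρ a = 1 ∨ ρ a = -1 := fun a ha =>
    scalar_of ρ B hV hpos hsym hinv ha (hcon a ha)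
  have hcomm : ∀ σ τ : Γ, ρ σ * ρ τ = ρ τ * ρ σ := by
    intro σ τ
    by_cases hσ : σ ∈ AA ρ
    · rcases hsc σ hσ with h | h
      · rw [h, one_mul, mul_one]
      · rw [h, neg_one_mul, mul_neg_one]
    · by_cases hτ : τ ∈ AA ρ
      · rcases hsc τ hτ with h | h
        · rw [h, one_mul, mul_one]
        · rw [h, neg_one_mul, mul_neg_one]
      · have h1 : LinearMap.det (ρ σ) = -1 := (det_pm ρ σ).resolve_left hσ
        have h2 : LinearMap.det (ρ τ) = -1 := (det_pm ρ τ).resolve_left hτ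
        have h3 : σ * τ ∈ AA ρ := by
          rw [mem_AA, map_mul, map_mul, h1, h2]
          norm_num
        have key : ∀ e : V →ₗ[ℚ] V, (e = 1 ∨ e = -1) → ρ σ * ρ τ = e → ρ τ * ρ σ = e := by
          intro e he h4
          have h5 : ρ τ = ρ σ⁻¹ * e := by
            rw [← h4, ← mul_assoc, rho_inv_mul, one_mul]
          rw [h5]
          rcases he with he | he
          · rw [he, mul_one, rho_inv_mul]
          · rw [he, mul_neg_one, neg_mul, rho_inv_mul]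
        have h4 := hsc _ h3
        rw [map_mul] at h4
        exact (key _ h4 rfl).symm
  have htop := AA_eq_top ρ B hV hpos hsym hinv hcomm hirr
  have hnt : Nontrivial V := Module.nontrivial_of_finrank_pos (R := ℚ) (by omega)
  obtain ⟨v, hv⟩ := exists_ne (0 : V)
  rcases hirr (Submodule.span ℚ {v}) (fun σ w hw => by
    rcases hsc σ (by rw [htop]; exact Subgroup.mem_top σ) with h | h
    · rw [h]
      exact hw
    · rw [h]
      exact Submodule.neg_mem _ hw) with h1 | h1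
  · rw [Submodule.span_singleton_eq_bot] at h1
    exact hv h1
  · have h2 := finrank_span_singleton (K := ℚ) hv
    rw [h1, finrank_top, hV] at h2
    norm_num at h2

end

end Pool.Agent.Lib.MP_938ce2_ag_u5
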