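import Mathlib
import Pool.Agent.Lib.MP_938ce2_ag_u3.RegMod
import Pool.Agent.Lib.MP_938ce2_ag_u3.Triv
import Pool.Agent.Lib.MP_938ce2_ag_u3.Main3
import Pool.Agent.Lib.MP_938ce2_ag_u5.Abel
import Pool.Agent.Lib.MP_938ce2_ag_u5.PlaneRep

/-!
Row Plane: the simple odd modules of dimension two.
-/

set_option autoImplicit false
set_option linter.unusedSectionVars false

namespace Pool.Agent.Lib.MP_938ce2_ag_u5

open Finset Module MonoidAlgebra
open Pool.Agent.Lib.MP_938ce2_ag_h67 (sg VV ev mkV Orb red kerM actL actL_mul actL_apply actL_one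
  actL_pow ev_single ev_ext ev_add ev_smul finrank_range_add_le)
open Pool.Agent.Lib.MP_938ce2_ag_h60 (CMType)
open Pool.Agent.Lib.MP_938ce2_ag_u2 (Act OddM badC mem_badC dM dE dH index_eq index_two c_free
  mem_kerM_of_orb eq_one_of_det)
open Pool.Agent.Lib.MP_938ce2_ag_u2.ThreeCAux (mem_ker_actH actL_c actH rho rho_mk rho_inj)

variable {G X : Type} [Group G] [Fintype G] [MulAction G X] [Fintype X] [DecidableEq X] {c : G}
  {g : ℕ} [MulAction.IsPretransitive G X]

section Form

variable (M : Submodule (MonoidAlgebra ℚ G) (VV ℚ G X))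

/-- the standard form -/
noncomputable def BF : M →ₗ[ℚ] M →ₗ[ℚ] ℚ :=
  LinearMap.mk₂ ℚ (fun v w => ∑ x, ev (v : VV ℚ G X) x * ev (w : VV ℚ G X) x)
    (fun v v' w => by
      rw [← Finset.sum_add_distrib]
      exact Finset.sum_congr rfl fun x _ => add_mul _ _ _)
    (fun a v w => by
      rw [smul_eq_mul, Finset.mul_sum]
      exact Finset.sum_congr rfl fun x _ => mul_assoc _ _ _)
    (fun v w w' => by
      rw [← Finset.sum_add_distrib]
      exact Finset.sum_congr rfl fun x _ => mul_add _ _ _)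
    (fun a v w => by
      rw [smul_eq_mul, Finset.mul_sum]
      exact Finset.sum_congr rfl fun x _ => mul_left_comm _ _ _)

lemma BF_apply (v w : M) : BF M v w = ∑ x, ev (v : VV ℚ G X) x * ev (w : VV ℚ G X) x := rfl

lemma BF_symm (v w : M) : BF M v w = BF M w v := by
  rw [BF_apply, BF_apply]
  exact Finset.sum_congr rfl fun x _ => mul_comm _ _

lemma BF_pos (v : M) (hv : v ≠ 0) : 0 < BF M v v := by
  rw [BF_apply]
  obtain ⟨x, hx⟩ := Pool.Agent.Lib.MP_938ce2_ag_u3.TrivAux.exists_ev_ne M hv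
  exact Finset.sum_pos' (fun x _ => mul_self_nonneg _) ⟨x, Finset.mem_univ _, mul_self_pos.mpr hx⟩

lemma BF_inv (σ : G) (v w : M) : BF M (actH M σ v) (actH M σ w) = BF M v w := by
  rw [BF_apply, BF_apply]
  have h1 : ∀ (u : M) (x : X), ev ((actH M σ u : M) : VV ℚ G X) x = ev (u : VV ℚ G X) (σ⁻¹ • x) := by
    intro u x
    show ev (MonoidAlgebra.single σ (1 : ℚ) • (u : VV ℚ G X)) x = _
    rw [ev_single, one_mul]
  simp_rw [h1]
  exact Equiv.sum_comp (MulAction.toPerm σ⁻¹)
    (fun x => ev (v : VV ℚ G X) x * ev (w : VV ℚ G X) x)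

/-- stable subspaces -/
lemma irr_of_simple (hs : IsSimpleModule (MonoidAlgebra ℚ G) M) (W : Submodule ℚ M)
    (hW : ∀ σ, ∀ w ∈ W, actH M σ w ∈ W) : W = ⊥ ∨ W = ⊤ := by
  let S : Submodule (MonoidAlgebra ℚ G) M :=
    { carrier := W
      zero_mem' := W.zero_mem
      add_mem' := fun h h' => W.add_mem h h'
      smul_mem' := by
        intro r
        induction r using MonoidAlgebra.induction_linear with
        | zero =>
          intro w _
          rw [zero_smul]
          exact W.zero_mem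
        | add a b ha hb =>
          intro w hw
          rw [add_smul]
          exact W.add_mem (ha hw) (hb hw)
        | single σ a =>
          intro w hw
          have h1 : (MonoidAlgebra.single σ a : MonoidAlgebra ℚ G)
              = a • MonoidAlgebra.single σ (1 : ℚ) := by
            rw [MonoidAlgebra.smul_single, smul_eq_mul, mul_one]
          rw [h1, smul_assoc]
          exact W.smul_mem a (hW σ w hw) }
  have hmem : ∀ w, w ∈ S ↔ w ∈ W := fun w => Iff.rfl
  rcases eq_bot_or_eq_top S with h | h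
  · left
    rw [eq_bot_iff]
    intro w hw
    rw [← hmem, h] at hw
    exact hw
  · right
    rw [eq_top_iff]
    intro w _
    rw [← hmem, h]
    exact Submodule.mem_top

lemma ker_le_AA : kerM M ≤ AA (actH M) := by
  intro k hk
  rw [mem_AA]
  have h1 : actH M k = 1 := (mem_ker_actH M k).mpr hk
  rw [h1, map_one]

lemma quot_pow_eq {b d : G} (n : ℕ) :
    (b : G ⧸ kerM M) ^ n = (d : G ⧸ kerM M) ↔ actH M b ^ n = actH M d := by
  constructor
  · intro h
    have h1 := congrArg (rho M) h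
    rw [map_pow] at h1
    exact h1
  · intro h
    apply rho_inj M
    rw [map_pow]
    exact h

lemma quot_pow_one {b : G} (n : ℕ) : (b : G ⧸ kerM M) ^ n = 1 ↔ actH M b ^ n = 1 := by
  rw [← QuotientGroup.mk_one, quot_pow_eq, map_one]

/-- the index of the kernel in the group of elements of determinant one -/
lemma relIndex_eq {b : G} (hb : b ∈ AA (actH M))
    (hgen : ∀ a ∈ AA (actH M), ∃ n : ℕ, actH M a = actH M b ^ n) :
    (kerM M).relIndex (AA (actH M)) = orderOf (b : G ⧸ kerM M) := by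
  let f : AA (actH M) →* G ⧸ kerM M := (QuotientGroup.mk' (kerM M)).comp (AA (actH M)).subtype
  have h1 : f.ker = (kerM M).subgroupOf (AA (actH M)) := by
    ext a
    rw [MonoidHom.mem_ker, Subgroup.mem_subgroupOf]
    exact QuotientGroup.eq_one_iff _
  have h2 : f.range = Subgroup.zpowers (b : G ⧸ kerM M) := by
    apply le_antisymm
    · rintro _ ⟨a, rfl⟩
      obtain ⟨n, hn⟩ := hgen a.1 a.2
      have h3 : f a = (b : G ⧸ kerM M) ^ n := ((quot_pow_eq M n).mpr hn.symm).symm
      rw [h3]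
      exact Subgroup.npow_mem_zpowers _ _
    · rw [Subgroup.zpowers_le]
      exact ⟨⟨b, hb⟩, rfl⟩
  show ((kerM M).subgroupOf (AA (actH M))).index = _
  rw [← h1, Subgroup.index_ker, h2, Nat.card_zpowers]

end Form

section Six

variable (M : Submodule (MonoidAlgebra ℚ G) (VV ℚ G X))

/-- the subgroup of index two -/
theorem exists_two (hA : Act G X c g) (hodd : OddM c M) (hm : 0 < dM M) (h2 : dM M = 2) (x₀ : X)
    (hcomm : ∀ a ∈ AA (actH M), ∀ b ∈ AA (actH M), actH M a * actH M b = actH M b * actH M a)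
    (hst : ∀ τ : G, τ • x₀ = x₀ → τ ∈ AA (actH M) → τ ∈ kerM M)
    (s : G) (hs : s • x₀ = x₀) (hsA : ∀ σ : G, σ ∈ AA (actH M) ∨ s⁻¹ * σ ∈ AA (actH M))
    {b : G} (hb : b ∈ AA (actH M)) (hb3 : actH M b ^ 3 = -1)
    (hgen : ∀ a ∈ AA (actH M), ∃ n : ℕ, actH M a = actH M b ^ n) :
    ∃ K' : Subgroup G, kerM M ≤ K' ∧ Blk G X c 2 K' := by
  have hc1 : actH M c = -1 := actL_c hA M hodd
  have hcA : c ∈ AA (actH M) := by
    rw [mem_AA, hc1]
    exact det_neg_one h2
  -- the subgroup of the elements with trivial cube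
  let C : Subgroup G :=
    { carrier := {a | a ∈ AA (actH M) ∧ a ^ 3 ∈ kerM M}
      mul_mem' := by
        rintro a b ⟨ha, ha3⟩ ⟨hb, hb3⟩
        refine ⟨(AA (actH M)).mul_mem ha hb, ?_⟩
        have h3 : actH M ((a * b) ^ 3) = 1 := by
          have h4 : Commute (actH M a) (actH M b) := hcomm a ha b hb
          rw [map_pow, map_mul, h4.mul_pow, ← map_pow, ← map_pow]
          have h5 : actH M (a ^ 3) = 1 := (mem_ker_actH M _).mpr ha3
          have h6 : actH M (b ^ 3) = 1 := (mem_ker_actH M _).mpr hb3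
          rw [h5, h6, one_mul]
        exact (mem_ker_actH M _).mp h3
      one_mem' := ⟨(AA (actH M)).one_mem, by rw [one_pow]; exact (kerM M).one_mem⟩
      inv_mem' := by
        rintro a ⟨ha, ha3⟩
        refine ⟨(AA (actH M)).inv_mem ha, ?_⟩
        rw [inv_pow]
        exact (kerM M).inv_mem ha3 }
  have hCmem : ∀ a, a ∈ C ↔ a ∈ AA (actH M) ∧ a ^ 3 ∈ kerM M := fun a => Iff.rfl
  have hAn : ∀ a ∈ AA (actH M), ∀ τ : G, τ * a * τ⁻¹ ∈ AA (actH M) := by
    intro a ha τ
    rw [mem_AA] at ha ⊢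
    rw [map_mul, map_mul, map_mul, map_mul, ha, mul_one, ← map_mul, ← map_mul, mul_inv_cancel,
      map_one, map_one]
  have hCn : C.Normal := ⟨fun a ha τ => ⟨hAn a ha.1 τ, by
    rw [conj_pow]
    exact (inferInstance : (kerM M).Normal).conj_mem _ ha.2 τ⟩⟩
  have hKC : kerM M ≤ C := fun k hk => ⟨ker_le_AA M hk, (kerM M).pow_mem hk 3⟩
  have hthree : ∀ a ∈ AA (actH M), a ∈ C ∨ c * a ∈ C := by
    intro a ha
    obtain ⟨n, hn⟩ := hgen a ha
    rcases cube_pm (actH M b) hb3 n with h4 | h4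
    · left
      refine ⟨ha, (mem_ker_actH M _).mp ?_⟩
      show actH M (a ^ 3) = 1
      rw [map_pow, hn, h4]
    · right
      refine ⟨(AA (actH M)).mul_mem hcA ha, (mem_ker_actH M _).mp ?_⟩
      show actH M ((c * a) ^ 3) = 1
      rw [map_pow, map_mul, hc1, hn]
      exact neg_cube _ h4
  let K' : Subgroup G := MulAction.stabilizer G x₀ ⊔ C
  have hmem : ∀ σ, σ ∈ K' ↔ ∃ y ∈ MulAction.stabilizer G x₀, ∃ z ∈ C, y * z = σ := fun σ =>
    Subgroup.mem_sup_of_normal_right
  have hSK : MulAction.stabilizer G x₀ ≤ K' := le_sup_left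
  have hCK : C ≤ K' := le_sup_right
  have hcK : c ∉ K' := by
    intro h
    obtain ⟨y, hy, z, hz, hyz⟩ := (hmem c).mp h
    have hyA : y ∈ AA (actH M) := by
      have h3 : y = c * z⁻¹ := by rw [← hyz]; group
      rw [h3]
      exact (AA (actH M)).mul_mem hcA ((AA (actH M)).inv_mem hz.1)
    have hyK : y ∈ kerM M := hst y (MulAction.mem_stabilizer_iff.mp hy) hyA
    have hcC : c ∈ C := by
      rw [← hyz]
      exact C.mul_mem (hKC hyK) hz
    have h3 : actH M (c ^ 3) = 1 := (mem_ker_actH M _).mpr hcC.2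
    rw [map_pow, hc1] at h3
    rw [neg_one_cube] at h3
    exact neg_one_ne h2 h3
  have hidx : K'.index = 2 := by
    rw [Subgroup.index_eq_two_iff_exists_notMem_and]
    refine ⟨c, hcK, fun σ => ?_⟩
    rw [← hA.comm σ]
    rcases hsA σ with h | h
    · rcases hthree σ h with h3 | h3
      · exact Or.inr (hCK h3)
      · exact Or.inl (hCK h3)
    · rcases hthree _ h with h3 | h3
      · right
        have h4 : σ = s * (s⁻¹ * σ) := by group
        rw [h4]
        exact K'.mul_mem (hSK (MulAction.mem_stabilizer_iff.mpr hs)) (hCK h3)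
      · left
        have h4 : c * σ = s * (c * (s⁻¹ * σ)) := by
          rw [← mul_assoc s c, ← hA.comm s]
          group
        rw [h4]
        exact K'.mul_mem (hSK (MulAction.mem_stabilizer_iff.mpr hs)) (hCK h3)
  have hKn : K'.Normal := Subgroup.normal_of_index_eq_two hidx
  have hstab : ∀ (τ : G) (x : X), τ • x = x → τ ∈ K' := by
    intro τ x hτ
    obtain ⟨σ, rfl⟩ := MulAction.exists_smul_eq G x₀ x
    have h3 : σ⁻¹ * τ * σ ∈ K' := hSK (MulAction.mem_stabilizer_iff.mpr (by
      rw [mul_smul, mul_smul, hτ, inv_smul_smul]))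
    have h4 := hKn.conj_mem _ h3 σ
    have h5 : σ * (σ⁻¹ * τ * σ) * σ⁻¹ = τ := by group
    rwa [h5] at h4
  refine ⟨K', hKC.trans hCK, hKn, ?_, ?_, ?_⟩
  · intro x k hk h
    apply hcK
    have h3 : c⁻¹ * k ∈ K' := hstab _ x (by rw [mul_smul, h, inv_smul_smul])
    have h4 := K'.mul_mem hk (K'.inv_mem h3)
    have h5 : k * (c⁻¹ * k)⁻¹ = c := by group
    rwa [h5] at h4
  · intro σ hσ
    obtain ⟨k, hk, h3⟩ := hσ x₀
    have h4 : k⁻¹ * σ ∈ K' := hstab _ x₀ (by rw [mul_smul, h3, inv_smul_smul])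
    have h5 := K'.mul_mem hk h4
    rwa [mul_inv_cancel_left] at h5
  · rw [Pool.Agent.Lib.MP_938ce2_ag_u3.TrivAux.card_orb K' x₀ (fun τ hτ => hstab τ x₀ hτ), hidx]

end Six

theorem plane (hA : Act G X c g) (hab : AbQ G X)
    (M : Submodule (MonoidAlgebra ℚ G) (VV ℚ G X)) (hs : IsSimpleModule (MonoidAlgebra ℚ G) M)
    (hodd : OddM c M) (h2 : dM M = 2) (he : dE M + dM M - dH M = 2) :
    Blk46 G X c (kerM M) := by
  have hm : 0 < dM M := by omega
  have hfin : Module.Finite ℚ M := Module.Finite.of_injective (M.subtype.restrictScalars ℚ)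
    Subtype.val_injective
  obtain ⟨x₀⟩ : Nonempty X := by
    rw [← Fintype.card_pos_iff, hA.card]
    have := hA.pos
    omega
  have hne : Nonempty X := ⟨x₀⟩
  have hle : dH M ≤ dM M := Pool.Agent.Lib.MP_938ce2_ag_h85d.finrank_hom_le M
  have hdE := Pool.Agent.Lib.MP_938ce2_ag_u3.dE_pos M hs
  have hirr := irr_of_simple M hs
  have hcom : ∀ a ∈ AA (actH M), ∀ b ∈ AA (actH M), actH M a * actH M b = actH M b * actH M a :=
    fun a ha b hb => comm_AA (actH M) (BF M) h2 (BF_pos M) (BF_symm M) (BF_inv M) ha hb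
  have hc1 : actH M c = -1 := actL_c hA M hodd
  obtain ⟨b, hb, hcase, hgen⟩ := gen_AA (actH M) (BF M) h2 (BF_pos M) (BF_symm M) (BF_inv M) c hc1
    (exists_nonscalar (actH M) (BF M) h2 (BF_pos M) (BF_symm M) (BF_inv M) hirr)
  have hrel := relIndex_eq M hb hgen
  have hmul := Subgroup.relIndex_mul_index (ker_le_AA M)
  -- the stabilizer
  obtain ⟨s, hsx, hsA, hst, hidx⟩ : ∃ s : G, s • x₀ = x₀ ∧
      (∀ σ : G, σ ∈ AA (actH M) ∨ s⁻¹ * σ ∈ AA (actH M)) ∧
      (∀ τ : G, τ • x₀ = x₀ → τ ∈ AA (actH M) → τ ∈ kerM M) ∧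
      (kerM M).index = (AA (actH M)).index * Nat.card (Orb (kerM M) X) := by
    rcases Nat.lt_or_ge (dH M) (dM M) with h | h
    · have hH1 : dH M = 1 := by omega
      have hE1 : dE M = 1 := by omega
      have hst : ∀ τ : G, τ • x₀ = x₀ → τ ∈ AA (actH M) → τ ∈ kerM M := by
        intro τ hτ hτA
        have h3 := finrank_range_add_le M τ x₀ hτ
        have h5 : finrank ℚ (M →ₗ[MonoidAlgebra ℚ G] VV ℚ G X) = 1 := hH1
        have h6 : finrank ℚ M = 2 := h2
        have h4 : finrank ℚ (LinearMap.range (actL M τ - 1)) ≤ 1 := by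
          omega
        rw [← mem_ker_actH]
        exact eq_one_of_det (actL M τ) (orderOf τ) (orderOf_pos τ)
          (by rw [← actL_pow, pow_orderOf_eq_one, actL_one]) h4 hτA
      have hex : ∃ s : G, s • x₀ = x₀ ∧ s ∉ kerM M := by
        by_contra hcon
        push Not at hcon
        have := Pool.Agent.Lib.MP_938ce2_ag_u2.ThreeAAux.dM_le_dH M x₀ hcon
        omega
      obtain ⟨s, hsx, hsK⟩ := hex
      have hsA : s ∉ AA (actH M) := fun h3 => hsK (hst s hsx h3)
      have hds : LinearMap.det (actH M s) = -1 := (det_pm (actH M) s).resolve_left hsA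
      have hds' : LinearMap.det (actH M s⁻¹) = -1 := by
        rcases det_pm (actH M) s⁻¹ with h3 | h3
        · exfalso
          apply hsA
          have h4 := (AA (actH M)).inv_mem ((mem_AA (actH M) s⁻¹).mpr h3)
          rwa [inv_inv] at h4
        · exact h3
      refine ⟨s, hsx, ?_, hst, ?_⟩
      · intro σ
        rcases det_pm (actH M) σ with h3 | h3
        · exact Or.inl h3
        · right
          rw [mem_AA, map_mul, map_mul, hds', h3]
          norm_num
      · have hA2 : (AA (actH M)).index = 2 := by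
          rw [Subgroup.index_eq_two_iff_exists_notMem_and]
          refine ⟨s, hsA, fun σ => ?_⟩
          rcases det_pm (actH M) σ with h3 | h3
          · exact Or.inr h3
          · left
            rw [mem_AA, map_mul, map_mul, hds, h3]
            norm_num
        rw [hA2]
        exact index_two hA M hm (by omega)
    · have heq : dH M = dM M := le_antisymm hle h
      have htop : AA (actH M) = ⊤ := AA_eq_top (actH M) (BF M) h2 (BF_pos M) (BF_symm M) (BF_inv M)
        (fun σ τ => actL_comm hA hab M heq σ τ) hirr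
      refine ⟨1, one_smul _ _, fun σ => Or.inl (by rw [htop]; exact Subgroup.mem_top σ), ?_, ?_⟩
      · intro τ hτ _
        exact Pool.Agent.Lib.MP_938ce2_ag_u3.stab_ker hA M heq τ x₀ hτ
      · rw [htop, Subgroup.index_top, one_mul]
        exact index_eq hA M hm heq
  have hAi : 0 < (AA (actH M)).index := Nat.pos_of_ne_zero Subgroup.index_ne_zero_of_finite
  have horb : Nat.card (Orb (kerM M) X) = orderOf (b : G ⧸ kerM M) := by
    rw [hrel, hidx, mul_comm] at hmul
    exact (Nat.eq_of_mul_eq_mul_left hAi hmul).symm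
  have hblk : ∀ n, orderOf (b : G ⧸ kerM M) = n → Blk G X c n (kerM M) := fun n hn =>
    ⟨inferInstance, fun x k hk => c_free hA M hodd hm x k hk,
      fun σ hσ => mem_kerM_of_orb M σ hσ, horb.trans hn⟩
  rcases hcase with h4 | ⟨h6, h6'⟩
  · left
    apply hblk
    have h5 : orderOf (b : G ⧸ kerM M) = 2 ^ (1 + 1) := by
      apply orderOf_eq_prime_pow
      · rw [quot_pow_one, pow_one, h4]
        exact neg_one_ne h2
      · rw [quot_pow_one]
        have h7 : actH M b ^ 2 ^ (1 + 1) = (actH M b ^ 2) ^ 2 := by rw [← pow_mul]; rfl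
        rw [h7, h4]
        exact neg_one_sq'
    exact h5
  · right
    refine ⟨hblk 6 ?_, exists_two M hA hodd hm h2 x₀ hcom hst s hsx hsA hb h6 hgen⟩
    apply orderOf_eq_of_pow_and_pow_div_prime (by norm_num)
    · rw [quot_pow_one]
      have h7 : actH M b ^ 6 = (actH M b ^ 3) ^ 2 := by rw [← pow_mul]
      rw [h7, h6]
      exact neg_one_sq'
    · intro p hp hdvd
      rw [Ne, quot_pow_one]
      have h7 : p = 2 ∨ p = 3 := by
        have h8 : p ∣ 2 * 3 := hdvd
        rcases hp.dvd_mul.mp h8 with h9 | h9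
        · exact Or.inl ((Nat.prime_dvd_prime_iff_eq hp Nat.prime_two).mp h9)
        · exact Or.inr ((Nat.prime_dvd_prime_iff_eq hp Nat.prime_three).mp h9)
      rcases h7 with rfl | rfl
      · show ¬ actH M b ^ 3 = 1
        rw [h6]
        exact neg_one_ne h2
      · exact h6'

end Pool.Agent.Lib.MP_938ce2_ag_u5
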