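import Mathlib

/-!
Row Two, choice of the two primes.
-/

set_option autoImplicit false
set_option linter.unusedSectionVars false

namespace Pool.Agent.Lib.MP_938ce2_ag_u5

open Real

theorem prime_between (x : ℝ) (hx : 1 ≤ x) : ∃ q : ℕ, q.Prime ∧ x ≤ q ∧ (q : ℝ) ≤ 2 * x := by
  have h1 : 1 ≤ ⌊x⌋₊ := by
    rw [Nat.one_le_floor_iff]
    exact hx
  obtain ⟨q, hq, h2, h3⟩ := Nat.exists_prime_lt_and_le_two_mul ⌊x⌋₊ (by omega)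
  refine ⟨q, hq, ?_, ?_⟩
  · exact ((Nat.floor_lt (by linarith)).mp h2).le
  · calc (q : ℝ) ≤ ((2 * ⌊x⌋₊ : ℕ) : ℝ) := by exact_mod_cast h3
      _ = 2 * (⌊x⌋₊ : ℝ) := by push_cast; ring
      _ ≤ 2 * x := by
        have := Nat.floor_le (show 0 ≤ x by linarith)
        linarith

theorem large_pow (a B : ℝ) (ha : 0 < a) : ∀ᶠ g : ℕ in Filter.atTop, B ≤ (g : ℝ) ^ a :=
  ((tendsto_rpow_atTop ha).comp tendsto_natCast_atTop_atTop).eventually_ge_atTop B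

/-- the choice of the two primes -/
theorem choose_primes (m D : ℕ) : ∃ g₀ : ℕ, 1 ≤ g₀ ∧ ∀ g : ℕ, g₀ ≤ g → ∃ q₁ q₂ : ℕ,
    q₁.Prime ∧ q₂.Prime ∧ D < q₂ ∧ 2 < q₂ ∧ q₂ < q₁ ∧
    (g : ℝ) ^ (2 / 5 : ℝ) ≤ q₁ ∧ (q₁ : ℝ) ≤ 2 * (g : ℝ) ^ (2 / 5 : ℝ) ∧
    (g : ℝ) ^ (1 / 4 : ℝ) ≤ q₂ ∧ (q₂ : ℝ) ≤ 2 * (g : ℝ) ^ (1 / 4 : ℝ) ∧
    4 * (g : ℝ) ≤ ((q₁ : ℝ) * q₂) ^ 2 ∧ (m : ℝ) * (q₂ : ℝ) ^ 2 ≤ g ∧
    (q₁ : ℝ) * exp (-((g : ℝ) / (D + 1) / (4 * (q₁ : ℝ) ^ 2))) ≤ 1 := by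
  have e1 := large_pow (1 / 4) (D + 3) (by norm_num)
  have e2 := large_pow (3 / 20) 3 (by norm_num)
  have e3 := large_pow (3 / 10) 4 (by norm_num)
  have e4 := large_pow (1 / 2) (4 * m) (by norm_num)
  have e5 : ∀ᶠ g : ℕ in Filter.atTop,
      2 * ((g : ℝ) ^ (1 / 5 : ℝ)) ^ 2 * exp (-(1 / (16 * (D + 1)) * (g : ℝ) ^ (1 / 5 : ℝ))) ≤ 1 := by
    have h1 : Filter.Tendsto (fun x : ℝ => x ^ 2 * exp (-(1 / (16 * ((D : ℝ) + 1)) * x)))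
        Filter.atTop (nhds 0) := by
      have := tendsto_rpow_mul_exp_neg_mul_atTop_nhds_zero 2 (1 / (16 * ((D : ℝ) + 1)))
        (by positivity)
      refine this.congr' ?_
      filter_upwards [Filter.eventually_ge_atTop 0] with x hx
      rw [← Real.rpow_natCast]
      congr 2
      ring
    have h2 : Filter.Tendsto (fun g : ℕ => (g : ℝ) ^ (1 / 5 : ℝ)) Filter.atTop Filter.atTop :=
      (tendsto_rpow_atTop (by norm_num)).comp tendsto_natCast_atTop_atTop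
    have h3 := (h1.comp h2).eventually_le_const (show (0 : ℝ) < 1 / 2 by norm_num)
    filter_upwards [h3] with g hg
    simp only [Function.comp_apply] at hg
    linarith
  obtain ⟨g₀, hg₀⟩ := Filter.eventually_atTop.1
    ((((e1.and e2).and e3).and e4).and (e5.and (Filter.eventually_ge_atTop 1)))
  refine ⟨max g₀ 1, le_max_right _ _, fun g hg => ?_⟩
  obtain ⟨⟨⟨⟨h1, h2⟩, h3⟩, h4⟩, h5, h6⟩ := hg₀ g ((le_max_left _ _).trans hg)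
  have hg0 : (0 : ℝ) < g := by exact_mod_cast h6
  have hg1 : (1 : ℝ) ≤ g := by exact_mod_cast h6
  have hx1 : (1 : ℝ) ≤ (g : ℝ) ^ (2 / 5 : ℝ) := Real.one_le_rpow hg1 (by norm_num)
  have hx2 : (1 : ℝ) ≤ (g : ℝ) ^ (1 / 4 : ℝ) := Real.one_le_rpow hg1 (by norm_num)
  obtain ⟨q₁, hq₁, ha, hb⟩ := prime_between _ hx1
  obtain ⟨q₂, hq₂, hc, hd⟩ := prime_between _ hx2
  have hD : ((D + 3 : ℕ) : ℝ) ≤ q₂ := by
    push_cast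
    linarith
  have hD' : D + 3 ≤ q₂ := by exact_mod_cast hD
  refine ⟨q₁, q₂, hq₁, hq₂, by omega, by omega, ?_, ha, hb, hc, hd, ?_, ?_, ?_⟩
  · have h7 : (g : ℝ) ^ (2 / 5 : ℝ) = (g : ℝ) ^ (1 / 4 : ℝ) * (g : ℝ) ^ (3 / 20 : ℝ) := by
      rw [← Real.rpow_add hg0]
      norm_num
    have h8 : (q₂ : ℝ) < q₁ := by
      have h9 : 3 * (g : ℝ) ^ (1 / 4 : ℝ) ≤ (g : ℝ) ^ (2 / 5 : ℝ) := by
        rw [h7]
        nlinarith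
      linarith
    exact_mod_cast h8
  · have h7 : (g : ℝ) ^ (2 / 5 : ℝ) * (g : ℝ) ^ (1 / 4 : ℝ) ≤ q₁ * q₂ :=
      mul_le_mul ha hc (by linarith) (Nat.cast_nonneg _)
    have h8 : ((g : ℝ) ^ (2 / 5 : ℝ) * (g : ℝ) ^ (1 / 4 : ℝ)) ^ 2 ≤ ((q₁ : ℝ) * q₂) ^ 2 :=
      pow_le_pow_left₀ (by positivity) h7 2
    have h9 : ((g : ℝ) ^ (2 / 5 : ℝ) * (g : ℝ) ^ (1 / 4 : ℝ)) ^ 2
        = g * (g : ℝ) ^ (3 / 10 : ℝ) := by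
      rw [← Real.rpow_add hg0, ← Real.rpow_natCast, ← Real.rpow_mul hg0.le]
      nth_rewrite 2 [← Real.rpow_one (g : ℝ)]
      rw [← Real.rpow_add hg0]
      norm_num
    rw [h9] at h8
    nlinarith
  · have h7 : (q₂ : ℝ) ^ 2 ≤ (2 * (g : ℝ) ^ (1 / 4 : ℝ)) ^ 2 :=
      pow_le_pow_left₀ (Nat.cast_nonneg _) hd 2
    have h8 : (2 * (g : ℝ) ^ (1 / 4 : ℝ)) ^ 2 = 4 * (g : ℝ) ^ (1 / 2 : ℝ) := by
      rw [mul_pow, ← Real.rpow_natCast ((g : ℝ) ^ (1 / 4 : ℝ)), ← Real.rpow_mul hg0.le]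
      norm_num
    have h9 : (g : ℝ) = (g : ℝ) ^ (1 / 2 : ℝ) * (g : ℝ) ^ (1 / 2 : ℝ) := by
      rw [← Real.rpow_add hg0]
      norm_num
    rw [h8] at h7
    have hm : (0 : ℝ) ≤ m := Nat.cast_nonneg _
    calc (m : ℝ) * (q₂ : ℝ) ^ 2 ≤ m * (4 * (g : ℝ) ^ (1 / 2 : ℝ)) :=
          mul_le_mul_of_nonneg_left h7 hm
      _ = (4 * m) * (g : ℝ) ^ (1 / 2 : ℝ) := by ring
      _ ≤ (g : ℝ) ^ (1 / 2 : ℝ) * (g : ℝ) ^ (1 / 2 : ℝ) :=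
          mul_le_mul_of_nonneg_right h4 (by positivity)
      _ = g := h9.symm
  · have hq0 : (0 : ℝ) < q₁ := by linarith
    have h7 : (g : ℝ) ^ (1 / 5 : ℝ) / 16 ≤ (g : ℝ) / (4 * (q₁ : ℝ) ^ 2) := by
      rw [div_le_div_iff₀ (by norm_num) (by positivity)]
      have h8 : (q₁ : ℝ) ^ 2 ≤ (2 * (g : ℝ) ^ (2 / 5 : ℝ)) ^ 2 :=
        pow_le_pow_left₀ hq0.le hb 2
      have h9 : (2 * (g : ℝ) ^ (2 / 5 : ℝ)) ^ 2 = 4 * (g : ℝ) ^ (4 / 5 : ℝ) := by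
        rw [mul_pow, ← Real.rpow_natCast ((g : ℝ) ^ (2 / 5 : ℝ)), ← Real.rpow_mul hg0.le]
        norm_num
      have h10 : (g : ℝ) ^ (1 / 5 : ℝ) * (g : ℝ) ^ (4 / 5 : ℝ) = g := by
        rw [← Real.rpow_add hg0]
        norm_num
      rw [h9] at h8
      have h11 : 0 < (g : ℝ) ^ (1 / 5 : ℝ) := by positivity
      nlinarith
    have h8 : exp (-((g : ℝ) / (D + 1) / (4 * (q₁ : ℝ) ^ 2)))
        ≤ exp (-(1 / (16 * (D + 1)) * (g : ℝ) ^ (1 / 5 : ℝ))) := by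
      apply exp_le_exp.mpr
      rw [neg_le_neg_iff]
      have hD0 : (0 : ℝ) < D + 1 := by positivity
      have h9 : (g : ℝ) / (D + 1) / (4 * (q₁ : ℝ) ^ 2) = (g : ℝ) / (4 * (q₁ : ℝ) ^ 2) / (D + 1) := by
        rw [div_right_comm]
      have h10 : 1 / (16 * ((D : ℝ) + 1)) * (g : ℝ) ^ (1 / 5 : ℝ)
          = (g : ℝ) ^ (1 / 5 : ℝ) / 16 / (D + 1) := by
        field_simp
      rw [h9, h10]
      exact div_le_div_of_nonneg_right h7 hD0.le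
    have h9 : (2 : ℝ) * (g : ℝ) ^ (2 / 5 : ℝ) = 2 * ((g : ℝ) ^ (1 / 5 : ℝ)) ^ 2 := by
      rw [← Real.rpow_natCast ((g : ℝ) ^ (1 / 5 : ℝ)), ← Real.rpow_mul hg0.le]
      norm_num
    rw [h9] at hb
    calc (q₁ : ℝ) * exp (-((g : ℝ) / (D + 1) / (4 * (q₁ : ℝ) ^ 2)))
        ≤ (2 * ((g : ℝ) ^ (1 / 5 : ℝ)) ^ 2)
          * exp (-(1 / (16 * (D + 1)) * (g : ℝ) ^ (1 / 5 : ℝ))) :=
          mul_le_mul hb h8 (exp_pos _).le (by positivity)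
      _ ≤ 1 := h5

end Pool.Agent.Lib.MP_938ce2_ag_u5
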