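import Mathlib

/-!
Row Two, analytic part: products of cosines for two primes.
-/

set_option autoImplicit false
set_option linter.unusedSectionVars false

namespace Pool.Agent.Lib.MP_938ce2_ag_u5

open Finset Real

/-- a cosine away from its maxima -/
theorem abs_cos_le_of_dist (θ d : ℝ) (hd : 0 ≤ d) (h : ∀ k : ℤ, d ≤ |θ - k|) :
    |cos (π * θ)| ≤ exp (-(2 * d ^ 2)) := by
  set k := round θ with hk
  set t := θ - k with ht
  have h1 : |t| ≤ 1 / 2 := by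
    rw [ht, hk]
    exact abs_sub_round θ
  have h2 : d ≤ |t| := h k
  have h3 : |cos (π * θ)| = |cos (π * |t|)| := by
    have h4 : π * θ = π * t + k * π := by rw [ht]; ring
    rw [h4, Real.cos_add_int_mul_pi, abs_mul, abs_zpow, abs_neg, abs_one, one_zpow, one_mul]
    rcases abs_cases t with ⟨h5, -⟩ | ⟨h5, -⟩
    · rw [h5]
    · rw [h5, mul_neg, Real.cos_neg]
  have h4 : 2 * |t| ≤ sin (π * |t|) := by
    have h5 := Real.mul_le_sin (x := π * |t|) (by positivity) (by nlinarith [Real.pi_pos])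
    have h6 : 2 / π * (π * |t|) = 2 * |t| := by field_simp
    rwa [h6] at h5
  have h5 : |cos (π * |t|)| ^ 2 ≤ exp (-(2 * d ^ 2)) ^ 2 := by
    rw [sq_abs, Real.cos_sq']
    have h6 : (2 * |t|) ^ 2 ≤ sin (π * |t|) ^ 2 := pow_le_pow_left₀ (by positivity) h4 2
    have h7 : d ^ 2 ≤ |t| ^ 2 := pow_le_pow_left₀ hd h2 2
    have h8 : exp (-(2 * d ^ 2)) ^ 2 = exp (-(4 * d ^ 2)) := by
      rw [← Real.exp_nat_mul]
      congr 1
      push_cast
      ring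
    rw [h8]
    have h9 := Real.add_one_le_exp (-(4 * d ^ 2))
    nlinarith
  rw [h3]
  exact le_of_sq_le_sq h5 (by positivity)

/-- sums of Gaussians -/
theorem gauss_sum (α : ℝ) (h0 : 0 < α) (h1 : α ≤ 1 / 4) (n : ℕ) :
    ∑ k ∈ Finset.range n, exp (-(α * (k : ℝ) ^ 2)) ≤ 3 / √α := by
  set x := √α with hx
  have hx0 : 0 < x := Real.sqrt_pos.mpr h0
  have hx2 : x ^ 2 = α := Real.sq_sqrt h0.le
  have hx1 : x ≤ 1 / 2 := by
    rw [hx, Real.sqrt_le_left (by norm_num)]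
    linarith
  set r := exp (-(2 * x)) with hr
  have hr0 : 0 < r := Real.exp_pos _
  have hr1 : x ≤ 1 - r := by
    have h2 := Real.add_one_le_exp (2 * x)
    have h3 : r = (exp (2 * x))⁻¹ := by rw [hr, Real.exp_neg]
    have h4 : r ≤ (2 * x + 1)⁻¹ := by
      rw [h3]
      exact inv_anti₀ (by positivity) h2
    have h5 : (2 * x + 1)⁻¹ ≤ 1 - x := by
      rw [inv_le_iff_one_le_mul₀ (by positivity)]
      nlinarith
    linarith
  have h2 : ∀ k ∈ Finset.range n, exp (-(α * (k : ℝ) ^ 2)) ≤ exp 1 * r ^ k := by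
    intro k _
    rw [hr, ← Real.exp_nat_mul, ← Real.exp_add]
    apply Real.exp_le_exp.mpr
    have h3 : 0 ≤ (x * k - 1) ^ 2 := sq_nonneg _
    nlinarith
  have h3 : ∑ k ∈ Finset.range n, r ^ k ≤ 1 / x := by
    have h4 := geom_sum_eq (by linarith : r ≠ 1) n
    have h5 : 1 ≤ 1 / x * (1 - r) := by
      rw [one_div, inv_mul_eq_div, le_div_iff₀ hx0, one_mul]
      exact hr1
    have h6 : 0 < r ^ n := by positivity
    rw [h4, div_le_iff_of_neg (by linarith)]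
    nlinarith
  calc ∑ k ∈ Finset.range n, exp (-(α * (k : ℝ) ^ 2)) ≤ ∑ k ∈ Finset.range n, exp 1 * r ^ k :=
        Finset.sum_le_sum h2
    _ = exp 1 * ∑ k ∈ Finset.range n, r ^ k := by rw [Finset.mul_sum]
    _ ≤ exp 1 * (1 / x) := mul_le_mul_of_nonneg_left h3 (Real.exp_pos _).le
    _ ≤ 3 / x := by
        rw [mul_one_div]
        apply div_le_div_of_nonneg_right _ hx0.le
        have := Real.exp_one_lt_d9
        linarith

theorem sum_zmod {q : ℕ} [NeZero q] (F : ℕ → ℝ) :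
    ∑ w : ZMod q, F w.val = ∑ k ∈ Finset.range q, F k := by
  refine Finset.sum_nbij' (fun w => w.val) (fun k => (k : ZMod q)) ?_ ?_ ?_ ?_ ?_
  · intro w _
    exact Finset.mem_range.mpr (ZMod.val_lt w)
  · intro k _
    exact Finset.mem_univ _
  · intro w _
    exact ZMod.natCast_zmod_val w
  · intro k hk
    exact ZMod.val_cast_of_lt (Finset.mem_range.mp hk)
  · intro w _
    rfl

theorem gauss_zmod {q : ℕ} [NeZero q] (α : ℝ) (h0 : 0 < α) (h1 : α ≤ 1 / 4) :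
    ∑ w : ZMod q, exp (-(α * (w.valMinAbs : ℝ) ^ 2)) ≤ 6 / √α := by
  have h2 : ∀ w : ZMod q, exp (-(α * (w.valMinAbs : ℝ) ^ 2))
      ≤ exp (-(α * (w.val : ℝ) ^ 2)) + exp (-(α * ((q - w.val : ℕ) : ℝ) ^ 2)) := by
    intro w
    have h3 : (w.valMinAbs : ℝ) ^ 2 = ((min w.val (q - w.val) : ℕ) : ℝ) ^ 2 := by
      rw [← ZMod.valMinAbs_natAbs_eq_min, ← sq_abs, ← Int.cast_abs, Int.abs_eq_natAbs]
      rfl
    rw [h3]
    rcases min_choice w.val (q - w.val) with h | h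
    · rw [h]
      exact le_add_of_nonneg_right (Real.exp_pos _).le
    · rw [h]
      exact le_add_of_nonneg_left (Real.exp_pos _).le
  have h3 := sum_zmod (q := q) (fun k => exp (-(α * (k : ℝ) ^ 2)) + exp (-(α * ((q - k : ℕ) : ℝ) ^ 2)))
  refine (Finset.sum_le_sum fun w _ => h2 w).trans ?_
  refine (le_of_eq h3).trans ?_
  rw [Finset.sum_add_distrib]
  have h4 := gauss_sum α h0 h1 q
  have h5 : ∑ k ∈ Finset.range q, exp (-(α * ((q - k : ℕ) : ℝ) ^ 2)) ≤ 3 / √α := by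
    have h6 := Finset.sum_range_reflect (fun k => exp (-(α * ((k + 1 : ℕ) : ℝ) ^ 2))) q
    have h7 : ∑ k ∈ Finset.range q, exp (-(α * ((q - k : ℕ) : ℝ) ^ 2))
        = ∑ k ∈ Finset.range q, exp (-(α * ((k + 1 : ℕ) : ℝ) ^ 2)) := by
      rw [← h6]
      refine Finset.sum_congr rfl fun k hk => ?_
      have := Finset.mem_range.mp hk
      have h8 : q - 1 - k + 1 = q - k := by omega
      simp only [h8]
    rw [h7]
    have h9 := gauss_sum α h0 h1 (q + 1)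
    rw [Finset.sum_range_succ'] at h9
    refine le_trans ?_ h9
    exact le_add_of_nonneg_right (Real.exp_pos _).le
  have h6 : 6 / √α = 3 / √α + 3 / √α := by ring
  linarith

section Two

variable {q₁ q₂ : ℕ} [Fact q₁.Prime] [Fact q₂.Prime]

/-- the cosine for two primes -/
noncomputable def cs2 (u : ZMod q₁) (v : ZMod q₂) : ℝ :=
  |cos (2 * π * u.val / q₁ + 2 * π * v.val / q₂)|

/-- the part of the bound which only depends on the second variable -/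
noncomputable def hh (q₁ : ℕ) {q₂ : ℕ} (v : ZMod q₂) : ℝ :=
  exp (-((((2 * q₁ : ℕ) : ZMod q₂) * v).valMinAbs / ((q₁ : ℝ) * q₂)) ^ 2)

lemma cs2_nonneg (u : ZMod q₁) (v : ZMod q₂) : 0 ≤ cs2 u v := abs_nonneg _

lemma hh_pos (v : ZMod q₂) : 0 < hh q₁ v := Real.exp_pos _

lemma cs2_eq (u : ZMod q₁) (v : ZMod q₂) :
    cs2 u v = |cos (π * (2 * u.val / q₁ + 2 * v.val / q₂))| := by
  unfold cs2
  congr 2
  ring

/-- the distance for all `u` -/
theorem cs2_le (u : ZMod q₁) (v : ZMod q₂) :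
    cs2 u v ≤ exp (-(2 * (|((((2 * q₁ : ℕ) : ZMod q₂) * v).valMinAbs : ℝ)| / ((q₁ : ℝ) * q₂)) ^ 2)) := by
  have hq1 : (0 : ℝ) < q₁ := by exact_mod_cast (Fact.out : q₁.Prime).pos
  have hq2 : (0 : ℝ) < q₂ := by exact_mod_cast (Fact.out : q₂.Prime).pos
  rw [cs2_eq]
  apply abs_cos_le_of_dist
  · positivity
  · intro k
    have h1 : (2 * (u.val : ℝ) / q₁ + 2 * v.val / q₂ - k)
        = ((2 * u.val * q₂ + 2 * v.val * q₁ - k * q₁ * q₂ : ℤ) : ℝ) / (q₁ * q₂) := by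
      push_cast
      field_simp
    rw [h1, abs_div, abs_of_pos (mul_pos hq1 hq2)]
    apply div_le_div_of_nonneg_right _ (mul_pos hq1 hq2).le
    rw [← Int.cast_abs, ← Int.cast_abs, Int.cast_le, Int.abs_eq_natAbs, Int.abs_eq_natAbs,
      Nat.cast_le]
    refine ZMod.natAbs_min_of_le_div_two q₂ _ _ ?_ (ZMod.natAbs_valMinAbs_le _)
    rw [ZMod.coe_valMinAbs]
    push_cast
    rw [ZMod.natCast_self, ZMod.natCast_zmod_val]
    ring

/-- all but one of the `u` are far -/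
theorem exists_cs2 (h2 : q₁ ≠ 2) (v : ZMod q₂) : ∃ u₀ : ZMod q₁, ∀ u, u ≠ u₀ →
    cs2 u v ≤ exp (-(2 * (1 / (2 * (q₁ : ℝ))) ^ 2)) := by
  have hq1 : (0 : ℝ) < q₁ := by exact_mod_cast (Fact.out : q₁.Prime).pos
  by_contra hcon
  push Not at hcon
  obtain ⟨u, -, hu⟩ := hcon 0
  obtain ⟨u', hne, hu'⟩ := hcon u
  have key : ∀ w : ZMod q₁, exp (-(2 * (1 / (2 * (q₁ : ℝ))) ^ 2)) < cs2 w v →
      ∃ k : ℤ, |(2 * (w.val : ℝ) / q₁ + 2 * v.val / q₂) - k| < 1 / (2 * q₁) := by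
    intro w hw
    by_contra h
    push Not at h
    rw [cs2_eq] at hw
    exact absurd (abs_cos_le_of_dist _ _ (by positivity) h) (not_le.mpr hw)
  obtain ⟨k, hk⟩ := key u hu
  obtain ⟨k', hk'⟩ := key u' hu'
  apply hne
  have h3 : |(2 * ((u'.val : ℝ) - u.val) - (k' - k) * q₁) / q₁| < 1 / q₁ := by
    have h4 : (2 * ((u'.val : ℝ) - u.val) - (k' - k) * q₁) / q₁
        = ((2 * (u'.val : ℝ) / q₁ + 2 * v.val / q₂) - k')
          - ((2 * (u.val : ℝ) / q₁ + 2 * v.val / q₂) - k) := by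
      field_simp
      ring
    rw [h4]
    refine lt_of_le_of_lt (abs_sub _ _) ?_
    have h5 : 1 / (q₁ : ℝ) = 1 / (2 * q₁) + 1 / (2 * q₁) := by field_simp; norm_num
    rw [h5]
    exact add_lt_add hk' hk
  rw [abs_div, abs_of_pos hq1, div_lt_div_iff_of_pos_right hq1] at h3
  have h4 : ((2 * ((u'.val : ℝ) - u.val) - (k' - k) * q₁))
      = ((2 * ((u'.val : ℤ) - u.val) - (k' - k) * q₁ : ℤ) : ℝ) := by push_cast; ring
  rw [h4, ← Int.cast_abs] at h3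
  have h5 : |2 * ((u'.val : ℤ) - u.val) - (k' - k) * q₁| < 1 := by exact_mod_cast h3
  rw [Int.abs_lt_one_iff] at h5
  have h6 := congrArg (fun t : ℤ => (t : ZMod q₁)) h5
  simp only [Int.cast_sub, Int.cast_mul, Int.cast_natCast, ZMod.natCast_self, mul_zero, sub_zero,
    ZMod.natCast_zmod_val, Int.cast_zero, Int.cast_ofNat] at h6
  rcases mul_eq_zero.mp h6 with h7 | h7
  · exfalso
    have h8 : ((2 : ℕ) : ZMod q₁) = 0 := by exact_mod_cast h7
    rw [ZMod.natCast_eq_zero_iff] at h8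
    exact h2 ((Nat.prime_dvd_prime_iff_eq (Fact.out : q₁.Prime) Nat.prime_two).1 h8)
  · exact sub_eq_zero.mp h7

theorem cs2_le_hh (h2 : q₁ ≠ 2) (v : ZMod q₂) : ∃ u₀ : ZMod q₁, ∀ u,
    cs2 u v ≤ hh q₁ v * (if u = u₀ then 1 else exp (-(1 / (4 * (q₁ : ℝ) ^ 2)))) := by
  obtain ⟨u₀, h0⟩ := exists_cs2 h2 v
  refine ⟨u₀, fun u => ?_⟩
  have h1 := cs2_le u v
  rw [div_pow, sq_abs] at h1
  have h3 : cs2 u v ≤ 1 := Real.abs_cos_le_one _
  have h4 : hh q₁ v ^ 2 = exp (-(2 * ((((((2 * q₁ : ℕ) : ZMod q₂) * v).valMinAbs : ℝ)) ^ 2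
      / ((q₁ : ℝ) * q₂) ^ 2))) := by
    unfold hh
    rw [← Real.exp_nat_mul, div_pow]
    congr 1
    push_cast
    ring
  have h5 := cs2_nonneg u v
  split_ifs with h
  · rw [mul_one]
    refine le_of_sq_le_sq ?_ (hh_pos v).le
    rw [h4]
    refine le_trans ?_ h1
    nlinarith
  · refine le_of_sq_le_sq ?_ (mul_nonneg (hh_pos v).le (Real.exp_pos _).le)
    rw [mul_pow, h4, sq (cs2 u v)]
    have h6 : exp (-(1 / (4 * (q₁ : ℝ) ^ 2))) ^ 2 = exp (-(2 * (1 / (2 * (q₁ : ℝ))) ^ 2)) := by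
      rw [← Real.exp_nat_mul]
      congr 1
      push_cast
      ring
    rw [h6]
    exact mul_le_mul h1 (h0 u h) h5 (Real.exp_pos _).le

/-- the sum over the first variable -/
theorem sum_cs2_rpow (h2 : q₁ ≠ 2) (v : ZMod q₂) (ρ : ℝ) (hρ : 0 ≤ ρ) :
    ∑ u : ZMod q₁, cs2 u v ^ ρ
      ≤ hh q₁ v ^ ρ * (1 + ((q₁ : ℝ) - 1) * exp (-(ρ / (4 * (q₁ : ℝ) ^ 2)))) := by
  classical
  obtain ⟨u₀, h0⟩ := cs2_le_hh h2 v
  have h1 : ∀ u : ZMod q₁, cs2 u v ^ ρ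
      ≤ hh q₁ v ^ ρ * (if u = u₀ then 1 else exp (-(ρ / (4 * (q₁ : ℝ) ^ 2)))) := by
    intro u
    have h3 := Real.rpow_le_rpow (cs2_nonneg u v) (h0 u) hρ
    refine h3.trans (le_of_eq ?_)
    split_ifs with h
    · rw [mul_one, mul_one]
    · rw [Real.mul_rpow (hh_pos v).le (Real.exp_pos _).le, ← Real.exp_mul]
      congr 2
      ring
  refine (Finset.sum_le_sum fun u _ => h1 u).trans (le_of_eq ?_)
  rw [← Finset.mul_sum]
  congr 1
  rw [← Finset.add_sum_erase _ _ (Finset.mem_univ u₀), if_pos rfl]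
  congr 1
  have h3 : ∀ u ∈ Finset.univ.erase u₀, (if u = u₀ then (1 : ℝ) else exp (-(ρ / (4 * (q₁ : ℝ) ^ 2))))
      = exp (-(ρ / (4 * (q₁ : ℝ) ^ 2))) := fun u hu => if_neg (Finset.ne_of_mem_erase hu)
  rw [Finset.sum_congr rfl h3, Finset.sum_const, Finset.card_erase_of_mem (Finset.mem_univ _),
    Finset.card_univ, ZMod.card, nsmul_eq_mul, Nat.cast_sub (Fact.out : q₁.Prime).one_le,
    Nat.cast_one]

/-- the sum over the second variable -/
theorem sum_hh_rpow (h2 : q₂ ≠ 2) (hne : q₁ ≠ q₂) (ρ : ℝ) (hρ : 0 < ρ)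
    (h4 : 4 * ρ ≤ ((q₁ : ℝ) * q₂) ^ 2) :
    ∑ v : ZMod q₂, hh q₁ v ^ ρ ≤ 6 * ((q₁ : ℝ) * q₂) / √ρ := by
  have hq1 : (0 : ℝ) < q₁ := by exact_mod_cast (Fact.out : q₁.Prime).pos
  have hq2 : (0 : ℝ) < q₂ := by exact_mod_cast (Fact.out : q₂.Prime).pos
  have hunit : ((2 * q₁ : ℕ) : ZMod q₂) ≠ 0 := by
    intro h
    rw [ZMod.natCast_eq_zero_iff] at h
    rcases (Fact.out : q₂.Prime).dvd_mul.mp h with h | h
    · exact h2 ((Nat.prime_dvd_prime_iff_eq (Fact.out : q₂.Prime) Nat.prime_two).1 h)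
    · exact hne ((Nat.prime_dvd_prime_iff_eq (Fact.out : q₂.Prime) (Fact.out : q₁.Prime)).1 h).symm
  set α : ℝ := ρ / ((q₁ : ℝ) * q₂) ^ 2 with hα
  have h1 : ∀ v : ZMod q₂, hh q₁ v ^ ρ
      = exp (-(α * ((((2 * q₁ : ℕ) : ZMod q₂) * v).valMinAbs : ℝ) ^ 2)) := by
    intro v
    unfold hh
    rw [← Real.exp_mul]
    congr 1
    rw [hα]
    field_simp
  rw [Finset.sum_congr rfl fun v _ => h1 v]
  have h3 : ∑ v : ZMod q₂, exp (-(α * ((((2 * q₁ : ℕ) : ZMod q₂) * v).valMinAbs : ℝ) ^ 2))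
      = ∑ w : ZMod q₂, exp (-(α * (w.valMinAbs : ℝ) ^ 2)) :=
    Fintype.sum_equiv (Equiv.mulLeft₀ ((2 * q₁ : ℕ) : ZMod q₂) hunit) _ _ fun v => rfl
  rw [h3]
  have h5 := gauss_zmod (q := q₂) α (by positivity) (by
    rw [hα, div_le_iff₀ (by positivity)]
    linarith)
  refine h5.trans (le_of_eq ?_)
  rw [hα, Real.sqrt_div hρ.le, Real.sqrt_sq (by positivity)]
  field_simp

end Two

end Pool.Agent.Lib.MP_938ce2_ag_u5
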