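import Mathlib
import Pool.Agent.Lib.MP_938ce2_ag_h67.Cos
import Pool.Agent.Lib.MP_938ce2_ag_u2.Half
import Pool.Agent.Lib.MP_938ce2_ag_u3.CountCs
import Pool.Agent.Lib.MP_938ce2_ag_u5.TwoNum

/-!
Row Two, codes: the number of sign vectors orthogonal to two codes in different characteristics.
-/

set_option autoImplicit false
set_option linter.unusedSectionVars false

namespace Pool.Agent.Lib.MP_938ce2_ag_u5

open Finset Real Module
open Pool.Agent.Lib.MP_938ce2_ag_h67 (exists_info sum_smul_transitive sg addChar_sum)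

section Code

variable {P : Type} [Group P] [Fintype P] {Ω : Type} [Fintype Ω] [MulAction P Ω]
  [MulAction.IsPretransitive P Ω] {q : ℕ} [Fact q.Prime]

theorem sum_code_gen (h : ZMod q → ℝ) (hh : ∀ t, 0 < h t) (C : Submodule (ZMod q) (Ω → ZMod q))
    (hC : ∀ σ : P, ∀ y ∈ C, (fun x => y (σ • x)) ∈ C)
    (hpos : 0 < finrank (ZMod q) C) [Fintype C] (θ : ℝ) (hθ : 0 < θ) :
    ∑ y : C, ∏ x, h ((y : Ω → ZMod q) x) ^ θ
      ≤ (∑ t : ZMod q, h t ^ (θ * (Fintype.card Ω : ℝ) / finrank (ZMod q) C)) ^ finrank (ZMod q) C := by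
  classical
  obtain ⟨κ, _, a, ha, hcard, hbij⟩ := exists_info C
  set ν := finrank (ZMod q) C with hν
  set g := Fintype.card Ω with hg
  have hνR : (0 : ℝ) < ν := by exact_mod_cast hpos
  have hP : (0 : ℝ) < Fintype.card P := by
    exact_mod_cast Fintype.card_pos
  set ρ : ℝ := θ * (g : ℝ) / ν with hρ
  let l : C → Ω → ℝ := fun y x => log (h ((y : Ω → ZMod q) x))
  have hexp : ∀ y x, exp (l y x) = h ((y : Ω → ZMod q) x) := fun y x => exp_log (hh _)
  have hw : ∀ y : C, (ν : ℝ) * (Fintype.card P * ∑ x, l y x)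
      = g * ∑ σ : P, ∑ i : κ, l y (σ • a i) := by
    intro y
    have h1 : ∀ i : κ, (g : ℝ) * ∑ σ : P, l y (σ • a i) = Fintype.card P * ∑ x, l y x := by
      intro i
      rw [hg, sum_smul_transitive (P := P) (fun x => l y x) (a i)]
    have h2 : (g : ℝ) * ∑ σ : P, ∑ i : κ, l y (σ • a i)
        = ∑ i : κ, (g : ℝ) * ∑ σ : P, l y (σ • a i) := by
      rw [Finset.sum_comm, Finset.mul_sum]
    rw [h2, Finset.sum_congr rfl fun i _ => h1 i, Finset.sum_const, Finset.card_univ, hcard,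
      nsmul_eq_mul]
  have h3 : ∀ y : C, ∏ x, h ((y : Ω → ZMod q) x) ^ θ
      ≤ ∑ σ : P, (Fintype.card P : ℝ)⁻¹ * ∏ i : κ, h ((y : Ω → ZMod q) (σ • a i)) ^ ρ := by
    intro y
    have h4 := convexOn_exp.map_sum_le (t := (univ : Finset P))
      (w := fun _ => (Fintype.card P : ℝ)⁻¹) (p := fun σ => ρ * ∑ i : κ, l y (σ • a i))
      (fun _ _ => by positivity) (by
        rw [Finset.sum_const, Finset.card_univ, nsmul_eq_mul, mul_inv_cancel₀ hP.ne'])
      (fun _ _ => Set.mem_univ _)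
    simp only [smul_eq_mul] at h4
    have h5 : ∏ x, h ((y : Ω → ZMod q) x) ^ θ
        = exp (∑ σ : P, (Fintype.card P : ℝ)⁻¹ * (ρ * ∑ i : κ, l y (σ • a i))) := by
      rw [← Finset.mul_sum, ← Finset.mul_sum]
      have h6 := hw y
      have h7 : ∑ x, l y x * θ
          = (Fintype.card P : ℝ)⁻¹ * (ρ * ∑ σ : P, ∑ i : κ, l y (σ • a i)) := by
        have h8 : ∑ σ : P, ∑ i : κ, l y (σ • a i)
            = (g : ℝ)⁻¹ * ((ν : ℝ) * (Fintype.card P * ∑ x, l y x)) ∨ (g : ℝ) = 0 := by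
          rcases eq_or_ne (g : ℝ) 0 with h | h
          · exact Or.inr h
          · left
            rw [h6]
            field_simp
        rcases h8 with h8 | h8
        · have hg0 : (g : ℝ) ≠ 0 ∨ (g : ℝ) = 0 := (eq_or_ne (g : ℝ) 0).symm
          rcases hg0 with hg0 | hg0
          · rw [h8, hρ, ← Finset.sum_mul]
            field_simp
          · have h9 : ∑ x, l y x * θ = 0 := by
              have h10 : IsEmpty Ω := by
                rw [← Fintype.card_eq_zero_iff]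
                exact_mod_cast hg0
              simp
            rw [h9, hρ, hg0]
            simp
        · have h9 : ∑ x, l y x * θ = 0 := by
            have h10 : IsEmpty Ω := by
              rw [← Fintype.card_eq_zero_iff]
              exact_mod_cast h8
            simp
          rw [h9, hρ, h8]
          simp
      rw [← h7, exp_sum]
      refine Finset.prod_congr rfl fun x _ => ?_
      rw [exp_mul, hexp]
    rw [h5]
    refine h4.trans (le_of_eq (Finset.sum_congr rfl fun σ _ => ?_))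
    congr 1
    rw [Finset.mul_sum, exp_sum]
    refine Finset.prod_congr rfl fun i _ => ?_
    rw [mul_comm, exp_mul, hexp]
  have h8 : ∀ σ : P, ∑ y : C, ∏ i : κ, h ((y : Ω → ZMod q) (σ • a i)) ^ ρ = (∑ t : ZMod q, h t ^ ρ) ^ ν := by
    intro σ
    have hb : Function.Bijective (fun (y : C) (i : κ) => (y : Ω → ZMod q) (σ • a i)) := by
      let T : C → C := fun y => ⟨fun x => (y : Ω → ZMod q) (σ • x), hC σ y y.2⟩
      have hT : Function.Bijective T := by
        refine Function.bijective_iff_has_inverse.mpr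
          ⟨fun y => ⟨fun x => (y : Ω → ZMod q) (σ⁻¹ • x), hC σ⁻¹ y y.2⟩, fun y => ?_, fun y => ?_⟩
        · apply Subtype.ext
          funext x
          show (y : Ω → ZMod q) (σ • σ⁻¹ • x) = _
          rw [smul_inv_smul]
        · apply Subtype.ext
          funext x
          show (y : Ω → ZMod q) (σ⁻¹ • σ • x) = _
          rw [inv_smul_smul]
      exact hbij.comp hT
    have h9 := Function.Bijective.sum_comp hb (fun z : κ → ZMod q => ∏ i, h (z i) ^ ρ)
    rw [h9]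
    have h10 : ∑ z : κ → ZMod q, ∏ i, h (z i) ^ ρ = ∏ _i : κ, (∑ t : ZMod q, h t ^ ρ) := by
      rw [Finset.prod_univ_sum, Fintype.piFinset_univ]
    rw [h10, Finset.prod_const, Finset.card_univ, hcard]
  calc ∑ y : C, ∏ x, h ((y : Ω → ZMod q) x) ^ θ
      ≤ ∑ y : C, ∑ σ : P, (Fintype.card P : ℝ)⁻¹ * ∏ i : κ, h ((y : Ω → ZMod q) (σ • a i)) ^ ρ :=
        Finset.sum_le_sum fun y _ => h3 y
    _ = ∑ σ : P, (Fintype.card P : ℝ)⁻¹ * ∑ y : C, ∏ i : κ, h ((y : Ω → ZMod q) (σ • a i)) ^ ρ := by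
        rw [Finset.sum_comm]
        exact Finset.sum_congr rfl fun σ _ => by rw [Finset.mul_sum]
    _ = (∑ t : ZMod q, h t ^ ρ) ^ ν := by
        rw [Finset.sum_congr rfl fun σ _ => by rw [h8 σ], Finset.sum_const, Finset.card_univ,
          nsmul_eq_mul, ← mul_assoc, mul_inv_cancel₀ hP.ne', one_mul]


end Code

section Fourier

variable {q₁ q₂ : ℕ} [Fact q₁.Prime] [Fact q₂.Prime] {Ω : Type} [Fintype Ω] [DecidableEq Ω]

open ZMod in
lemma std_eq {q : ℕ} [Fact q.Prime] (t : ZMod q) :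
    (stdAddChar t : ℂ) = Complex.exp ((2 * π * t.val / q : ℝ) * Complex.I) := by
  have := toCircle_apply (N := q) t
  rw [stdAddChar_apply, this]
  congr 1
  push_cast
  ring

open ZMod in
lemma std_neg_eq {q : ℕ} [Fact q.Prime] (t : ZMod q) :
    (stdAddChar (-t) : ℂ) = Complex.exp (-((2 * π * t.val / q : ℝ) * Complex.I)) := by
  rw [AddChar.map_neg_eq_inv, std_eq, Complex.exp_neg]

open ZMod in
lemma norm_char_two (u : ZMod q₁) (v : ZMod q₂) :
    ‖(stdAddChar u : ℂ) * stdAddChar v + stdAddChar (-u) * stdAddChar (-v)‖ = 2 * cs2 u v := by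
  rw [std_eq, std_eq, std_neg_eq, std_neg_eq, ← Complex.exp_add, ← Complex.exp_add]
  have h1 : ((2 * π * u.val / q₁ : ℝ) : ℂ) * Complex.I + ((2 * π * v.val / q₂ : ℝ) : ℂ) * Complex.I
      = ((2 * π * u.val / q₁ + 2 * π * v.val / q₂ : ℝ) : ℂ) * Complex.I := by
    push_cast
    ring
  have h2 : -(((2 * π * u.val / q₁ : ℝ) : ℂ) * Complex.I)
      + -(((2 * π * v.val / q₂ : ℝ) : ℂ) * Complex.I)
      = -(((2 * π * u.val / q₁ + 2 * π * v.val / q₂ : ℝ) : ℂ)) * Complex.I := by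
    push_cast
    ring
  rw [h1, h2, ← Complex.two_cos, norm_mul, ← Complex.ofReal_cos, Complex.norm_real]
  simp only [Complex.norm_ofNat, Real.norm_eq_abs]
  rfl

open ZMod in
lemma norm_sum_char_two (y : Ω → ZMod q₁) (z : Ω → ZMod q₂) :
    ‖∑ η : Finset Ω, (stdAddChar (∑ x, (sg η x : ZMod q₁) * y x) : ℂ)
        * stdAddChar (∑ x, (sg η x : ZMod q₂) * z x)‖
      = 2 ^ Fintype.card Ω * ∏ x, cs2 (y x) (z x) := by
  have h1 : ∀ η : Finset Ω, (stdAddChar (∑ x, (sg η x : ZMod q₁) * y x) : ℂ)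
        * stdAddChar (∑ x, (sg η x : ZMod q₂) * z x)
      = (∏ x ∈ η, (stdAddChar (y x) : ℂ) * stdAddChar (z x))
        * ∏ x ∈ univ \ η, ((stdAddChar (-(y x)) : ℂ) * stdAddChar (-(z x))) := by
    intro η
    rw [addChar_sum, addChar_sum, ← Finset.prod_mul_distrib,
      ← Finset.prod_sdiff (Finset.subset_univ η), mul_comm]
    congr 1
    · refine Finset.prod_congr rfl fun x hx => ?_
      simp [sg, hx]
    · refine Finset.prod_congr rfl fun x hx => ?_
      have : x ∉ η := (Finset.mem_sdiff.mp hx).2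
      simp [sg, this]
  have h2 : ∑ η : Finset Ω, (stdAddChar (∑ x, (sg η x : ZMod q₁) * y x) : ℂ)
        * stdAddChar (∑ x, (sg η x : ZMod q₂) * z x)
      = ∏ x, ((stdAddChar (y x) : ℂ) * stdAddChar (z x)
        + stdAddChar (-(y x)) * stdAddChar (-(z x))) := by
    rw [Finset.prod_add, Finset.powerset_univ]
    exact Finset.sum_congr rfl fun η _ => h1 η
  rw [h2, norm_prod]
  simp_rw [norm_char_two]
  rw [Finset.prod_mul_distrib, Finset.prod_const, Finset.card_univ]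

open ZMod Classical in
/-- the sum of the values of the characters -/
lemma sum_char {q : ℕ} [Fact q.Prime] {A : Type} [AddCommGroup A] [Fintype A]
    (φ : A →+ ZMod q) :
    ∑ a, (stdAddChar (φ a) : ℂ) = if (∀ a, φ a = 0) then (Fintype.card A : ℂ) else 0 := by
  let χ : AddChar A ℂ := stdAddChar.compAddMonoidHom φ
  have h1 : ∑ a, χ a = if χ = 0 then (Fintype.card A : ℂ) else 0 := AddChar.sum_eq_ite _
  have h2 : χ = 0 ↔ ∀ a, φ a = 0 := by
    constructor
    · intro h a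
      have h3 : χ a = 1 := by rw [h]; rfl
      have h4 : (stdAddChar (φ a) : ℂ) = stdAddChar (0 : ZMod q) := by
        rw [AddChar.map_zero_eq_one]; exact h3
      exact injective_stdAddChar h4
    · intro h
      ext a
      show (stdAddChar (φ a) : ℂ) = 1
      rw [h a, AddChar.map_zero_eq_one]
  have h3 : ∑ a, (stdAddChar (φ a) : ℂ) = ∑ a, χ a := rfl
  rw [h3, h1]
  by_cases h4 : χ = 0
  · rw [if_pos h4, if_pos (h2.mp h4)]
  · rw [if_neg h4, if_neg (fun h => h4 (h2.mpr h))]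

open ZMod Classical in
theorem card_orth_two {A₁ A₂ : Type} [AddCommGroup A₁] [Fintype A₁] [AddCommGroup A₂] [Fintype A₂]
    (j₁ : A₁ →+ (Ω → ZMod q₁)) (j₂ : A₂ →+ (Ω → ZMod q₂)) :
    ((univ.filter fun η : Finset Ω => (∀ a, ∑ x, (sg η x : ZMod q₁) * j₁ a x = 0) ∧
        ∀ a, ∑ x, (sg η x : ZMod q₂) * j₂ a x = 0).card : ℝ)
        * (Fintype.card A₁ * Fintype.card A₂)
      ≤ 2 ^ Fintype.card Ω * ∑ a₁, ∑ a₂, ∏ x, cs2 (j₁ a₁ x) (j₂ a₂ x) := by
  let φ₁ : Finset Ω → A₁ →+ ZMod q₁ := fun η =>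
    { toFun := fun a => ∑ x, (sg η x : ZMod q₁) * j₁ a x
      map_zero' := by simp
      map_add' := fun a b => by
        simp only [map_add, Pi.add_apply, mul_add, Finset.sum_add_distrib] }
  let φ₂ : Finset Ω → A₂ →+ ZMod q₂ := fun η =>
    { toFun := fun a => ∑ x, (sg η x : ZMod q₂) * j₂ a x
      map_zero' := by simp
      map_add' := fun a b => by
        simp only [map_add, Pi.add_apply, mul_add, Finset.sum_add_distrib] }
  have h5 : ((univ.filter fun η : Finset Ω => (∀ a, ∑ x, (sg η x : ZMod q₁) * j₁ a x = 0) ∧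
        ∀ a, ∑ x, (sg η x : ZMod q₂) * j₂ a x = 0).card : ℂ)
        * (Fintype.card A₁ * Fintype.card A₂)
      = ∑ a₁, ∑ a₂, ∑ η : Finset Ω, (stdAddChar (φ₁ η a₁) : ℂ) * stdAddChar (φ₂ η a₂) := by
    have e1 : ∑ a₁, ∑ a₂, ∑ η : Finset Ω, (stdAddChar (φ₁ η a₁) : ℂ) * stdAddChar (φ₂ η a₂)
        = ∑ η : Finset Ω, (∑ a₁, (stdAddChar (φ₁ η a₁) : ℂ)) * ∑ a₂, (stdAddChar (φ₂ η a₂) : ℂ) := by
      simp_rw [Finset.sum_mul_sum]
      rw [Finset.sum_congr rfl fun a₁ _ => Finset.sum_comm, Finset.sum_comm]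
    rw [e1]
    simp_rw [sum_char]
    have e2 : ∀ η : Finset Ω, ((if (∀ a, φ₁ η a = 0) then (Fintype.card A₁ : ℂ) else 0)
        * if (∀ a, φ₂ η a = 0) then (Fintype.card A₂ : ℂ) else 0)
        = if ((∀ a, φ₁ η a = 0) ∧ ∀ a, φ₂ η a = 0) then
          ((Fintype.card A₁ : ℂ) * Fintype.card A₂) else 0 := by
      intro η
      by_cases h1 : ∀ a, φ₁ η a = 0
      · by_cases h2 : ∀ a, φ₂ η a = 0
        · rw [if_pos h1, if_pos h2, if_pos ⟨h1, h2⟩]
        · rw [if_neg h2, mul_zero]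
          exact (if_neg (fun h => h2 (And.right h))).symm
      · rw [if_neg h1, zero_mul]
        exact (if_neg (fun h => h1 (And.left h))).symm
    rw [Finset.sum_congr rfl fun η _ => e2 η, ← Finset.sum_filter, Finset.sum_const, nsmul_eq_mul]
    rfl
  have h6 : ((univ.filter fun η : Finset Ω => (∀ a, ∑ x, (sg η x : ZMod q₁) * j₁ a x = 0) ∧
        ∀ a, ∑ x, (sg η x : ZMod q₂) * j₂ a x = 0).card : ℝ)
        * (Fintype.card A₁ * Fintype.card A₂)
      = ‖∑ a₁, ∑ a₂, ∑ η : Finset Ω, (stdAddChar (φ₁ η a₁) : ℂ) * stdAddChar (φ₂ η a₂)‖ := by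
    rw [← h5]
    simp
  rw [h6, Finset.mul_sum]
  refine (norm_sum_le _ _).trans (Finset.sum_le_sum fun a₁ _ => ?_)
  rw [Finset.mul_sum]
  refine (norm_sum_le _ _).trans (Finset.sum_le_sum fun a₂ _ => ?_)
  exact (norm_sum_char_two (j₁ a₁) (j₂ a₂)).le

end Fourier

section CM

open Pool.Agent.Lib.MP_938ce2_ag_h60 (CMType)
open Pool.Agent.Lib.MP_938ce2_ag_u2 (Act exists_cm cmExt sum_cmExt card_cm_filter card_cm)

variable {G X : Type} [Group G] [Fintype G] [MulAction G X] [Fintype X] [DecidableEq X] {c : G}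
  {g : ℕ} [MulAction.IsPretransitive G X] {q₁ q₂ : ℕ} [Fact q₁.Prime] [Fact q₂.Prime]

lemma cs2_neg (u : ZMod q₁) (v : ZMod q₂) : cs2 (-u) (-v) = cs2 u v := by
  have h1 := norm_char_two u v
  have h2 := norm_char_two (-u) (-v)
  rw [neg_neg, neg_neg, add_comm] at h2
  linarith

lemma two_ne_zero_of_odd {q : ℕ} [Fact q.Prime] (hq : q ≠ 2) : (2 : ZMod q) ≠ 0 := by
  intro h
  have h3 : ((2 : ℕ) : ZMod q) = 0 := by exact_mod_cast h
  rw [ZMod.natCast_eq_zero_iff] at h3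
  exact hq ((Nat.prime_dvd_prime_iff_eq (Fact.out : q.Prime) Nat.prime_two).1 h3)

open Classical in
theorem card_cm_two (hA : Act G X c g) (h1 : q₁ ≠ 2) (h2 : q₂ ≠ 2) {A₁ A₂ : Type}
    [AddCommGroup A₁] [Fintype A₁] [AddCommGroup A₂] [Fintype A₂]
    (j₁ : A₁ →+ (X → ZMod q₁)) (j₂ : A₂ →+ (X → ZMod q₂))
    (ho₁ : ∀ a x, j₁ a (c • x) = - j₁ a x) (ho₂ : ∀ a x, j₂ a (c • x) = - j₂ a x) :
    ((Finset.univ.filter fun Φ : Finset X => CMType c Φ ∧
        ((∀ a, ∑ x, (sg Φ x : ZMod q₁) * j₁ a x = 0) ∧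
        ∀ a, ∑ x, (sg Φ x : ZMod q₂) * j₂ a x = 0)).card : ℝ)
        * (Fintype.card A₁ * Fintype.card A₂)
      ≤ 2 ^ g * ∑ a₁, ∑ a₂, ∏ x, cs2 (j₁ a₁ x) (j₂ a₂ x) ^ (1 / 2 : ℝ) := by
  obtain ⟨Φ₀, h₀⟩ := exists_cm hA
  have key : ∀ {q : ℕ} [Fact q.Prime] (_ : q ≠ 2) {A : Type} [AddCommGroup A]
      (j : A →+ (X → ZMod q)) (_ : ∀ a x, j a (c • x) = - j a x) (η : Finset {x // x ∈ Φ₀}),
      (∀ a, ∑ x, (sg (cmExt c Φ₀ η) x : ZMod q) * j a x = 0) ↔
        ∀ a, ∑ x : {x // x ∈ Φ₀}, (sg η x : ZMod q) * j a x.1 = 0 := by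
    intro q _ hq A _ j ho η
    refine forall_congr' fun a => ?_
    have h8 := sum_cmExt hA h₀ η (j a) (ho a)
    simp only [zsmul_eq_mul, nsmul_eq_mul] at h8
    have h9 : ∑ x, (sg (cmExt c Φ₀ η) x : ZMod q) * j a x
        = 2 * ∑ x : {x // x ∈ Φ₀}, (sg η x : ZMod q) * j a x.1 := by exact_mod_cast h8
    rw [h9, mul_eq_zero, or_iff_right (two_ne_zero_of_odd hq)]
  let r : ∀ {q : ℕ} {A : Type} [AddCommGroup A] (_ : A →+ (X → ZMod q)),
      A →+ ({x // x ∈ Φ₀} → ZMod q) := fun {q A} _ j =>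
    { toFun := fun a x => j a x.1
      map_zero' := by
        funext x
        rw [map_zero]
        rfl
      map_add' := fun a b => by
        funext x
        rw [map_add]
        rfl }
  have h11 := card_orth_two (r j₁) (r j₂)
  have e1 : (Finset.univ.filter fun Φ : Finset X => CMType c Φ ∧
        ((∀ a, ∑ x, (sg Φ x : ZMod q₁) * j₁ a x = 0) ∧
        ∀ a, ∑ x, (sg Φ x : ZMod q₂) * j₂ a x = 0)).card
      = (univ.filter fun η : Finset {x // x ∈ Φ₀} =>
        (∀ a, ∑ x, (sg η x : ZMod q₁) * r j₁ a x = 0) ∧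
        ∀ a, ∑ x, (sg η x : ZMod q₂) * r j₂ a x = 0).card := by
    have e2 := card_cm_filter hA h₀ (fun Φ => (∀ a, ∑ x, (sg Φ x : ZMod q₁) * j₁ a x = 0) ∧
        ∀ a, ∑ x, (sg Φ x : ZMod q₂) * j₂ a x = 0)
    simp only [key h1 j₁ ho₁, key h2 j₂ ho₂] at e2
    convert e2
    all_goals rfl
  rw [e1]
  rw [card_cm hA h₀] at h11
  have hpr : ∀ (a₁ : A₁) (a₂ : A₂), ∏ x : {x // x ∈ Φ₀}, cs2 (r j₁ a₁ x) (r j₂ a₂ x)
      = ∏ x, cs2 (j₁ a₁ x) (j₂ a₂ x) ^ (1 / 2 : ℝ) := by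
    intro a₁ a₂
    rw [← Pool.Agent.Lib.MP_938ce2_ag_u3.prod_type hA h₀
      (fun x => cs2 (j₁ a₁ x) (j₂ a₂ x) ^ (1 / 2 : ℝ)),
      ← Finset.prod_mul_distrib, ← Finset.prod_coe_sort Φ₀]
    refine Finset.prod_congr rfl fun x _ => ?_
    rw [ho₁, ho₂, cs2_neg, ← sq, ← Real.rpow_natCast, ← Real.rpow_mul (cs2_nonneg _ _)]
    norm_num
    rfl
  simp_rw [hpr] at h11
  refine le_trans (le_of_eq ?_) h11
  congr!

end CM

end Pool.Agent.Lib.MP_938ce2_ag_u5
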