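import Mathlib
import Pool.Agent.Lib.MP_938ce2_ag_u2.TypeC

/-!
Row Two, modules: the reductions of an absolutely simple module are simple.
-/

set_option autoImplicit false
set_option linter.unusedSectionVars false

namespace Pool.Agent.Lib.MP_938ce2_ag_u5

open Finset Module MonoidAlgebra
open Pool.Agent.Lib.MP_938ce2_ag_h67

section Ring

variable {F R A : Type} [Field F] [Ring R] [Algebra F R] [AddCommGroup A] [Module F A] [Module R A]
  [IsScalarTower F R A] [IsSemisimpleModule R A]

/-- a semisimple module whose endomorphisms are scalars is simple -/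
theorem simple_of_end (h : finrank F (A →ₗ[R] A) = 1) : IsSimpleModule R A := by
  have hnt : Nontrivial A := by
    by_contra hcon
    rw [not_nontrivial_iff_subsingleton] at hcon
    have h1 : Subsingleton (A →ₗ[R] A) := ⟨fun f g => LinearMap.ext fun x => Subsingleton.elim _ _⟩
    have h2 := Module.finrank_zero_of_subsingleton (R := F) (M := A →ₗ[R] A)
    omega
  have hid : (LinearMap.id : A →ₗ[R] A) ≠ 0 := by
    obtain ⟨x, hx⟩ := exists_ne (0 : A)
    intro h0
    exact hx (by simpa using congrArg (fun f : A →ₗ[R] A => f x) h0)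
  have hsc := (finrank_eq_one_iff_of_nonzero' (K := F) (LinearMap.id : A →ₗ[R] A) hid).mp h
  rw [isSimpleModule_iff]
  refine ⟨fun W => ?_⟩
  obtain ⟨W', hW⟩ := exists_isCompl W
  obtain ⟨a, ha⟩ := hsc (W.subtype.comp (Submodule.projectionOnto W W' hW))
  have h1 : ∀ x ∈ W, a • x = x := by
    intro x hx
    have h2 := congrArg (fun f : A →ₗ[R] A => f x) ha
    simp only [LinearMap.smul_apply, LinearMap.id_apply, LinearMap.comp_apply] at h2
    rw [h2]
    have h3 := Submodule.projectionOnto_apply_left hW ⟨x, hx⟩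
    rw [h3]
    rfl
  have h2 : ∀ x ∈ W', a • x = 0 := by
    intro x hx
    have h2 := congrArg (fun f : A →ₗ[R] A => f x) ha
    simp only [LinearMap.smul_apply, LinearMap.id_apply, LinearMap.comp_apply] at h2
    rw [h2, (Submodule.projectionOnto_apply_eq_zero_iff hW).mpr hx]
    rfl
  by_cases hW0 : W = ⊥
  · exact Or.inl hW0
  · right
    obtain ⟨x, hx, hx0⟩ := W.ne_bot_iff.mp hW0
    have h3 : a = 1 := by
      have h4 : (a - 1) • x = 0 := by rw [sub_smul, h1 x hx, one_smul, sub_self]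
      rcases smul_eq_zero.mp h4 with h5 | h5
      · exact sub_eq_zero.mp h5
      · exact absurd h5 hx0
    have h4 : W' = ⊥ := by
      rw [eq_bot_iff]
      intro y hy
      have h5 := h2 y hy
      rw [h3, one_smul] at h5
      rw [h5]
      exact Submodule.zero_mem _
    have h5 := hW.sup_eq_top
    rwa [h4, sup_bot_eq] at h5

end Ring

section Down

variable {F : Type} [Field F] {P Q Ω Ω' : Type} [Group P] [Group Q] [MulAction P Ω]
  [MulAction Q Ω'] (D : QD P Q Ω Ω') {N : Submodule (MonoidAlgebra F P) (VV F P Ω)}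
  (hN : Fac D N)

/-- endomorphisms of the quotient module -/
noncomputable def upE (b : down D N →ₗ[MonoidAlgebra F Q] down D N) :
    N →ₗ[MonoidAlgebra F P] N :=
  MonoidAlgebra.equivariantOfLinearOfComm
    ((eN D N hN).toLinearMap.comp ((b.restrictScalars F).comp (eN D N hN).symm.toLinearMap)) (by
    intro σ v
    show eN D N hN (b ((eN D N hN).symm (MonoidAlgebra.single σ (1 : F) • v)))
      = MonoidAlgebra.single σ (1 : F) • eN D N hN (b ((eN D N hN).symm v))
    rw [eN_symm_single, map_smul, eN_single])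

lemma upE_apply (b : down D N →ₗ[MonoidAlgebra F Q] down D N) (v : N) :
    upE D hN b v = eN D N hN (b ((eN D N hN).symm v)) := rfl

include hN in
lemma finrank_end_down_le [Finite Ω] :
    finrank F (down D N →ₗ[MonoidAlgebra F Q] down D N)
      ≤ finrank F (N →ₗ[MonoidAlgebra F P] N) := by
  have hfin : Module.Finite F N := Module.Finite.of_injective (N.subtype.restrictScalars F)
    Subtype.val_injective
  have hf2 : Module.Finite F (N →ₗ[MonoidAlgebra F P] N) :=
    Pool.Agent.Lib.MP_938ce2_ag_h85d.finite_hom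
  let L : (down D N →ₗ[MonoidAlgebra F Q] down D N) →ₗ[F]
      (N →ₗ[MonoidAlgebra F P] N) :=
    { toFun := fun b => upE D hN b
      map_add' := fun b c => by
        apply LinearMap.ext
        intro v
        rw [upE_apply, LinearMap.add_apply, LinearMap.add_apply, map_add]
        rfl
      map_smul' := fun a b => by
        apply LinearMap.ext
        intro v
        rw [upE_apply, LinearMap.smul_apply, map_smul]
        rfl }
  refine LinearMap.finrank_le_finrank_of_injective (f := L) ?_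
  intro b c h
  apply LinearMap.ext
  intro u
  have h1 := congrArg (fun t : N →ₗ[MonoidAlgebra F P] N => t (eN D N hN u)) h
  have h2 : eN D N hN (b ((eN D N hN).symm (eN D N hN u)))
      = eN D N hN (c ((eN D N hN).symm (eN D N hN u))) := h1
  rw [LinearEquiv.symm_apply_apply] at h2
  exact (eN D N hN).injective h2

include hN in
lemma finrank_end_down [Finite Ω] [Finite Ω'] :
    finrank F (down D N →ₗ[MonoidAlgebra F Q] down D N)
      = finrank F (N →ₗ[MonoidAlgebra F P] N) :=
  le_antisymm (finrank_end_down_le D hN) (finrank_end_le_down D hN)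

end Down

section Red

variable {P Ω : Type} [Group P] [Fintype P] [MulAction P Ω] [Fintype Ω] [DecidableEq Ω]
  (M : Submodule (MonoidAlgebra ℚ P) (VV ℚ P Ω)) (q : ℕ) [Fact q.Prime]

/-- the submodules isomorphic to the reduction -/
abbrev UU : Type := {U : Submodule (MonoidAlgebra (ZMod q) P) (VV (ZMod q) P Ω) //
    Nonempty (red M (ZMod q) ≃ₗ[MonoidAlgebra (ZMod q) P] U)}

theorem card_UU (hq3 : 3 ≤ q) (hq : ¬ q ∣ Fintype.card P) :
    (Nat.card (UU M q) : ℝ) * ((q : ℝ) - 1) ^ finrank ℚ (M →ₗ[MonoidAlgebra ℚ P] M)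
      ≤ (q : ℝ) ^ finrank ℚ (M →ₗ[MonoidAlgebra ℚ P] VV ℚ P Ω) := by
  have hne : NeZero (Nat.card P : ZMod q) := ⟨by
    rw [Nat.card_eq_fintype_card]
    exact card_ne_zero_mod (P := P) q hq⟩
  have h1 : Nat.card (UU M q)
      * Nat.card (red M (ZMod q) ≃ₗ[MonoidAlgebra (ZMod q) P] red M (ZMod q))
      ≤ q ^ finrank ℚ (M →ₗ[MonoidAlgebra ℚ P] VV ℚ P Ω) := by
    have h2 := Pool.Agent.Lib.MP_938ce2_ag_h79.card_submodules_iso_le
      (R := MonoidAlgebra (ZMod q) P) (A := red M (ZMod q)) (V := VV (ZMod q) P Ω)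
    rw [card_hom_eq (ZMod q), finrank_hom_top_mod M q hq, ZMod.card] at h2
    exact h2
  have h3 := aut_ge_odd (q := q) (R := MonoidAlgebra (ZMod q) P) (A := red M (ZMod q)) hq3
  rw [finrank_hom_red_mod M M q hq] at h3
  refine (mul_le_mul_of_nonneg_left h3 (Nat.cast_nonneg _)).trans ?_
  exact_mod_cast h1

theorem simple_UU (hq : ¬ q ∣ Fintype.card P)
    (hE : finrank ℚ (M →ₗ[MonoidAlgebra ℚ P] M) = 1) (U : UU M q) :
    IsSimpleModule (MonoidAlgebra (ZMod q) P) U.1 := by
  have hne : NeZero (Nat.card P : ZMod q) := ⟨by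
    rw [Nat.card_eq_fintype_card]
    exact card_ne_zero_mod (P := P) q hq⟩
  have h1 : IsSimpleModule (MonoidAlgebra (ZMod q) P) (red M (ZMod q)) := by
    apply simple_of_end (F := ZMod q)
    rw [finrank_hom_red_mod M M q hq, hE]
  obtain ⟨e⟩ := U.2
  exact IsSimpleModule.congr e.symm

theorem uu_eq (hq : ¬ q ∣ Fintype.card P)
    (hE : finrank ℚ (M →ₗ[MonoidAlgebra ℚ P] M) = 1) (U U' : UU M q) (v : VV (ZMod q) P Ω)
    (hv : v ∈ U.1) (hv' : v ∈ U'.1) (h0 : v ≠ 0) : U = U' := by
  have h1 := isSimpleModule_iff_isAtom.mp (simple_UU M q hq hE U)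
  have h2 := isSimpleModule_iff_isAtom.mp (simple_UU M q hq hE U')
  apply Subtype.ext
  have h3 : U.1 ⊓ U'.1 ≠ ⊥ := fun h => h0 (by
    have h4 : v ∈ U.1 ⊓ U'.1 := ⟨hv, hv'⟩
    rw [h] at h4
    exact h4)
  have h4 : U.1 ⊓ U'.1 = U.1 := (h1.le_iff.mp inf_le_left).resolve_left h3
  have h5 : U.1 ⊓ U'.1 = U'.1 := (h2.le_iff.mp inf_le_right).resolve_left h3
  rw [← h4]
  exact h5

theorem finrank_UU (hq : ¬ q ∣ Fintype.card P) (U : UU M q) :
    finrank (ZMod q) U.1 = finrank ℚ M := by
  obtain ⟨U, ⟨e⟩⟩ := U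
  rw [← finrank_red_mod M q hq]
  exact (e.restrictScalars (ZMod q)).finrank_eq.symm

/-- a weight orthogonal to a copy of `M` is orthogonal to the reduction -/
theorem orth_red (M' : Submodule (MonoidAlgebra ℚ P) (VV ℚ P Ω)) (w : Ω → ℤ)
    (hv : ∀ v ∈ M', ∑ x, (w x : ℚ) * ev v x = 0) :
    ∀ v ∈ red M' (ZMod q), ∑ x, (w x : ZMod q) * ev v x = 0 := by
  intro v hvU
  obtain ⟨f, hf, rfl⟩ := exists_of_mem_red M' q hvU
  have h5 := hv _ ((mem_lat M' f).mp hf)
  have h6 : ((∑ x, w x * f x : ℤ) : ℚ) = 0 := by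
    push_cast
    exact h5
  have h7 : (∑ x, w x * f x : ℤ) = 0 := by exact_mod_cast h6
  have h8 := congrArg (fun t : ℤ => (t : ZMod q)) h7
  simp only [Int.cast_sum, Int.cast_mul, Int.cast_zero] at h8
  exact h8

end Red

end Pool.Agent.Lib.MP_938ce2_ag_u5
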