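import Mathlib
import Pool.Agent.Lib.MP_938ce2_ag_u5.TwoMod
import Pool.Agent.Lib.MP_938ce2_ag_u5.TwoCode

/-!
Row Two: the count with two primes.
-/

set_option autoImplicit false
set_option linter.unusedSectionVars false

namespace Pool.Agent.Lib.MP_938ce2_ag_u5

open Finset Module MonoidAlgebra
open Pool.Agent.Lib.MP_938ce2_ag_h67 (sg VV ev mkV Orb red kerM QD fw sum_fw down Fac down_iso
  finrank_down finrank_hom_down_le mem_down red_iso code mem_code finrank_code code_inv ev_ext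
  cs csum cs_pos)
open Pool.Agent.Lib.MP_938ce2_ag_h60 (CMType)
open Pool.Agent.Lib.MP_938ce2_ag_u2 (Act OddM badC mem_badC dM dE dH)
open Pool.Agent.Lib.MP_938ce2_ag_u2.TypeCAux (QP DD DD_ker DD_fac odd_of_iso odd_down)

section Fibre

variable {G Q X X' : Type} [Group G] [Group Q] [MulAction G X]
  [MulAction Q X'] [Fintype X] [DecidableEq X] [Fintype X'] [DecidableEq X']
  [MulAction.IsPretransitive G X] (D : QD G Q X X')

theorem fibre_card [Nonempty X] : ∃ n : ℕ, n * Fintype.card X' = Fintype.card X ∧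
    ∀ y, (univ.filter fun x => D.π x = y).card = n := by
  obtain ⟨x₀⟩ := (inferInstance : Nonempty X)
  have h1 : ∀ y, (univ.filter fun x => D.π x = y).card
      = (univ.filter fun x => D.π x = D.π x₀).card := by
    intro y
    obtain ⟨x₁, rfl⟩ := D.hπ y
    obtain ⟨σ, rfl⟩ := MulAction.exists_smul_eq G x₀ x₁
    refine Finset.card_nbij' (fun x => σ⁻¹ • x) (fun x => σ • x) ?_ ?_ ?_ ?_
    · intro x hx
      rw [Finset.mem_coe, Finset.mem_filter] at hx ⊢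
      refine ⟨Finset.mem_univ _, ?_⟩
      show D.π (σ⁻¹ • x) = _
      rw [D.comm, hx.2, ← D.comm, inv_smul_smul]
    · intro x hx
      rw [Finset.mem_coe, Finset.mem_filter] at hx ⊢
      refine ⟨Finset.mem_univ _, ?_⟩
      show D.π (σ • x) = _
      rw [D.comm, hx.2, ← D.comm]
    · intro x _
      exact smul_inv_smul σ x
    · intro x _
      exact inv_smul_smul σ x
  refine ⟨_, ?_, h1⟩
  have h2 := Finset.card_eq_sum_card_fiberwise (f := D.π) (s := univ) (t := univ)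
    (fun x _ => Finset.mem_coe.mpr (Finset.mem_univ _))
  rw [Finset.sum_congr rfl fun y _ => h1 y, Finset.sum_const, smul_eq_mul, Finset.card_univ,
    Finset.card_univ] at h2
  rw [h2, mul_comm]

theorem prod_fibre {n : ℕ} (hn : ∀ y, (univ.filter fun x => D.π x = y).card = n) (f : X' → ℝ)
    (hf : ∀ y, 0 ≤ f y) :
    ∏ x, f (D.π x) ^ (1 / 2 : ℝ) = ∏ y, f y ^ ((n : ℝ) / 2) := by
  rw [← Finset.prod_fiberwise univ D.π]
  refine Finset.prod_congr rfl fun y _ => ?_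
  have h1 : ∀ x ∈ univ.filter (fun x => D.π x = y), f (D.π x) ^ (1 / 2 : ℝ) = f y ^ (1 / 2 : ℝ) :=
    fun x hx => by rw [(Finset.mem_filter.mp hx).2]
  rw [Finset.prod_congr rfl h1, Finset.prod_const, hn, ← Real.rpow_natCast, ← Real.rpow_mul (hf y)]
  congr 1
  ring

include D in
theorem trans_quot : MulAction.IsPretransitive Q X' := by
  refine ⟨fun a b => ?_⟩
  obtain ⟨x, rfl⟩ := D.hπ a
  obtain ⟨y, rfl⟩ := D.hπ b
  obtain ⟨σ, rfl⟩ := MulAction.exists_smul_eq G x y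
  exact ⟨D.φ σ, (D.comm σ x).symm⟩

end Fibre

section Sums

variable {Q X' : Type} [Group Q] [Fintype Q] [MulAction Q X'] [Fintype X'] [DecidableEq X']
  {q₁ q₂ : ℕ} [Fact q₁.Prime] [Fact q₂.Prime]

theorem sum_first (N : Submodule (MonoidAlgebra ℚ Q) (VV ℚ Q X')) (hq : ¬ q₁ ∣ Fintype.card Q)
    (hE : finrank ℚ (N →ₗ[MonoidAlgebra ℚ Q] N) = 1) [Fintype (UU N q₁)]
    [∀ U : UU N q₁, Fintype U.1] (F : (X' → ZMod q₁) → ℝ) (hF : ∀ z, 0 ≤ F z) :
    ∑ U : UU N q₁, ∑ a : U.1, F (ev a.1) ≤ Fintype.card (UU N q₁) * F 0 + ∑ z, F z := by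
  classical
  have h1 : ∀ U : UU N q₁, ∑ a : U.1, F (ev a.1)
      = F 0 + ∑ a ∈ (univ : Finset U.1).erase 0, F (ev a.1) := by
    intro U
    rw [← Finset.add_sum_erase _ _ (Finset.mem_univ (0 : U.1))]
    rfl
  rw [Finset.sum_congr rfl fun U _ => h1 U, Finset.sum_add_distrib, Finset.sum_const,
    Finset.card_univ, nsmul_eq_mul]
  refine add_le_add le_rfl ?_
  rw [Finset.sum_sigma']
  have hinj : Set.InjOn (fun p : (U : UU N q₁) × U.1 => (ev p.2.1 : X' → ZMod q₁))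
      (((univ : Finset (UU N q₁)).sigma fun U => (univ : Finset U.1).erase 0) : Set _) := by
    rintro ⟨U, a⟩ hp ⟨U', a'⟩ hp' h
    have ha : a ≠ 0 := Finset.ne_of_mem_erase (Finset.mem_sigma.mp (Finset.mem_coe.mp hp)).2
    have h2 : a.1 = a'.1 := ev_ext fun x => congrFun h x
    have h3 : U = U' := by
      refine uu_eq N q₁ hq hE U U' a.1 a.2 ?_ ?_
      · rw [h2]
        exact a'.2
      · intro h0
        exact ha (Subtype.ext h0)
    subst h3
    have h4 : a = a' := Subtype.ext h2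
    rw [h4]
  have h2 := Finset.sum_image (f := F) hinj
  rw [← h2]
  exact Finset.sum_le_univ_sum_of_nonneg hF

theorem sum_product (h2 : q₁ ≠ 2) (θ : ℝ) (hθ : 0 ≤ θ) (v : X' → ZMod q₂) :
    ∑ z : X' → ZMod q₁, ∏ y, cs2 (z y) (v y) ^ θ
      ≤ (1 + ((q₁ : ℝ) - 1) * Real.exp (-(θ / (4 * (q₁ : ℝ) ^ 2)))) ^ Fintype.card X'
        * ∏ y, hh q₁ (v y) ^ θ := by
  have h1 : ∑ z : X' → ZMod q₁, ∏ y, cs2 (z y) (v y) ^ θ
      = ∏ y, ∑ t : ZMod q₁, cs2 t (v y) ^ θ := by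
    rw [Finset.prod_univ_sum, Fintype.piFinset_univ]
  rw [h1]
  calc ∏ y, ∑ t : ZMod q₁, cs2 t (v y) ^ θ
      ≤ ∏ y, (hh q₁ (v y) ^ θ * (1 + ((q₁ : ℝ) - 1) * Real.exp (-(θ / (4 * (q₁ : ℝ) ^ 2))))) :=
        Finset.prod_le_prod
          (fun y _ => Finset.sum_nonneg fun t _ => Real.rpow_nonneg (cs2_nonneg _ _) _)
          fun y _ => sum_cs2_rpow h2 (v y) θ hθ
    _ = _ := by
        rw [Finset.prod_mul_distrib, Finset.prod_const, Finset.card_univ, mul_comm]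

theorem sum_second (h : ZMod q₂ → ℝ) (hh : ∀ t, 0 < h t) [MulAction.IsPretransitive Q X']
    (U : Submodule (MonoidAlgebra (ZMod q₂) Q) (VV (ZMod q₂) Q X')) [Fintype U]
    (hpos : 0 < finrank (ZMod q₂) U) (θ : ℝ) (hθ : 0 < θ) :
    ∑ a : U, ∏ y, h (ev a.1 y) ^ θ
      ≤ (∑ t : ZMod q₂, h t ^ (θ * (Fintype.card X' : ℝ) / finrank (ZMod q₂) U))
          ^ finrank (ZMod q₂) U := by
  classical
  have hf : Fintype (code U) := Fintype.ofFinite _
  have h1 := sum_code_gen (P := Q) h hh (code U) (fun σ y hy => code_inv U σ y hy)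
    (by rw [finrank_code]; exact hpos) θ hθ
  rw [finrank_code] at h1
  refine le_trans (le_of_eq ?_) h1
  let e : U ≃ code U :=
    { toFun := fun a => ⟨ev a.1, (mem_code U _).mpr a.2⟩
      invFun := fun y => ⟨mkV Q y.1, (mem_code U y.1).mp y.2⟩
      left_inv := fun a => rfl
      right_inv := fun y => rfl }
  exact Fintype.sum_equiv e _ _ fun a => rfl

end Sums

section Main

variable {G Q X X' : Type} [Group G] [Fintype G] [Group Q] [Fintype Q] [MulAction G X]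
  [MulAction Q X'] [Fintype X] [DecidableEq X] [Fintype X'] [DecidableEq X'] {c : G} {g : ℕ}
  [MulAction.IsPretransitive G X] (D : QD G Q X X') {q₁ q₂ : ℕ} [Fact q₁.Prime] [Fact q₂.Prime]

/-- the functions on `X` given by a submodule of functions on the quotient -/
def jj {q : ℕ} [Fact q.Prime] (U : Submodule (MonoidAlgebra (ZMod q) Q) (VV (ZMod q) Q X')) :
    U →+ (X → ZMod q) where
  toFun u x := ev u.1 (D.π x)
  map_zero' := rfl
  map_add' _ _ := rfl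

theorem bad_le_gen (hA : Act G X c g) (M : Submodule (MonoidAlgebra ℚ G) (VV ℚ G X))
    (hM : OddM c M) (hm : 0 < dM M) (hE : dE M = 1)
    (h1 : q₁ ≠ 2) (h2 : q₂ ≠ 2) (h12 : q₁ ≠ q₂)
    (hq₁ : ¬ q₁ ∣ Fintype.card Q) (hq₂ : ¬ q₂ ∣ Fintype.card Q)
    (hfac : ∀ M' : Submodule (MonoidAlgebra ℚ G) (VV ℚ G X),
      Nonempty (M ≃ₗ[MonoidAlgebra ℚ G] M') → Fac D M')
    (hρ : 4 * ((g : ℝ) / dM M) ≤ ((q₁ : ℝ) * q₂) ^ 2) :
    ((badC c M).card : ℝ) * ((q₁ : ℝ) ^ dM M * (q₂ : ℝ) ^ dM M)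
      ≤ 2 ^ g * (Nat.card (UU (down D M) q₂) * (Nat.card (UU (down D M) q₁)
          * csum q₂ ((g : ℝ) / dM M) ^ dM M
        + (1 + ((q₁ : ℝ) - 1) * Real.exp (-((g : ℝ) / Fintype.card X' / (4 * (q₁ : ℝ) ^ 2))))
            ^ Fintype.card X' * (6 * ((q₁ : ℝ) * q₂) / √((g : ℝ) / dM M)) ^ dM M)) := by
  classical
  have hMfac : Fac D M := hfac M ⟨LinearEquiv.refl _ _⟩
  set N := down D M with hN
  have hNr : finrank ℚ N = dM M := finrank_down D hMfac
  have hNE : finrank ℚ (N →ₗ[MonoidAlgebra ℚ Q] N) = 1 := by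
    rw [hN, finrank_end_down D hMfac]
    exact hE
  have hNodd : OddM (D.φ c) N := odd_down D M hM
  let _ : Fintype (UU N q₁) := Fintype.ofFinite _
  let _ : Fintype (UU N q₂) := Fintype.ofFinite _
  let _ : ∀ U : UU N q₁, Fintype U.1 := fun U => Fintype.ofFinite _
  let _ : ∀ U : UU N q₂, Fintype U.1 := fun U => Fintype.ofFinite _
  have htr : MulAction.IsPretransitive Q X' := trans_quot D
  have hne : Nonempty X := by
    rw [← Fintype.card_pos_iff, hA.card]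
    have := hA.pos
    omega
  obtain ⟨n, hn, hfib⟩ := fibre_card D
  have hX'0 : 0 < Fintype.card X' := by
    obtain ⟨x⟩ := hne
    exact Fintype.card_pos_iff.mpr ⟨D.π x⟩
  have hgR : (0 : ℝ) < g := by exact_mod_cast hA.pos
  have hX'R : (0 : ℝ) < Fintype.card X' := by exact_mod_cast hX'0
  have hmR : (0 : ℝ) < dM M := by exact_mod_cast hm
  set θ : ℝ := (n : ℝ) / 2 with hθ
  have hθX : θ * Fintype.card X' = g := by
    have h3 : (n : ℝ) * Fintype.card X' = 2 * g := by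
      rw [hA.card] at hn
      exact_mod_cast hn
    rw [hθ]
    linarith
  have hθ' : θ = (g : ℝ) / Fintype.card X' := by
    rw [eq_div_iff hX'R.ne']
    exact hθX
  have hθ0 : 0 < θ := by
    rw [hθ']
    positivity
  have hfr₁ : ∀ U : UU N q₁, finrank (ZMod q₁) U.1 = dM M := fun U =>
    (finrank_UU N q₁ hq₁ U).trans hNr
  have hfr₂ : ∀ U : UU N q₂, finrank (ZMod q₂) U.1 = dM M := fun U =>
    (finrank_UU N q₂ hq₂ U).trans hNr
  have hcard : ∀ {q : ℕ} [Fact q.Prime]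
      (U : Submodule (MonoidAlgebra (ZMod q) Q) (VV (ZMod q) Q X')) [Fintype U],
      Fintype.card U = q ^ finrank (ZMod q) U := by
    intro q _ U _
    have h3 := Module.card_eq_pow_finrank (K := ZMod q) (V := U)
    rw [h3, ZMod.card]
  -- the cover
  have hcov : ((badC c M).card : ℝ) ≤ ∑ U₂ : UU N q₂, ∑ U₁ : UU N q₁,
      ((Finset.univ.filter fun Φ : Finset X => CMType c Φ ∧
        ((∀ a, ∑ x, (sg Φ x : ZMod q₁) * jj D U₁.1 a x = 0) ∧
        ∀ a, ∑ x, (sg Φ x : ZMod q₂) * jj D U₂.1 a x = 0)).card : ℝ) := by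
    have h4 : badC c M ⊆ (Finset.univ : Finset (UU N q₂)).biUnion fun U₂ =>
        (Finset.univ : Finset (UU N q₁)).biUnion fun U₁ =>
          (Finset.univ.filter fun Φ : Finset X => CMType c Φ ∧
        ((∀ a, ∑ x, (sg Φ x : ZMod q₁) * jj D U₁.1 a x = 0) ∧
        ∀ a, ∑ x, (sg Φ x : ZMod q₂) * jj D U₂.1 a x = 0)) := by
      intro Φ hΦ
      obtain ⟨hcm, M', hM', hv⟩ := (mem_badC c M Φ).mp hΦ
      have hiso := down_iso D hMfac (hfac M' hM') hM'
      rw [Finset.mem_biUnion]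
      refine ⟨⟨red (down D M') (ZMod q₂), red_iso N (down D M') q₂ hq₂ hiso⟩,
        Finset.mem_univ _, ?_⟩
      rw [Finset.mem_biUnion]
      refine ⟨⟨red (down D M') (ZMod q₁), red_iso N (down D M') q₁ hq₁ hiso⟩,
        Finset.mem_univ _, ?_⟩
      rw [Finset.mem_filter]
      have hw : ∀ v ∈ down D M', ∑ y, ((fw D Φ y : ℤ) : ℚ) * ev v y = 0 := by
        intro u hu
        rw [sum_fw]
        exact hv _ ((mem_down D M' u).mp hu)
      refine ⟨Finset.mem_univ _, hcm, ?_, ?_⟩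
      · intro a
        have h5 := orth_red q₁ (down D M') (fw D Φ) hw a.1 a.2
        rw [sum_fw] at h5
        exact h5
      · intro a
        have h5 := orth_red q₂ (down D M') (fw D Φ) hw a.1 a.2
        rw [sum_fw] at h5
        exact h5
    have h5 : (badC c M).card ≤ ∑ U₂ : UU N q₂, ∑ U₁ : UU N q₁,
      (Finset.univ.filter fun Φ : Finset X => CMType c Φ ∧
        ((∀ a, ∑ x, (sg Φ x : ZMod q₁) * jj D U₁.1 a x = 0) ∧
        ∀ a, ∑ x, (sg Φ x : ZMod q₂) * jj D U₂.1 a x = 0)).card :=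
      (Finset.card_le_card h4).trans (Finset.card_biUnion_le.trans
        (Finset.sum_le_sum fun U₂ _ => Finset.card_biUnion_le))
    exact_mod_cast h5
  -- the count for one pair
  have hodd : ∀ {q : ℕ} [Fact q.Prime] (U : UU N q) (a : U.1) (x : X),
      jj D U.1 a (c • x) = - jj D U.1 a x := by
    intro q _ U a x
    have h3 := odd_of_iso D N hNodd hA.sq q U.1 U.2 a.1 a.2 (D.π x)
    rw [← D.comm] at h3
    exact h3
  have hpair : ∀ (U₂ : UU N q₂) (U₁ : UU N q₁),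
      ((Finset.univ.filter fun Φ : Finset X => CMType c Φ ∧
        ((∀ a, ∑ x, (sg Φ x : ZMod q₁) * jj D U₁.1 a x = 0) ∧
        ∀ a, ∑ x, (sg Φ x : ZMod q₂) * jj D U₂.1 a x = 0)).card : ℝ)
        * ((q₁ : ℝ) ^ dM M * (q₂ : ℝ) ^ dM M)
      ≤ 2 ^ g * ∑ a₁ : U₁.1, ∑ a₂ : U₂.1, ∏ y, cs2 (ev a₁.1 y) (ev a₂.1 y) ^ θ := by
    intro U₂ U₁
    have h3 := card_cm_two hA h1 h2 (jj D U₁.1) (jj D U₂.1) (hodd U₁) (hodd U₂)
    rw [hcard U₁.1, hcard U₂.1, hfr₁, hfr₂] at h3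
    push_cast at h3
    refine le_trans (le_of_eq ?_) (h3.trans (le_of_eq ?_))
    · congr!
    · congr 1
      refine Finset.sum_congr rfl fun a₁ _ => Finset.sum_congr rfl fun a₂ _ => ?_
      exact prod_fibre D hfib (fun y => cs2 (ev a₁.1 y) (ev a₂.1 y)) fun y => cs2_nonneg _ _
  -- the sum over the first prime
  have hfix : ∀ U₂ : UU N q₂, ∑ U₁ : UU N q₁, ∑ a₁ : U₁.1, ∑ a₂ : U₂.1,
        ∏ y, cs2 (ev a₁.1 y) (ev a₂.1 y) ^ θ
      ≤ Nat.card (UU N q₁) * csum q₂ ((g : ℝ) / dM M) ^ dM M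
        + (1 + ((q₁ : ℝ) - 1) * Real.exp (-((g : ℝ) / Fintype.card X' / (4 * (q₁ : ℝ) ^ 2))))
            ^ Fintype.card X' * (6 * ((q₁ : ℝ) * q₂) / √((g : ℝ) / dM M)) ^ dM M := by
    intro U₂
    have hpos : 0 < finrank (ZMod q₂) U₂.1 := by rw [hfr₂]; exact hm
    have h3 := sum_first N hq₁ hNE
      (fun z : X' → ZMod q₁ => ∑ a₂ : U₂.1, ∏ y, cs2 (z y) (ev a₂.1 y) ^ θ)
      (fun z => Finset.sum_nonneg fun a _ => Finset.prod_nonneg fun y _ =>
        Real.rpow_nonneg (cs2_nonneg _ _) _)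
    refine h3.trans (add_le_add ?_ ?_)
    · rw [Nat.card_eq_fintype_card]
      apply mul_le_mul_of_nonneg_left _ (Nat.cast_nonneg _)
      have h4 := sum_second (q₂ := q₂) cs (cs_pos ((Fact.out : q₂.Prime).odd_of_ne_two h2)) U₂.1
        hpos θ hθ0
      rw [hfr₂, hθX] at h4
      refine le_trans (le_of_eq ?_) h4
      refine Finset.sum_congr rfl fun a _ => Finset.prod_congr rfl fun y _ => ?_
      congr 1
      show cs2 (0 : ZMod q₁) (ev a.1 y) = _
      unfold cs2 cs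
      rw [ZMod.val_zero, Nat.cast_zero, mul_zero, zero_div, zero_add]
    · rw [Finset.sum_comm]
      calc ∑ a₂ : U₂.1, ∑ z : X' → ZMod q₁, ∏ y, cs2 (z y) (ev a₂.1 y) ^ θ
          ≤ ∑ a₂ : U₂.1, (1 + ((q₁ : ℝ) - 1) * Real.exp (-(θ / (4 * (q₁ : ℝ) ^ 2))))
              ^ Fintype.card X' * ∏ y, hh q₁ (ev a₂.1 y) ^ θ :=
            Finset.sum_le_sum fun a _ => sum_product h1 θ hθ0.le _
        _ = (1 + ((q₁ : ℝ) - 1) * Real.exp (-(θ / (4 * (q₁ : ℝ) ^ 2)))) ^ Fintype.card X'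
              * ∑ a₂ : U₂.1, ∏ y, hh q₁ (ev a₂.1 y) ^ θ := by rw [Finset.mul_sum]
        _ ≤ (1 + ((q₁ : ℝ) - 1) * Real.exp (-(θ / (4 * (q₁ : ℝ) ^ 2)))) ^ Fintype.card X'
              * (6 * ((q₁ : ℝ) * q₂) / √((g : ℝ) / dM M)) ^ dM M := by
            have hq1 : (1 : ℝ) ≤ q₁ := by exact_mod_cast (Fact.out : q₁.Prime).one_le
            apply mul_le_mul_of_nonneg_left
            · have h4 := sum_second (q₂ := q₂) (hh q₁) hh_pos U₂.1 hpos θ hθ0
              rw [hfr₂, hθX] at h4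
              refine h4.trans ?_
              apply pow_le_pow_left₀ (Finset.sum_nonneg fun t _ => Real.rpow_nonneg (hh_pos _).le _)
              exact sum_hh_rpow h2 h12 _ (by positivity) hρ
            · apply pow_nonneg
              have := mul_nonneg (sub_nonneg.mpr hq1)
                (Real.exp_pos (-(θ / (4 * (q₁ : ℝ) ^ 2)))).le
              linarith
        _ = _ := by rw [hθ']
  -- the total
  have hQ0 : (0 : ℝ) ≤ (q₁ : ℝ) ^ dM M * (q₂ : ℝ) ^ dM M := by positivity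
  calc ((badC c M).card : ℝ) * ((q₁ : ℝ) ^ dM M * (q₂ : ℝ) ^ dM M)
      ≤ _ := mul_le_mul_of_nonneg_right hcov hQ0
    _ = ∑ U₂ : UU N q₂, ∑ U₁ : UU N q₁,
      ((Finset.univ.filter fun Φ : Finset X => CMType c Φ ∧
        ((∀ a, ∑ x, (sg Φ x : ZMod q₁) * jj D U₁.1 a x = 0) ∧
        ∀ a, ∑ x, (sg Φ x : ZMod q₂) * jj D U₂.1 a x = 0)).card : ℝ)
        * ((q₁ : ℝ) ^ dM M * (q₂ : ℝ) ^ dM M) := by
        rw [Finset.sum_mul]
        exact Finset.sum_congr rfl fun U₂ _ => Finset.sum_mul _ _ _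
    _ ≤ ∑ U₂ : UU N q₂, ∑ U₁ : UU N q₁, 2 ^ g * ∑ a₁ : U₁.1, ∑ a₂ : U₂.1,
          ∏ y, cs2 (ev a₁.1 y) (ev a₂.1 y) ^ θ :=
        Finset.sum_le_sum fun U₂ _ => Finset.sum_le_sum fun U₁ _ => hpair U₂ U₁
    _ = ∑ U₂ : UU N q₂, 2 ^ g * ∑ U₁ : UU N q₁, ∑ a₁ : U₁.1, ∑ a₂ : U₂.1,
          ∏ y, cs2 (ev a₁.1 y) (ev a₂.1 y) ^ θ :=
        Finset.sum_congr rfl fun U₂ _ => by rw [Finset.mul_sum]
    _ ≤ ∑ _U₂ : UU N q₂, 2 ^ g * (Nat.card (UU N q₁) * csum q₂ ((g : ℝ) / dM M) ^ dM M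
        + (1 + ((q₁ : ℝ) - 1) * Real.exp (-((g : ℝ) / Fintype.card X' / (4 * (q₁ : ℝ) ^ 2))))
            ^ Fintype.card X' * (6 * ((q₁ : ℝ) * q₂) / √((g : ℝ) / dM M)) ^ dM M) :=
        Finset.sum_le_sum fun U₂ _ => mul_le_mul_of_nonneg_left (hfix U₂) (by positivity)
    _ = _ := by
        rw [Finset.sum_const, Finset.card_univ, nsmul_eq_mul, Nat.card_eq_fintype_card (α := UU N q₂)]
        ring

end Main

end Pool.Agent.Lib.MP_938ce2_ag_u5
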