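import Mathlib
import Pool.Agent.Lib.MP_938ce2_ag_u4.MinkB
import Pool.Agent.Lib.MP_938ce2_ag_u5.Defs5
import Pool.Agent.Lib.MP_938ce2_ag_u5.TwoSum
import Pool.Agent.Lib.MP_938ce2_ag_u5.TwoPrime

/-!
Row Two: the bound `g ^ (-5/4)` for the modules with `dE = 1`, `dH = dM - 1`, `3 ≤ dM` bounded.
-/

set_option autoImplicit false
set_option linter.unusedSectionVars false

namespace Pool.Agent.Lib.MP_938ce2_ag_u5

open Finset Module MonoidAlgebra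
open Pool.Agent.Lib.MP_938ce2_ag_h67 (sg VV ev mkV Orb red kerM down csum finrank_hom_down_le
  finrank_down QD)
open Pool.Agent.Lib.MP_938ce2_ag_h60 (CMType)
open Pool.Agent.Lib.MP_938ce2_ag_u2 (Act OddM badC mem_badC dM dE dH card_cm_all)
open Pool.Agent.Lib.MP_938ce2_ag_u2.TypeCAux (QP DD DD_ker DD_fac)
open Pool.Agent.Lib.MP_938ce2_ag_u2.ThreeAAux (index_stab kerM_le_stab nonempty_of_pos)

section

variable {G X : Type} [Group G] [Fintype G] [MulAction G X] [Fintype X] [DecidableEq X] {c : G}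
  {g : ℕ} [MulAction.IsPretransitive G X]

theorem card_orb_le_mink (M : Submodule (MonoidAlgebra ℚ G) (VV ℚ G X)) (hm : 0 < dM M) :
    Nat.card (Orb (kerM M) X) ≤ 3 ^ (dM M * dM M) := by
  obtain ⟨x₀⟩ := nonempty_of_pos M hm
  have h1 := Pool.Agent.Lib.MP_938ce2_ag_u4.index_le_mink M
  have h2 : Nat.card (Orb (kerM M) X) ∣ (kerM M).index := by
    rw [← index_stab M x₀]
    exact Subgroup.index_dvd_of_le (kerM_le_stab M x₀)
  have h3 : 0 < (kerM M).index := Nat.pos_of_ne_zero Subgroup.index_ne_zero_of_finite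
  exact (Nat.le_of_dvd h3 h2).trans h1

theorem bad_le_one (hA : Act G X c g) (M : Submodule (MonoidAlgebra ℚ G) (VV ℚ G X)) :
    ((badC c M).card : ℝ) / 2 ^ g ≤ 1 := by
  classical
  rw [div_le_one (by positivity)]
  have h1 := card_cm_all hA
  rw [Nat.card_eq_fintype_card, Fintype.card_subtype] at h1
  have h2 : (badC c M).card ≤ 2 ^ g := by
    rw [← h1]
    refine Finset.card_le_card fun Φ hΦ => ?_
    rw [Finset.mem_filter]
    exact ⟨Finset.mem_univ _, ((mem_badC c M Φ).mp hΦ).1⟩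
  exact_mod_cast h2

theorem card_UU_le {Q X' : Type} [Group Q] [Fintype Q] [MulAction Q X'] [Fintype X']
    [DecidableEq X'] (D : QD G Q X X') (M : Submodule (MonoidAlgebra ℚ G) (VV ℚ G X))
    (hMfac : Pool.Agent.Lib.MP_938ce2_ag_h67.Fac D M) (hE : dE M = 1) (hH : dH M + 1 = dM M)
    (q : ℕ) [Fact q.Prime] (hq3 : 3 ≤ q) (hq : ¬ q ∣ Fintype.card Q) :
    (Nat.card (UU (down D M) q) : ℝ) / (q : ℝ) ^ dM M ≤ 2 / (q : ℝ) ^ 2 := by
  have h1 := card_UU (down D M) q hq3 hq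
  rw [finrank_end_down D hMfac] at h1
  have h2 : finrank ℚ (M →ₗ[MonoidAlgebra ℚ G] M) = 1 := hE
  rw [h2, pow_one] at h1
  have hq3R : (3 : ℝ) ≤ q := by exact_mod_cast hq3
  have h3 : (q : ℝ) ^ finrank ℚ (down D M →ₗ[MonoidAlgebra ℚ Q] VV ℚ Q X') ≤ (q : ℝ) ^ dH M :=
    pow_le_pow_right₀ (by linarith) (finrank_hom_down_le D hMfac)
  have h4 : (q : ℝ) ^ dM M = (q : ℝ) ^ dH M * q := by rw [← hH, pow_succ]
  have h5 : 0 < (q : ℝ) ^ dH M := by positivity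
  have h6 : (Nat.card (UU (down D M) q) : ℝ) ≤ (q : ℝ) ^ dH M / ((q : ℝ) - 1) := by
    rw [le_div_iff₀ (by linarith)]
    exact h1.trans h3
  rw [h4, div_le_div_iff₀ (by positivity) (by positivity)]
  have h7 : (q : ℝ) ^ dH M / ((q : ℝ) - 1) ≤ (q : ℝ) ^ dH M * (2 / q) := by
    rw [div_eq_mul_inv]
    apply mul_le_mul_of_nonneg_left _ h5.le
    rw [inv_le_comm₀ (by linarith) (by positivity), inv_div]
    linarith
  calc (Nat.card (UU (down D M) q) : ℝ) * (q : ℝ) ^ 2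
      ≤ ((q : ℝ) ^ dH M * (2 / q)) * (q : ℝ) ^ 2 :=
        mul_le_mul_of_nonneg_right (h6.trans h7) (by positivity)
    _ = 2 * ((q : ℝ) ^ dH M * q) := by field_simp

end

theorem bad_two (M₀ : ℕ) : ∃ C : ℝ, 0 < C ∧ ∀ (G X : Type) [Group G] [Fintype G] [MulAction G X]
    [Fintype X] [DecidableEq X] [MulAction.IsPretransitive G X] (c : G) (g : ℕ),
    Act G X c g → ∀ M : Submodule (MonoidAlgebra ℚ G) (VV ℚ G X),
    IsSimpleModule (MonoidAlgebra ℚ G) M → OddM c M → dE M = 1 → dH M + 1 = dM M →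
    3 ≤ dM M → dM M < M₀ →
    ((badC c M).card : ℝ) / 2 ^ g ≤ C * (g : ℝ) ^ (-(5 / 4) : ℝ) := by
  set D₀ : ℕ := 3 ^ (M₀ * M₀) with hD₀
  obtain ⟨g₀, hg₀1, hpr⟩ := choose_primes M₀ D₀
  set C₁ : ℝ := 4 * 4 ^ M₀ + 2 * 2 ^ D₀ * (12 * √M₀) ^ M₀ with hC₁
  have hC₁0 : 0 ≤ C₁ := by positivity
  refine ⟨C₁ + (g₀ : ℝ) ^ (5 / 4 : ℝ), by positivity, ?_⟩
  intro G X _ _ _ _ _ _ c g hA M _ hodd hE hH hm3 hmM
  classical
  have hg1 : (1 : ℝ) ≤ g := by exact_mod_cast hA.pos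
  have hg0 : (0 : ℝ) < g := by linarith
  have hgp : 0 < (g : ℝ) ^ (-(5 / 4) : ℝ) := by positivity
  rcases Nat.lt_or_ge g g₀ with hlt | hge
  · refine (bad_le_one hA M).trans ?_
    have h1 : 1 ≤ (g₀ : ℝ) ^ (5 / 4 : ℝ) * (g : ℝ) ^ (-(5 / 4) : ℝ) := by
      rw [Real.rpow_neg hg0.le, ← div_eq_mul_inv, one_le_div (by positivity)]
      apply Real.rpow_le_rpow hg0.le _ (by norm_num)
      exact_mod_cast hlt.le
    nlinarith
  obtain ⟨q₁, q₂, hq₁, hq₂, hDq, h2q, hqq, ha, hb, hc, hd, he, hf, hexp⟩ := hpr g hge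
  have hf1 : Fact q₁.Prime := ⟨hq₁⟩
  have hf2 : Fact q₂.Prime := ⟨hq₂⟩
  have hm : 0 < dM M := by omega
  have hmR : (0 : ℝ) < dM M := by exact_mod_cast hm
  set K := kerM M with hK
  have hft : Finite (Orb K X) := Finite.of_surjective _
    (Pool.Agent.Lib.MP_938ce2_ag_h67.Orb.mk_surj K)
  let _ : Fintype (Orb K X) := Fintype.ofFinite _
  let _ : Fintype (QP (X := X) K) := Fintype.ofFinite _
  let D := DD (X := X) K
  have hcard : Fintype.card (QP (X := X) K) = K.index := by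
    have h0 : (DD (X := X) K).φ.ker.index = K.index := congrArg Subgroup.index (DD_ker M)
    rw [← Nat.card_eq_fintype_card, ← h0, Subgroup.index_ker]
    have h1 : (DD (X := X) K).φ.range = ⊤ :=
      MonoidHom.range_eq_top.mpr (DD (X := X) K).hφ
    rw [h1]
    exact Subgroup.card_top.symm
  have hmm : dM M * dM M ≤ M₀ * M₀ := Nat.mul_le_mul hmM.le hmM.le
  have hidx : K.index ≤ D₀ :=
    (Pool.Agent.Lib.MP_938ce2_ag_u4.index_le_mink M).trans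
      (Nat.pow_le_pow_right (by norm_num) hmm)
  have hidx0 : 0 < K.index := Nat.pos_of_ne_zero Subgroup.index_ne_zero_of_finite
  have hnd : ∀ q : ℕ, D₀ < q → ¬ q ∣ Fintype.card (QP (X := X) K) := by
    intro q hq hdvd
    rw [hcard] at hdvd
    have := Nat.le_of_dvd hidx0 hdvd
    omega
  have hn1 := hnd q₁ (by omega)
  have hn2 := hnd q₂ hDq
  have hMfac := DD_fac M M ⟨LinearEquiv.refl _ _⟩
  have hX' : Fintype.card (Orb K X) ≤ D₀ := by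
    rw [← Nat.card_eq_fintype_card]
    exact (card_orb_le_mink M hm).trans (Nat.pow_le_pow_right (by norm_num) hmm)
  have hX'0 : 0 < Fintype.card (Orb K X) := by
    obtain ⟨x⟩ := nonempty_of_pos M hm
    exact Fintype.card_pos_iff.mpr ⟨Orb.mk K x⟩
  have hX'R : (0 : ℝ) < Fintype.card (Orb K X) := by exact_mod_cast hX'0
  have hgm : (g : ℝ) / dM M ≤ g := div_le_self hg0.le (by exact_mod_cast hm)
  have hmain := bad_le_gen D hA M hodd hm hE (by omega) (by omega) (by omega) hn1 hn2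
    (DD_fac M) (by linarith)
  have hu1 := card_UU_le D M hMfac hE hH q₁ (by omega) hn1
  have hu2 := card_UU_le D M hMfac hE hH q₂ (by omega) hn2
  set u₁ : ℝ := (Nat.card (UU (down D M) q₁) : ℝ) with hu₁
  set u₂ : ℝ := (Nat.card (UU (down D M) q₂) : ℝ) with hu₂
  have hu10 : 0 ≤ u₁ := Nat.cast_nonneg _
  have hu20 : 0 ≤ u₂ := Nat.cast_nonneg _
  have hx1 : 0 < (g : ℝ) ^ (2 / 5 : ℝ) := by positivity
  have hx2 : 0 < (g : ℝ) ^ (1 / 4 : ℝ) := by positivity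
  have hq1R : (0 : ℝ) < q₁ := by linarith
  have hq2R : (0 : ℝ) < q₂ := by linarith
  -- the two factors
  have hE₂ : csum q₂ ((g : ℝ) / dM M) ^ dM M ≤ 4 ^ M₀ := by
    have h1 : (q₂ : ℝ) ^ 2 ≤ (g : ℝ) / dM M := by
      rw [le_div_iff₀ hmR]
      have h3 : (dM M : ℝ) ≤ M₀ := by exact_mod_cast hmM.le
      have h4 : 0 ≤ (q₂ : ℝ) ^ 2 := by positivity
      nlinarith
    have h2 := Pool.Agent.Lib.MP_938ce2_ag_h67.csum_le_refined
      (hq₂.odd_of_ne_two (by omega)) h1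
    have h3 : Real.exp (-((g : ℝ) / dM M / (q₂ : ℝ) ^ 2)) ≤ 1 := by
      rw [Real.exp_le_one_iff, neg_nonpos]
      positivity
    calc csum q₂ ((g : ℝ) / dM M) ^ dM M ≤ 4 ^ dM M := by
          apply pow_le_pow_left₀ (Pool.Agent.Lib.MP_938ce2_ag_h67.csum_nonneg _)
          linarith
      _ ≤ 4 ^ M₀ := pow_le_pow_right₀ (by norm_num) hmM.le
  have hW : (1 + ((q₁ : ℝ) - 1) * Real.exp (-((g : ℝ) / Fintype.card (Orb K X)
      / (4 * (q₁ : ℝ) ^ 2)))) ^ Fintype.card (Orb K X) ≤ 2 ^ D₀ := by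
    have hq11 : (1 : ℝ) ≤ q₁ := by exact_mod_cast hq₁.one_le
    have h1 : Real.exp (-((g : ℝ) / Fintype.card (Orb K X) / (4 * (q₁ : ℝ) ^ 2)))
        ≤ Real.exp (-((g : ℝ) / (D₀ + 1) / (4 * (q₁ : ℝ) ^ 2))) := by
      apply Real.exp_le_exp.mpr
      rw [neg_le_neg_iff]
      apply div_le_div_of_nonneg_right _ (by positivity)
      apply div_le_div_of_nonneg_left hg0.le hX'R
      have : (Fintype.card (Orb K X) : ℝ) ≤ D₀ := by exact_mod_cast hX'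
      linarith
    have h2 : ((q₁ : ℝ) - 1) * Real.exp (-((g : ℝ) / Fintype.card (Orb K X)
        / (4 * (q₁ : ℝ) ^ 2))) ≤ 1 := by
      refine le_trans ?_ hexp
      exact mul_le_mul (by linarith) h1 (Real.exp_pos _).le (by linarith)
    have h3 : 0 ≤ ((q₁ : ℝ) - 1) * Real.exp (-((g : ℝ) / Fintype.card (Orb K X)
        / (4 * (q₁ : ℝ) ^ 2))) := mul_nonneg (by linarith) (Real.exp_pos _).le
    calc _ ≤ (2 : ℝ) ^ Fintype.card (Orb K X) := by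
          apply pow_le_pow_left₀ (by linarith)
          linarith
      _ ≤ 2 ^ D₀ := pow_le_pow_right₀ (by norm_num) hX'
  set W : ℝ := (1 + ((q₁ : ℝ) - 1) * Real.exp (-((g : ℝ) / Fintype.card (Orb K X)
      / (4 * (q₁ : ℝ) ^ 2)))) ^ Fintype.card (Orb K X) with hWdef
  set E₂ : ℝ := csum q₂ ((g : ℝ) / dM M) ^ dM M with hE₂def
  set m := dM M with hmdef
  -- powers of `g`
  have hsq : √((g : ℝ) / m) = (g : ℝ) ^ (1 / 2 : ℝ) / √m := by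
    rw [Real.sqrt_div hg0.le, Real.sqrt_eq_rpow (g : ℝ)]
  have hsm : 0 < √(m : ℝ) := Real.sqrt_pos.mpr hmR
  have hH' : (6 * ((q₁ : ℝ) * q₂) / √((g : ℝ) / m)) ^ m / (q₁ : ℝ) ^ m
      ≤ (12 * √M₀) ^ M₀ * (g : ℝ) ^ (-(3 / 4) : ℝ) := by
    rw [← div_pow]
    have h1 : 6 * ((q₁ : ℝ) * q₂) / √((g : ℝ) / m) / q₁
        ≤ (12 * √M₀) * (g : ℝ) ^ (-(1 / 4) : ℝ) := by
      rw [hsq]
      have h2 : 6 * ((q₁ : ℝ) * q₂) / ((g : ℝ) ^ (1 / 2 : ℝ) / √m) / q₁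
          = 6 * q₂ * √m * ((g : ℝ) ^ (1 / 2 : ℝ))⁻¹ := by
        field_simp
      have h3 : √(m : ℝ) ≤ √(M₀ : ℝ) := Real.sqrt_le_sqrt (by exact_mod_cast hmM.le)
      have h4 : (g : ℝ) ^ (-(1 / 4) : ℝ) = (g : ℝ) ^ (1 / 4 : ℝ) * ((g : ℝ) ^ (1 / 2 : ℝ))⁻¹ := by
        rw [← Real.rpow_neg hg0.le, ← Real.rpow_add hg0]
        norm_num
      rw [h2, h4]
      have h5 : 6 * (q₂ : ℝ) * √m ≤ 12 * √M₀ * (g : ℝ) ^ (1 / 4 : ℝ) := by
        calc 6 * (q₂ : ℝ) * √m ≤ 6 * (2 * (g : ℝ) ^ (1 / 4 : ℝ)) * √M₀ :=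
              mul_le_mul (by linarith) h3 hsm.le (by positivity)
          _ = 12 * √M₀ * (g : ℝ) ^ (1 / 4 : ℝ) := by ring
      calc 6 * (q₂ : ℝ) * √m * ((g : ℝ) ^ (1 / 2 : ℝ))⁻¹
          ≤ (12 * √M₀ * (g : ℝ) ^ (1 / 4 : ℝ)) * ((g : ℝ) ^ (1 / 2 : ℝ))⁻¹ :=
            mul_le_mul_of_nonneg_right h5 (by positivity)
        _ = _ := by ring
    have hM₀1 : (1 : ℝ) ≤ 12 * √M₀ := by
      have h2 : (1 : ℝ) ≤ √M₀ := by
        rw [Real.one_le_sqrt]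
        exact_mod_cast (by omega : 1 ≤ M₀)
      linarith
    calc (6 * ((q₁ : ℝ) * q₂) / √((g : ℝ) / m) / q₁) ^ m
        ≤ ((12 * √M₀) * (g : ℝ) ^ (-(1 / 4) : ℝ)) ^ m :=
          pow_le_pow_left₀ (by positivity) h1 m
      _ = (12 * √M₀) ^ m * ((g : ℝ) ^ (-(1 / 4) : ℝ)) ^ m := mul_pow _ _ _
      _ ≤ (12 * √M₀) ^ M₀ * (g : ℝ) ^ (-(3 / 4) : ℝ) := by
          apply mul_le_mul (pow_le_pow_right₀ hM₀1 hmM.le) _ (by positivity) (by positivity)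
          rw [← Real.rpow_natCast, ← Real.rpow_mul hg0.le]
          apply Real.rpow_le_rpow_of_exponent_le hg1
          have h3 : (3 : ℝ) ≤ m := by exact_mod_cast hm3
          linarith
  have hi2 : 2 / (q₂ : ℝ) ^ 2 ≤ 2 * (g : ℝ) ^ (-(1 / 2) : ℝ) := by
    rw [div_eq_mul_inv]
    apply mul_le_mul_of_nonneg_left _ (by norm_num)
    have h1 : (g : ℝ) ^ (-(1 / 2) : ℝ) = (((g : ℝ) ^ (1 / 4 : ℝ)) ^ 2)⁻¹ := by
      rw [Real.rpow_neg hg0.le, ← Real.rpow_natCast ((g : ℝ) ^ (1 / 4 : ℝ)),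
        ← Real.rpow_mul hg0.le]
      norm_num
    rw [h1]
    exact inv_anti₀ (by positivity) (pow_le_pow_left₀ hx2.le hc 2)
  have hi1 : 2 / (q₁ : ℝ) ^ 2 ≤ 2 * (g : ℝ) ^ (-(4 / 5) : ℝ) := by
    rw [div_eq_mul_inv]
    apply mul_le_mul_of_nonneg_left _ (by norm_num)
    have h1 : (g : ℝ) ^ (-(4 / 5) : ℝ) = (((g : ℝ) ^ (2 / 5 : ℝ)) ^ 2)⁻¹ := by
      rw [Real.rpow_neg hg0.le, ← Real.rpow_natCast ((g : ℝ) ^ (2 / 5 : ℝ)),
        ← Real.rpow_mul hg0.le]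
      norm_num
    rw [h1]
    exact inv_anti₀ (by positivity) (pow_le_pow_left₀ hx1.le ha 2)
  -- the total
  have hE₂0 : 0 ≤ E₂ := pow_nonneg (Pool.Agent.Lib.MP_938ce2_ag_h67.csum_nonneg _) _
  have hW0 : 0 ≤ W := by
    have hq11 : (1 : ℝ) ≤ q₁ := by exact_mod_cast hq₁.one_le
    have h3 : 0 ≤ ((q₁ : ℝ) - 1) * Real.exp (-((g : ℝ) / Fintype.card (Orb K X)
        / (4 * (q₁ : ℝ) ^ 2))) := mul_nonneg (by linarith) (Real.exp_pos _).le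
    rw [hWdef]
    exact pow_nonneg (by linarith) _
  have hfin : ((badC c M).card : ℝ) / 2 ^ g
      ≤ (u₂ / (q₂ : ℝ) ^ m) * ((u₁ / (q₁ : ℝ) ^ m) * E₂
        + W * ((6 * ((q₁ : ℝ) * q₂) / √((g : ℝ) / m)) ^ m / (q₁ : ℝ) ^ m)) := by
    rw [div_le_iff₀ (by positivity)]
    have h1 : ((badC c M).card : ℝ)
        ≤ 2 ^ g * (u₂ * (u₁ * E₂ + W * (6 * ((q₁ : ℝ) * q₂) / √((g : ℝ) / m)) ^ m))
          / ((q₁ : ℝ) ^ m * (q₂ : ℝ) ^ m) := by
      rw [le_div_iff₀ (by positivity)]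
      exact hmain
    refine h1.trans (le_of_eq ?_)
    field_simp
  refine hfin.trans ?_
  calc (u₂ / (q₂ : ℝ) ^ m) * ((u₁ / (q₁ : ℝ) ^ m) * E₂
        + W * ((6 * ((q₁ : ℝ) * q₂) / √((g : ℝ) / m)) ^ m / (q₁ : ℝ) ^ m))
      ≤ (2 * (g : ℝ) ^ (-(1 / 2) : ℝ)) * ((2 * (g : ℝ) ^ (-(4 / 5) : ℝ)) * 4 ^ M₀
        + 2 ^ D₀ * ((12 * √M₀) ^ M₀ * (g : ℝ) ^ (-(3 / 4) : ℝ))) := by
        apply mul_le_mul (hu2.trans hi2) _ (by positivity) (by positivity)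
        apply add_le_add
        · exact mul_le_mul (hu1.trans hi1) hE₂ hE₂0 (by positivity)
        · exact mul_le_mul hW hH' (by positivity) (by positivity)
    _ = 4 * 4 ^ M₀ * ((g : ℝ) ^ (-(1 / 2) : ℝ) * (g : ℝ) ^ (-(4 / 5) : ℝ))
        + 2 * 2 ^ D₀ * (12 * √M₀) ^ M₀ * ((g : ℝ) ^ (-(1 / 2) : ℝ) * (g : ℝ) ^ (-(3 / 4) : ℝ)) := by
        ring
    _ ≤ 4 * 4 ^ M₀ * (g : ℝ) ^ (-(5 / 4) : ℝ)
        + 2 * 2 ^ D₀ * (12 * √M₀) ^ M₀ * (g : ℝ) ^ (-(5 / 4) : ℝ) := by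
        rw [← Real.rpow_add hg0, ← Real.rpow_add hg0]
        apply add_le_add
        · apply mul_le_mul_of_nonneg_left _ (by positivity)
          exact Real.rpow_le_rpow_of_exponent_le hg1 (by norm_num)
        · apply mul_le_mul_of_nonneg_left _ (by positivity)
          exact Real.rpow_le_rpow_of_exponent_le hg1 (by norm_num)
    _ = C₁ * (g : ℝ) ^ (-(5 / 4) : ℝ) := by rw [hC₁]; ring
    _ ≤ (C₁ + (g₀ : ℝ) ^ (5 / 4 : ℝ)) * (g : ℝ) ^ (-(5 / 4) : ℝ) := by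
        apply mul_le_mul_of_nonneg_right _ hgp.le
        have : 0 ≤ (g₀ : ℝ) ^ (5 / 4 : ℝ) := by positivity
        linarith

end Pool.Agent.Lib.MP_938ce2_ag_u5
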