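import Mathlib
import Pool.Agent.Lib.MP_938ce2_ag_u4.Main4
import Pool.Agent.Lib.MP_938ce2_ag_u5.Defs5
import Pool.Agent.Lib.MP_938ce2_ag_u5.Two
import Pool.Agent.Lib.MP_938ce2_ag_u5.Abel
import Pool.Agent.Lib.MP_938ce2_ag_u5.Plane

/-!
The upper bound for `G`-sets.
-/

set_option autoImplicit false
set_option linter.unusedSectionVars false

namespace Pool.Agent.Lib.MP_938ce2_ag_u5

open Finset Module MonoidAlgebra
open Pool.Agent.Lib.MP_938ce2_ag_h67 (sg VV ev mkV Orb red kerM)
open Pool.Agent.Lib.MP_938ce2_ag_h60 (CMType)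
open Pool.Agent.Lib.MP_938ce2_ag_u2 (Act OddM badC mem_badC dM dE dH)
open Pool.Agent.Lib.MP_938ce2_ag_h60 (Nondeg GeneratedByDivisors generatedByDivisors_of_nondeg)
open Pool.Agent.Lib.MP_938ce2_ag_h85d (finrank_hom_le finite_hom)
open Pool.Agent.Lib.MP_938ce2_ag_u2 (Data numericV numbers bad_le_big bad_le_odd
  exists_simple_of_deg odd_of_iso index_eq index_two c_free mem_kerM_of_orb card_cm_all)
open Pool.Agent.Lib.MP_938ce2_ag_u3 (dM_pos dE_pos bad_le_refined odd_numbers dM_le_orb ker_count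
  triv_orb)
open Pool.Agent.Lib.MP_938ce2_ag_u4 (exists_data4 card_orb_le sharp_bad sharp numericR num_II
  DataR exists_dataR)

section

variable {G X : Type} [Group G] [Fintype G] [MulAction G X] [Fintype X] [DecidableEq X] {c : G}
  {g : ℕ} [MulAction.IsPretransitive G X]

/-- the kernel of a module of dimension one -/
theorem blk_one (hA : Act G X c g) (M : Submodule (MonoidAlgebra ℚ G) (VV ℚ G X))
    (hodd : OddM c M) (h1 : dM M = 1) : Blk G X c 2 (kerM M) :=
  ⟨inferInstance, fun x k hk => c_free hA M hodd (by omega) x k hk,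
    fun σ hσ => mem_kerM_of_orb M σ hσ, (triv_orb hA M hodd h1).1⟩

end

/-- powers of `g` -/
theorem num_small (C ε : ℝ) (hC : 0 < C) (hε : 0 < ε) : ∃ g₀ : ℕ, ∀ g : ℕ, g₀ ≤ g → 1 ≤ g →
    (g : ℝ) * (C * (g : ℝ) ^ (-(5 / 4) : ℝ)) ≤ ε := by
  have h1 : Filter.Tendsto (fun g : ℕ => C * (g : ℝ) ^ (-(1 / 4) : ℝ)) Filter.atTop
      (nhds (C * 0)) := by
    apply Filter.Tendsto.const_mul
    exact (tendsto_rpow_neg_atTop (by norm_num)).comp tendsto_natCast_atTop_atTop
  rw [mul_zero] at h1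
  obtain ⟨g₀, h2⟩ := Filter.eventually_atTop.1 (h1.eventually_le_const hε)
  refine ⟨g₀, fun g hg hg1 => ?_⟩
  have hg0 : (0 : ℝ) < g := by exact_mod_cast hg1
  have h3 : (g : ℝ) * (C * (g : ℝ) ^ (-(5 / 4) : ℝ)) = C * (g : ℝ) ^ (-(1 / 4) : ℝ) := by
    have h4 : (g : ℝ) ^ (-(1 / 4) : ℝ) = (g : ℝ) * (g : ℝ) ^ (-(5 / 4) : ℝ) := by
      nth_rewrite 2 [← Real.rpow_one (g : ℝ)]
      rw [← Real.rpow_add hg0]
      norm_num
    rw [h4]
    ring
  rw [h3]
  exact h2 g hg

theorem main_G5 : ∃ C : ℝ, 0 < C ∧ ∀ ε : ℝ, 0 < ε → ∃ g₀ : ℕ, ∀ (G X : Type) [Group G] [Fintype G]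
    [MulAction G X] [Fintype X] [MulAction.IsPretransitive G X] (c : G) (g : ℕ),
    Act G X c g → g₀ ≤ g → AbQ G X → ∀ (s t : Finset (Subgroup G)),
    (∀ K, Blk G X c 2 K → K ∈ s) → (∀ K, Blk46 G X c K → K ∈ t) →
    (Nat.card {Φ : Finset X // CMType c Φ ∧ ¬ GeneratedByDivisors G Φ} : ℝ)
      ≤ (ε + C * (s.card / √g + t.card / g)) * 2 ^ g := by
  obtain ⟨C₀, hC0, g₁, hC⟩ := sharp
  refine ⟨12 * C₀, by positivity, ?_⟩
  intro ε hε
  obtain ⟨g₂, hnum⟩ := numericV (ε / 4) (by positivity)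
  obtain ⟨g₄, hR⟩ := numericR (ε / 4) (by positivity)
  obtain ⟨M₀, hII⟩ := num_II C₀ (ε / 4) hC0 (by positivity)
  obtain ⟨C₂, hC₂0, hC₂⟩ := bad_two M₀
  obtain ⟨g₃, hsm⟩ := num_small C₂ (ε / 4) hC₂0 (by positivity)
  refine ⟨max (max g₁ g₂) (max g₃ g₄), ?_⟩
  intro G X _ _ _ _ _ c g hA hg hab s t hs ht
  classical
  have hg1 : g₁ ≤ g := ((le_max_left _ _).trans (le_max_left _ _)).trans hg
  have hg2 : g₂ ≤ g := ((le_max_right _ _).trans (le_max_left _ _)).trans hg
  have hg3 : g₃ ≤ g := ((le_max_left _ _).trans (le_max_right _ _)).trans hg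
  have hg4 : g₄ ≤ g := ((le_max_right _ _).trans (le_max_right _ _)).trans hg
  have hne : Nonempty X := by
    rw [← Fintype.card_pos_iff, hA.card]
    have := hA.pos
    omega
  obtain ⟨ι, _, S, k, hS, hodd, hall, hinj, hk1, hkδ, hsum⟩ := odd_numbers hA
  have hgR : (1 : ℝ) ≤ g := by exact_mod_cast hA.pos
  have hg0 : (0 : ℝ) < g := by linarith
  let N : ι → ℝ := fun i => ((badC c (S i)).card : ℝ) / 2 ^ g
  have hN0 : ∀ i, 0 ≤ N i := fun i => by positivity
  have hM1 : ∀ i, 1 ≤ dM (S i) := fun i => dM_pos (S i) (hS i)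
  have hE1 : ∀ i, 1 ≤ dE (S i) := fun i => dE_pos (S i) (hS i)
  have hHM : ∀ i, dH (S i) ≤ dM (S i) := fun i => finrank_hom_le (S i)
  have hH1 : ∀ i, 1 ≤ dH (S i) := fun i => by
    rw [hkδ i]
    exact Nat.mul_pos (hk1 i) (hE1 i)
  have hterm : ∀ i, k i * dM (S i) ≤ g := fun i =>
    (Finset.single_le_sum (f := fun i => k i * dM (S i)) (fun _ _ => Nat.zero_le _)
      (Finset.mem_univ i)).trans hsum
  -- squares of the dimensions for exponent at most two
  have hsq : ∀ i, dE (S i) + dM (S i) - dH (S i) ≤ 2 →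
      dM (S i) * dM (S i) ≤ 2 * (k i * dM (S i)) := by
    intro i hi
    have h1 := hkδ i
    have h2 := hHM i
    have h3 := hM1 i
    have h4 := hE1 i
    have h5 := hH1 i
    have h6 : dM (S i) ≤ 2 * k i := by
      rcases Nat.lt_or_ge (dH (S i)) (dM (S i)) with h | h
      · have h7 : dE (S i) = 1 := by omega
        rw [h7, mul_one] at h1
        omega
      · have h7 : dE (S i) ≤ 2 := by omega
        have h8 : dH (S i) = dM (S i) := le_antisymm h2 h
        calc dM (S i) = k i * dE (S i) := by rw [← h1, h8]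
          _ ≤ k i * 2 := Nat.mul_le_mul_left _ h7
          _ = 2 * k i := by ring
    calc dM (S i) * dM (S i) ≤ (2 * k i) * dM (S i) := Nat.mul_le_mul_right _ h6
      _ = 2 * (k i * dM (S i)) := by ring
  have hNsharp : ∀ i, dE (S i) + dM (S i) - dH (S i) ≤ 2 →
      N i ≤ C₀ * √(dM (S i) * (1 + Real.log (dM (S i))) / g) ^ (dE (S i) + dM (S i) - dH (S i)) := by
    intro i hi
    have h1 := hsq i hi
    have h2 := hterm i
    exact sharp_bad hC hg1 hA (S i) (hS i) (hodd i) (hHM i) hi (by omega)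
  -- the classes
  obtain ⟨pA, hpA⟩ : ∃ p : ι → Prop, ∀ i, p i ↔
      (dH (S i) < dM (S i) ∧ 3 ≤ dE (S i) + dM (S i) - dH (S i)) := ⟨_, fun _ => Iff.rfl⟩
  obtain ⟨pR, hpR⟩ : ∃ p : ι → Prop, ∀ i, p i ↔
      (dH (S i) = dM (S i) ∧ 3 ≤ dE (S i)) := ⟨_, fun _ => Iff.rfl⟩
  obtain ⟨pI, hpI⟩ : ∃ p : ι → Prop, ∀ i, p i ↔
      (dH (S i) = dM (S i) ∧ dM (S i) = 1) := ⟨_, fun _ => Iff.rfl⟩
  obtain ⟨pL, hpL⟩ : ∃ p : ι → Prop, ∀ i, p i ↔
      (dE (S i) + dM (S i) - dH (S i) = 2 ∧ M₀ ≤ dM (S i)) := ⟨_, fun _ => Iff.rfl⟩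
  obtain ⟨pN, hpN⟩ : ∃ p : ι → Prop, ∀ i, p i ↔
      (dE (S i) = 1 ∧ dH (S i) + 1 = dM (S i) ∧ 3 ≤ dM (S i) ∧ dM (S i) < M₀) :=
    ⟨_, fun _ => Iff.rfl⟩
  obtain ⟨pT, hpT⟩ : ∃ p : ι → Prop, ∀ i, p i ↔
      (dE (S i) + dM (S i) - dH (S i) = 2 ∧ dM (S i) = 2) :=
    ⟨_, fun _ => Iff.rfl⟩
  have hsub : ∀ (p : ι → Prop), ∑ i : {i // p i}, k i.1 * dM (S i.1) ≤ g := by
    intro p
    have h1 : ∑ i : {i // p i}, k i.1 * dM (S i.1)
        = ∑ i ∈ (Finset.univ : Finset {i // p i}).map ⟨Subtype.val, Subtype.val_injective⟩,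
          k i * dM (S i) := by
      rw [Finset.sum_map]
      rfl
    refine le_trans (le_of_eq h1) (le_trans ?_ hsum)
    exact Finset.sum_le_univ_sum_of_nonneg (fun _ => Nat.zero_le _)
  -- class A
  have hAsum : ∑ i : {i // pA i}, N i.1 ≤ ε / 4 := by
    have hdata : ∀ i : {i // pA i}, ∃ n κ s : ℕ, Data g (dM (S i.1)) (k i.1) (dE (S i.1))
        (dH (S i.1)) (kerM (S i.1)).index n κ s (N i.1) := by
      intro i
      have h := (hpA i.1).mp i.2
      exact exists_data4 hA (S i.1) (hS i.1) (hodd i.1) (k i.1) (hk1 i.1) (hkδ i.1) h.1 h.2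
    choose n κ s' hdata using hdata
    exact hnum {i // pA i} g (fun i => dM (S i.1)) (fun i => k i.1) (fun i => dE (S i.1))
      (fun i => dH (S i.1)) (fun i => (kerM (S i.1)).index) n κ s' (fun i => N i.1) hg2
      ((hsub pA).trans (show g ≤ 2 * g by omega)) hdata
  -- class R
  have hRsum : ∑ i : {i // pR i}, N i.1 ≤ ε / 4 := by
    have hdata : ∀ i : {i // pR i}, ∃ n s : ℕ, DataR g (dM (S i.1)) (k i.1) (dE (S i.1))
        (kerM (S i.1)).index n s (N i.1) := by
      intro i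
      have h := (hpR i.1).mp i.2
      exact exists_dataR hA (S i.1) (hS i.1) (hodd i.1) (k i.1) (hk1 i.1) (hkδ i.1) h.1 h.2
    choose n s' hdata using hdata
    exact hR {i // pR i} g (fun i => dM (S i.1)) (fun i => k i.1) (fun i => dE (S i.1))
      (fun i => (kerM (S i.1)).index) n s' (fun i => N i.1) hg4 (hsub pR) hdata
  -- class L
  have hLsum : ∑ i : {i // pL i}, N i.1 ≤ ε / 4 := by
    refine hII {i // pL i} g (fun i => dM (S i.1)) (fun i => N i.1) hA.pos
      (fun i => ((hpL i.1).mp i.2).2) ?_ ?_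
    · calc ∑ i : {i // pL i}, dM (S i.1) * dM (S i.1)
          ≤ ∑ i : {i // pL i}, 2 * (k i.1 * dM (S i.1)) := by
            refine Finset.sum_le_sum fun i _ => hsq i.1 ?_
            exact ((hpL i.1).mp i.2).1.le
        _ = 2 * ∑ i : {i // pL i}, k i.1 * dM (S i.1) := by rw [Finset.mul_sum]
        _ ≤ 2 * g := Nat.mul_le_mul_left _ (hsub pL)
    · intro i
      have h := (hpL i.1).mp i.2
      have h2 := hNsharp i.1 h.1.le
      rw [h.1] at h2
      exact h2
  -- class N
  have hNsum : ∑ i : {i // pN i}, N i.1 ≤ ε / 4 := by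
    have h1 : ∀ i : {i // pN i}, N i.1 ≤ C₂ * (g : ℝ) ^ (-(5 / 4) : ℝ) := by
      intro i
      have h := (hpN i.1).mp i.2
      have h2 := hC₂ G X c g hA (S i.1) (hS i.1) (hodd i.1) h.1 h.2.1 h.2.2.1 h.2.2.2
      exact h2
    have h2 : Fintype.card {i // pN i} ≤ g := by
      calc Fintype.card {i // pN i} = ∑ _i : {i // pN i}, 1 := by simp
        _ ≤ ∑ i : {i // pN i}, k i.1 * dM (S i.1) :=
            Finset.sum_le_sum fun i _ => Nat.mul_pos (hk1 i.1) (hM1 i.1)
        _ ≤ g := hsub pN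
    calc ∑ i : {i // pN i}, N i.1 ≤ ∑ _i : {i // pN i}, C₂ * (g : ℝ) ^ (-(5 / 4) : ℝ) :=
          Finset.sum_le_sum fun i _ => h1 i
      _ = Fintype.card {i // pN i} * (C₂ * (g : ℝ) ^ (-(5 / 4) : ℝ)) := by
          rw [Finset.sum_const, Finset.card_univ, nsmul_eq_mul]
      _ ≤ g * (C₂ * (g : ℝ) ^ (-(5 / 4) : ℝ)) := by
          apply mul_le_mul_of_nonneg_right (by exact_mod_cast h2) (by positivity)
      _ ≤ ε / 4 := hsm g hg3 hA.pos
  -- class I
  have hIsum : ∑ i ∈ Finset.univ.filter pI, N i ≤ C₀ * (s.card / √g) := by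
    have h1 : ∀ i ∈ Finset.univ.filter pI, N i ≤ C₀ * (1 / √g) := by
      intro i hi
      have h := (hpI i).mp (Finset.mem_filter.mp hi).2
      have hE : dE (S i) = 1 := by
        have h2 := hkδ i
        rw [h.1, h.2] at h2
        exact Nat.dvd_one.mp ⟨k i, by rw [mul_comm]; exact h2⟩
      have h3 : dE (S i) + dM (S i) - dH (S i) = 1 := by
        rw [h.1, hE]
        omega
      have h4 := hNsharp i (by omega)
      rw [h3, pow_one, h.2, Nat.cast_one, Real.log_one, add_zero, mul_one,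
        Real.sqrt_div zero_le_one, Real.sqrt_one] at h4
      exact h4
    have h2 : (Finset.univ.filter pI).card ≤ s.card := by
      refine Finset.card_le_card_of_injOn (fun i => kerM (S i)) ?_ ?_
      · intro i hi
        have h := (hpI i).mp (Finset.mem_filter.mp (Finset.mem_coe.mp hi)).2
        exact hs _ (blk_one hA (S i) (hodd i) h.2)
      · intro i hi j hj hij
        have hi' := (hpI i).mp (Finset.mem_filter.mp (Finset.mem_coe.mp hi)).2
        have h4 := ker_count hA S hS hodd hinj (kerM (S i))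
        rw [(triv_orb hA (S i) (hodd i) hi'.2).1] at h4
        have h5 : Nat.card {j // kerM (S j) = kerM (S i)} ≤ 1 := by omega
        rw [Nat.card_eq_fintype_card, Fintype.card_le_one_iff] at h5
        have h6 := h5 ⟨i, rfl⟩ ⟨j, hij.symm⟩
        exact congrArg Subtype.val h6
    calc ∑ i ∈ Finset.univ.filter pI, N i ≤ ∑ _i ∈ Finset.univ.filter pI, C₀ * (1 / √g) :=
          Finset.sum_le_sum h1
      _ = (Finset.univ.filter pI).card * (C₀ * (1 / √g)) := by
          rw [Finset.sum_const, nsmul_eq_mul]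
      _ ≤ s.card * (C₀ * (1 / √g)) := by
          apply mul_le_mul_of_nonneg_right (by exact_mod_cast h2) (by positivity)
      _ = C₀ * (s.card / √g) := by ring
  -- class T
  have hTsum : ∑ i ∈ Finset.univ.filter pT, N i ≤ 12 * C₀ * (t.card / g) := by
    have h1 : ∀ i ∈ Finset.univ.filter pT, kerM (S i) ∈ t := fun i hi => by
      have h := (hpT i).mp (Finset.mem_filter.mp hi).2
      exact ht _ (plane hA hab (S i) (hS i) (hodd i) h.2 h.1)
    rw [← Finset.sum_fiberwise_of_maps_to h1]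
    have h2 : ∀ i ∈ Finset.univ.filter pT, N i ≤ C₀ * 4 / g := by
      intro i hi
      have h := (hpT i).mp (Finset.mem_filter.mp hi).2
      have h4 := hNsharp i h.1.le
      have h5 : Real.log ((2 : ℕ) : ℝ) ≤ 1 := by
        have := Real.log_two_lt_d9
        push_cast
        linarith
      have h6 : 0 ≤ Real.log ((2 : ℕ) : ℝ) := Real.log_nonneg (by norm_num)
      rw [h.1, h.2, Real.sq_sqrt (by positivity)] at h4
      refine h4.trans ?_
      calc C₀ * (((2 : ℕ) : ℝ) * (1 + Real.log ((2 : ℕ) : ℝ)) / g)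
          = C₀ * (((2 : ℕ) : ℝ) * (1 + Real.log ((2 : ℕ) : ℝ))) / g := by ring
        _ ≤ C₀ * 4 / g := by
            apply div_le_div_of_nonneg_right _ hg0.le
            apply mul_le_mul_of_nonneg_left _ hC0.le
            push_cast at h5 ⊢
            linarith
    have h3 : ∀ K ∈ t, ∑ i ∈ (Finset.univ.filter pT).filter (fun i => kerM (S i) = K), N i
        ≤ 12 * C₀ / g := by
      intro K _
      by_cases hem : ((Finset.univ.filter pT).filter (fun i => kerM (S i) = K)).Nonempty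
      · obtain ⟨j, hj⟩ := hem
        have hj0 := Finset.mem_filter.mp hj
        have hj1 := (hpT j).mp (Finset.mem_filter.mp hj0.1).2
        have hj2 := plane hA hab (S j) (hS j) (hodd j) hj1.2 hj1.1
        rw [hj0.2] at hj2
        have hj3 : Nat.card (Orb K X) ≤ 6 := by
          rcases hj2 with h | h
          · rw [h.2.2.2]; norm_num
          · rw [h.1.2.2.2]
        have h4 := ker_count hA S hS hodd hinj K
        have h5 : ((Finset.univ.filter pT).filter (fun i => kerM (S i) = K)).card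
            ≤ Nat.card {i // kerM (S i) = K} := by
          rw [Nat.card_eq_fintype_card, Fintype.card_subtype]
          refine Finset.card_le_card fun i hi => ?_
          rw [Finset.mem_filter]
          exact ⟨Finset.mem_univ _, (Finset.mem_filter.mp hi).2⟩
        have h6 : (((Finset.univ.filter pT).filter (fun i => kerM (S i) = K)).card : ℝ) ≤ 3 := by
          exact_mod_cast (show _ ≤ 3 by omega)
        calc _ ≤ ∑ _i ∈ (Finset.univ.filter pT).filter (fun i => kerM (S i) = K), C₀ * 4 / g :=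
              Finset.sum_le_sum fun i hi => h2 i (Finset.mem_filter.mp hi).1
          _ = ((Finset.univ.filter pT).filter (fun i => kerM (S i) = K)).card * (C₀ * 4 / g) := by
              rw [Finset.sum_const, nsmul_eq_mul]
          _ ≤ 3 * (C₀ * 4 / g) := mul_le_mul_of_nonneg_right h6 (by positivity)
          _ = 12 * C₀ / g := by ring
      · rw [Finset.not_nonempty_iff_eq_empty.mp hem, Finset.sum_empty]
        positivity
    calc _ ≤ ∑ _K ∈ t, 12 * C₀ / (g : ℝ) := Finset.sum_le_sum h3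
      _ = 12 * C₀ * (t.card / g) := by
          rw [Finset.sum_const, nsmul_eq_mul]
          ring
  -- all classes
  have hcast : ∀ p : ι → Prop, ∑ i ∈ Finset.univ.filter p, N i = ∑ i : {i // p i}, N i.1 := by
    intro p
    rw [Finset.sum_subtype (Finset.univ.filter p) (p := p) (fun i => by simp)]
  have hcases : ∀ i, pA i ∨ pR i ∨ pI i ∨ pL i ∨ pN i ∨ pT i := by
    intro i
    rw [hpA, hpR, hpI, hpL, hpN, hpT]
    have h1 := hHM i
    have h2 := hM1 i
    have h3 := hE1 i
    have h4 := hH1 i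
    rcases Nat.lt_or_ge (dH (S i)) (dM (S i)) with h | h
    · omega
    · have heq : dH (S i) = dM (S i) := le_antisymm h1 h
      have h5 := dE_eq hA hab (S i) (hS i) heq
      omega
  have htot : ∑ i, N i ≤ ∑ i ∈ Finset.univ.filter pA, N i + ∑ i ∈ Finset.univ.filter pR, N i
      + ∑ i ∈ Finset.univ.filter pI, N i
      + ∑ i ∈ Finset.univ.filter pL, N i + ∑ i ∈ Finset.univ.filter pN, N i
      + ∑ i ∈ Finset.univ.filter pT, N i := by
    simp only [Finset.sum_filter, ← Finset.sum_add_distrib]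
    refine Finset.sum_le_sum fun i _ => ?_
    have h0 := hN0 i
    have hn : ∀ p : Prop, ∀ _ : Decidable p, 0 ≤ (if p then N i else 0) := by
      intro p _
      split_ifs <;> [exact h0; exact le_refl _]
    have h1 := hn (pA i) inferInstance
    have h2 := hn (pN i) inferInstance
    have h3 := hn (pR i) inferInstance
    have h5 := hn (pI i) inferInstance
    have h6 := hn (pL i) inferInstance
    have h7 := hn (pT i) inferInstance
    rcases hcases i with h | h | h | h | h | h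
    · have h8 : (if pA i then N i else 0) = N i := if_pos h
      linarith
    · have h8 : (if pR i then N i else 0) = N i := if_pos h
      linarith
    · have h8 : (if pI i then N i else 0) = N i := if_pos h
      linarith
    · have h8 : (if pL i then N i else 0) = N i := if_pos h
      linarith
    · have h8 : (if pN i then N i else 0) = N i := if_pos h
      linarith
    · have h8 : (if pT i then N i else 0) = N i := if_pos h
      linarith
  have hfinal : ∑ i, N i ≤ ε + 12 * C₀ * (s.card / √g + t.card / g) := by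
    rw [hcast pA, hcast pR, hcast pL, hcast pN] at htot
    have h1 : 0 ≤ C₀ * ((s.card : ℝ) / √g) := by positivity
    have h2 : 12 * C₀ * ((s.card : ℝ) / √g + t.card / g)
        = 12 * (C₀ * ((s.card : ℝ) / √g)) + 12 * C₀ * (t.card / g) := by ring
    rw [h2]
    linarith
  -- the cover
  have hcover : (Finset.univ.filter fun Φ : Finset X => CMType c Φ ∧ ¬ GeneratedByDivisors G Φ)
      ⊆ (Finset.univ : Finset ι).biUnion fun i => badC c (S i) := by
    intro Φ hΦ
    obtain ⟨hcm, hngd⟩ := (Finset.mem_filter.mp hΦ).2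
    have hnd : ¬ Nondeg c Φ := fun h =>
      hngd (generatedByDivisors_of_nondeg hA.comm hA.sq hA.free hcm h)
    obtain ⟨M, hM, hMo, hv⟩ := exists_simple_of_deg hA hcm hnd
    obtain ⟨i, ⟨e⟩⟩ := hall M hM hMo
    rw [Finset.mem_biUnion]
    exact ⟨i, Finset.mem_univ _, (mem_badC c (S i) Φ).mpr ⟨hcm, M, ⟨e.symm⟩, hv⟩⟩
  rw [Nat.card_eq_fintype_card, Fintype.card_subtype]
  have h1 : ((Finset.univ.filter fun Φ : Finset X =>
      CMType c Φ ∧ ¬ GeneratedByDivisors G Φ).card : ℝ) ≤ ∑ i, ((badC c (S i)).card : ℝ) := by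
    exact_mod_cast (Finset.card_le_card hcover).trans Finset.card_biUnion_le
  have h2 : ∑ i, ((badC c (S i)).card : ℝ) = (∑ i, N i) * 2 ^ g := by
    rw [Finset.sum_mul]
    refine Finset.sum_congr rfl fun i _ => ?_
    show _ = ((badC c (S i)).card : ℝ) / 2 ^ g * 2 ^ g
    rw [div_mul_cancel₀]
    positivity
  calc _ ≤ _ := h1
    _ = (∑ i, N i) * 2 ^ g := h2
    _ ≤ _ := mul_le_mul_of_nonneg_right hfinal (by positivity)

end Pool.Agent.Lib.MP_938ce2_ag_u5
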