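import Mathlib
import Pool.Agent.Lib.MP_938ce2_ag_u5.Main5
import Pool.Agent.Lib.MP_938ce2_ag_u5.Field5

/-!
The upper bound for the share of the exceptional CM types.
-/

set_option autoImplicit false
set_option linter.unusedSectionVars false

namespace Pool.Agent.Lib.MP_938ce2_ag_u5

open Finset Module NumberField
open Pool.Agent.Lib.MP_938ce2_ag_h60 (CMType GeneratedByDivisors conj conj_comm conj_mul_self
  conj_smul_ne card_emb)
open Pool.Agent.Lib.MP_938ce2_ag_u2 (Act card_cm_all)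
open Pool.Agent.Lib.MP_938ce2_ag_L3 (ImagQuad SmallCM AbelianSubfields share meas)

theorem even_finrank (E : Type) [Field E] [NumberField E] [IsCMField E] :
    ∃ g : ℕ, finrank ℚ E = 2 * g ∧ 1 ≤ g := by
  have h1 := IsTotallyComplex.finrank (K := E)
  have h2 : 0 < finrank ℚ E := finrank_pos
  exact ⟨_, h1, by omega⟩

theorem act_emb (L E : Type) [Field L] [NumberField L] [IsGalois ℚ L] [IsCMField L] [Field E]
    [NumberField E] [IsCMField E] [Nonempty (E →ₐ[ℚ] L)] (g : ℕ) (hg : finrank ℚ E = 2 * g)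
    (hg1 : 1 ≤ g) : Act (L ≃ₐ[ℚ] L) (E →ₐ[ℚ] L) (conj L) g :=
  ⟨conj_comm, conj_mul_self, fun φ => conj_smul_ne φ, by rw [← hg]; exact card_emb, hg1⟩

theorem upper_field : ∃ C : ℝ, 0 < C ∧ ∀ η : ℝ, 0 < η → ∃ g₀ : ℕ, ∀ (L E : Type) [Field L]
    [NumberField L] [IsGalois ℚ L] [IsCMField L] [Field E] [NumberField E] [IsCMField E]
    [Nonempty (E →ₐ[ℚ] L)], g₀ ≤ finrank ℚ E → AbelianSubfields E →
    share L E ≤ η + C * meas E := by
  obtain ⟨C, hC0, hC⟩ := main_G5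
  refine ⟨C, hC0, ?_⟩
  intro η hη
  obtain ⟨g₀, h⟩ := hC η hη
  refine ⟨2 * g₀, ?_⟩
  intro L E _ _ _ _ _ _ _ _ hge hab
  classical
  obtain ⟨g, hg, hg1⟩ := even_finrank E
  have hA := act_emb L E g hg hg1
  obtain ⟨x0⟩ := (inferInstance : Nonempty (E →ₐ[ℚ] L))
  obtain ⟨s, hs, hs'⟩ := card_le_of_inj (E := E) x0
    (fun K => Blk (L ≃ₐ[ℚ] L) (E →ₐ[ℚ] L) (conj L) 2 K) (ImagQuad E)
    (fun K hK => imag_of_blk x0 K hK) (fun K hK => ⟨hK.1, hK.2.2.1⟩)
  obtain ⟨t, ht, ht'⟩ := card_le_of_inj (E := E) x0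
    (fun K => Blk46 (L ≃ₐ[ℚ] L) (E →ₐ[ℚ] L) (conj L) K) (SmallCM E)
    (fun K hK => small_of_blk x0 K hK) (fun K hK => by
      rcases hK with hK | ⟨hK, -⟩
      · exact ⟨hK.1, hK.2.2.1⟩
      · exact ⟨hK.1, hK.2.2.1⟩)
  have h1 := h (L ≃ₐ[ℚ] L) (E →ₐ[ℚ] L) (conj L) g hA (by omega) (abQ_of_abelian L E hab) s t hs ht
  have h2 := card_cm_all hA
  have hgR : (0 : ℝ) < g := by exact_mod_cast hg1
  have hgE : (finrank ℚ E : ℝ) / 2 = g := by
    rw [hg]
    push_cast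
    ring
  unfold share meas
  rw [h2, hgE]
  push_cast
  rw [div_le_iff₀ (by positivity)]
  refine h1.trans ?_
  apply mul_le_mul_of_nonneg_right _ (by positivity)
  have h3 : (s.card : ℝ) / √g ≤ ((ImagQuad E).ncard : ℝ) / √g :=
    div_le_div_of_nonneg_right (by exact_mod_cast hs') (by positivity)
  have h4 : (t.card : ℝ) / g ≤ ((SmallCM E).ncard : ℝ) / g :=
    div_le_div_of_nonneg_right (by exact_mod_cast ht') (by positivity)
  have h5 := mul_le_mul_of_nonneg_left (add_le_add h3 h4) hC0.le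
  linarith

end Pool.Agent.Lib.MP_938ce2_ag_u5
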